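import Pool.Agent.Lib.MP_d0e86e_al.DC

/-!
# Removing the bad elements; frequent and infrequent windows
-/

namespace Pool.Agent.MPd0e86e

universe u

variable {G : Type u} [Group G]

/-- `g` is good: every replacement in a frequent labelled word is good. -/
def GoodEl (S : BallSys G) (H : Subgroup G) (M n k m : ℕ) (g : G) (w p : ℕ → G) : Prop :=
  ∀ a ∈ S.B M, ∀ b ∈ S.B M, ∀ x ∈ S.B k, ∀ j ≤ k, ∀ x' ∈ S.B j,
    b * x⁻¹ * x' * b⁻¹ ∈ ZZ H → m ≤ (TT w p n k j a x b).card →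
      x'⁻¹ * a⁻¹ * g * a ∈ S.B n

variable {S : BallSys G} {H : Subgroup G} {M n : ℕ}

open Classical in
lemma bad_total (𝒢 : Finset G) (W P : G → ℕ → G) (hC : ∀ g ∈ 𝒢, Cert S H M n g (W g) (P g))
    (k m : ℕ) :
    (m + 1) * (𝒢.filter (fun g => ¬ GoodEl S H M n k m g (W g) (P g))).card ≤
      (S.f M ^ 2 * S.f k ^ 2 * (k + 1)) * S.f n := by
  set Ix : Finset (G × G × G × G × ℕ) :=
    (S.B M) ×ˢ ((S.B M) ×ˢ ((S.B k) ×ˢ ((S.B k) ×ˢ (Finset.range (k + 1))))) with hIx
  set Bd : G × G × G × G × ℕ → Finset G := fun q =>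
    if q.2.2.2.1 ∈ S.B q.2.2.2.2 ∧ q.2.1 * q.2.2.1⁻¹ * q.2.2.2.1 * q.2.1⁻¹ ∈ ZZ H then
    𝒢.filter (fun g => m ≤ (TT (W g) (P g) n k q.2.2.2.2 q.1 q.2.2.1 q.2.1).card ∧
      q.2.2.2.1⁻¹ * q.1⁻¹ * g * q.1 ∉ S.B n) else ∅ with hBd
  have hsub : 𝒢.filter (fun g => ¬ GoodEl S H M n k m g (W g) (P g)) ⊆ Ix.biUnion Bd := by
    intro g hg
    rw [Finset.mem_filter] at hg
    obtain ⟨hg1, hg2⟩ := hg
    unfold GoodEl at hg2
    push Not at hg2
    obtain ⟨a, ha, b, hb, x, hx, j, hj, x', hx', hz, hm, hnot⟩ := hg2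
    rw [Finset.mem_biUnion]
    refine ⟨(a, b, x, x', j), ?_, ?_⟩
    · rw [hIx, Finset.mem_product, Finset.mem_product, Finset.mem_product, Finset.mem_product]
      exact ⟨ha, hb, hx, S.mono' hj hx', Finset.mem_range.mpr (Nat.lt_succ_of_le hj)⟩
    · simp only [hBd]
      rw [if_pos ⟨hx', hz⟩, Finset.mem_filter]
      exact ⟨hg1, hm, hnot⟩
  have hcard : ∀ q ∈ Ix, (m + 1) * (Bd q).card ≤ S.f n := by
    rintro ⟨a, b, x, x', j⟩ hq
    rw [hIx, Finset.mem_product, Finset.mem_product, Finset.mem_product, Finset.mem_product] at hq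
    obtain ⟨ha, hb, hx, hx', hj⟩ := hq
    simp only at ha hb hx hx' hj
    simp only [hBd]
    split_ifs with h
    · exact run_lemma 𝒢 W P hC (by have := Finset.mem_range.mp hj; omega) h.1 h.2 m
    · simp
  have hIxc : Ix.card = S.f M ^ 2 * S.f k ^ 2 * (k + 1) := by
    rw [hIx, Finset.card_product, Finset.card_product, Finset.card_product, Finset.card_product,
      Finset.card_range]
    show S.f M * (S.f M * (S.f k * (S.f k * (k + 1)))) = _
    ring
  calc (m + 1) * (𝒢.filter (fun g => ¬ GoodEl S H M n k m g (W g) (P g))).card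
      ≤ (m + 1) * (Ix.biUnion Bd).card := Nat.mul_le_mul_left _ (Finset.card_le_card hsub)
    _ ≤ (m + 1) * ∑ q ∈ Ix, (Bd q).card := Nat.mul_le_mul_left _ Finset.card_biUnion_le
    _ = ∑ q ∈ Ix, (m + 1) * (Bd q).card := by rw [Finset.mul_sum]
    _ ≤ ∑ q ∈ Ix, S.f n := Finset.sum_le_sum hcard
    _ = _ := by rw [Finset.sum_const, smul_eq_mul, hIxc]

open Classical in
/-- The windows whose initial part of length `j` is infrequent. -/
noncomputable def InfW (w p : ℕ → G) (n k m j : ℕ) : Finset ℕ :=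
  (Finset.range (n / k)).filter (fun s =>
    (TT w p n k j (p (s * k)) ((w (s * k))⁻¹ * w (s * k + j)) (p (s * k + j))).card < m)

lemma infw_card {g : G} {w p : ℕ → G} (hC : Cert S H M n g w p) {k j : ℕ} (hj : j ≤ k) (m : ℕ) :
    (InfW w p n k m j).card ≤ (S.f M * S.f k * S.f M) * m := by
  classical
  have hsub : InfW w p n k m j ⊆
      ((S.B M) ×ˢ ((S.B k) ×ˢ (S.B M))).biUnion (fun τ : G × G × G =>
        if (TT w p n k j τ.1 τ.2.1 τ.2.2).card < m then TT w p n k j τ.1 τ.2.1 τ.2.2 else ∅) := by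
    intro s hs
    rw [InfW, Finset.mem_filter, Finset.mem_range] at hs
    obtain ⟨hs1, hs2⟩ := hs
    have hle := win_le hs1
    have h1 : s * k + j ≤ (s + 1) * k := by rw [add_mul, one_mul]; omega
    rw [Finset.mem_biUnion]
    refine ⟨(p (s * k), (w (s * k))⁻¹ * w (s * k + j), p (s * k + j)), ?_, ?_⟩
    · rw [Finset.mem_product, Finset.mem_product]
      refine ⟨hC.pM _ (by omega), ?_, hC.pM _ (by omega)⟩
      have := hC.path.diff (Nat.le_add_right (s * k) j)
      exact S.mono' (by omega) this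
    · simp only
      rw [if_pos hs2, mem_TT]
      exact ⟨hs1, rfl, rfl, rfl⟩
  calc (InfW w p n k m j).card ≤ _ := Finset.card_le_card hsub
    _ ≤ ((S.B M) ×ˢ ((S.B k) ×ˢ (S.B M))).card * m := by
      apply Finset.card_biUnion_le_card_mul
      intro τ _
      split_ifs with h
      · exact h.le
      · simp
    _ = _ := by
      rw [Finset.card_product, Finset.card_product]
      show S.f M * (S.f k * S.f M) * m = _
      ring

end Pool.Agent.MPd0e86e
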