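import Pool.Agent.Lib.MP_d0e86e_al.Run

/-!
# The weighted double counting
-/

namespace Pool.Agent.MPd0e86e

universe u

variable {G : Type u} [Group G]

open Classical in
lemma sum_inv (S : BallSys G) (Q : G → Prop) (k : ℕ) :
    ∑ x ∈ (S.B k).filter Q, (1 : ℝ) / (((S.B (S.wl x)).filter Q).card : ℝ) ≤
      1 + Real.log (((S.B k).filter Q).card : ℝ) := by
  induction k with
  | zero =>
    have h1 : ∑ x ∈ (S.B 0).filter Q, (1 : ℝ) / (((S.B (S.wl x)).filter Q).card : ℝ) =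
        ∑ x ∈ (S.B 0).filter Q, (1 : ℝ) / (((S.B 0).filter Q).card : ℝ) := by
      apply Finset.sum_congr rfl
      intro x hx
      have := S.wl_le (Finset.mem_filter.mp hx).1
      rw [Nat.le_zero.mp this]
    rw [h1, Finset.sum_const, nsmul_eq_mul]
    have h2 : (((S.B 0).filter Q).card : ℝ) * (1 / (((S.B 0).filter Q).card : ℝ)) ≤ 1 := by
      rw [mul_one_div]
      exact div_self_le_one _
    have h3 : 0 ≤ Real.log (((S.B 0).filter Q).card : ℝ) := Real.log_natCast_nonneg _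
    linarith
  | succ k ih =>
    set C : ℕ → Finset G := fun l => (S.B l).filter Q with hC
    have hsub : C k ⊆ C (k + 1) := Finset.filter_subset_filter _ (S.mono' (Nat.le_succ k))
    have hsplit : ∑ x ∈ C (k + 1), (1 : ℝ) / ((C (S.wl x)).card : ℝ) =
        ∑ x ∈ C k, (1 : ℝ) / ((C (S.wl x)).card : ℝ) +
        ∑ x ∈ C (k + 1) \ C k, (1 : ℝ) / ((C (S.wl x)).card : ℝ) := by
      rw [← Finset.sum_sdiff hsub, add_comm]
    have hnew : ∑ x ∈ C (k + 1) \ C k, (1 : ℝ) / ((C (S.wl x)).card : ℝ) =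
        (((C (k + 1)).card : ℝ) - ((C k).card : ℝ)) / ((C (k + 1)).card : ℝ) := by
      have h1 : ∑ x ∈ C (k + 1) \ C k, (1 : ℝ) / ((C (S.wl x)).card : ℝ) =
          ∑ x ∈ C (k + 1) \ C k, (1 : ℝ) / ((C (k + 1)).card : ℝ) := by
        apply Finset.sum_congr rfl
        intro x hx
        rw [Finset.mem_sdiff] at hx
        have hx1 := hx.1
        simp only [hC, Finset.mem_filter] at hx1 hx
        have h2 : S.wl x ≤ k + 1 := S.wl_le hx1.1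
        have h3 : ¬ S.wl x ≤ k := fun h => hx.2 ⟨S.mem_iff_wl.mpr h, hx1.2⟩
        have : S.wl x = k + 1 := by omega
        rw [this]
      rw [h1, Finset.sum_const, nsmul_eq_mul, mul_one_div, Finset.card_sdiff_of_subset hsub,
        Nat.cast_sub (Finset.card_le_card hsub)]
    change ∑ x ∈ C (k + 1), (1 : ℝ) / ((C (S.wl x)).card : ℝ) ≤ 1 + Real.log ((C (k + 1)).card : ℝ)
    change ∑ x ∈ C k, (1 : ℝ) / ((C (S.wl x)).card : ℝ) ≤ 1 + Real.log ((C k).card : ℝ) at ih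
    rw [hsplit, hnew]
    rcases Nat.eq_zero_or_pos (C k).card with h0 | hpos
    · have he : C k = ∅ := Finset.card_eq_zero.mp h0
      rw [he, Finset.sum_empty, Finset.card_empty, Nat.cast_zero, sub_zero, zero_add]
      have h3 : 0 ≤ Real.log ((C (k + 1)).card : ℝ) := Real.log_natCast_nonneg _
      have h4 : ((C (k + 1)).card : ℝ) / ((C (k + 1)).card : ℝ) ≤ 1 := div_self_le_one _
      linarith
    · have hpos' : (0 : ℝ) < ((C k).card : ℝ) := by exact_mod_cast hpos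
      have hle : ((C k).card : ℝ) ≤ ((C (k + 1)).card : ℝ) := by
        exact_mod_cast Finset.card_le_card hsub
      have hpos2 : (0 : ℝ) < ((C (k + 1)).card : ℝ) := lt_of_lt_of_le hpos' hle
      have h5 : 1 - (((C (k + 1)).card : ℝ) / ((C k).card : ℝ))⁻¹ ≤
          Real.log (((C (k + 1)).card : ℝ) / ((C k).card : ℝ)) :=
        Real.one_sub_inv_le_log_of_pos (div_pos hpos2 hpos')
      rw [Real.log_div hpos2.ne' hpos'.ne', inv_div] at h5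
      have h6 : (((C (k + 1)).card : ℝ) - ((C k).card : ℝ)) / ((C (k + 1)).card : ℝ) =
          1 - ((C k).card : ℝ) / ((C (k + 1)).card : ℝ) := by
        rw [sub_div, div_self hpos2.ne']
      rw [h6]
      linarith

open Classical in
/-- The weighted double counting lemma. -/
lemma dc (S : BallSys G) (H : Subgroup G) (M k n : ℕ) (𝒢 : Finset G)
    (I : G → Finset (G × G × G)) (hg : ∀ g ∈ 𝒢, g ∈ ZZ H)
    (hI : ∀ g ∈ 𝒢, ∀ τ ∈ I g, τ.1 ∈ S.B M ∧ τ.2.1 ∈ S.B k ∧ τ.2.2 ∈ S.B M ∧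
      τ.1 * τ.2.1 * τ.2.2⁻¹ ∈ H)
    (hgood : ∀ g ∈ 𝒢, ∀ τ ∈ I g, ∀ x' ∈ S.B (S.wl τ.2.1),
      τ.2.2 * τ.2.1⁻¹ * x' * τ.2.2⁻¹ ∈ ZZ H → x'⁻¹ * τ.1⁻¹ * g * τ.1 ∈ S.B n)
    (hinj : ∀ g ∈ 𝒢, ∀ τ ∈ I g, ∀ τ' ∈ I g, τ.1 = τ'.1 → τ.2.2 = τ'.2.2 →
      τ.2.2 * τ.2.1⁻¹ * τ'.2.1 * τ.2.2⁻¹ ∈ ZZ H → τ = τ') :
    ∑ g ∈ 𝒢, ((I g).card : ℝ) ≤ (S.f M : ℝ) ^ 2 * S.f n * (1 + Real.log (S.f k : ℝ)) := by
  set Z := ZZ H with hZ
  -- the class at level `l`
  set A : G × G × G → Finset G := fun τ =>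
    (S.B (S.wl τ.2.1)).filter (fun x' => τ.2.2 * τ.2.1⁻¹ * x' * τ.2.2⁻¹ ∈ Z) with hA
  set F : G × G × G × G → ℝ := fun q =>
    (1 : ℝ) / (((S.B (S.wl q.2.2.2)).filter
      (fun x'' => q.2.1 * q.2.2.1 * x'' * q.2.1⁻¹ ∈ Z)).card : ℝ) with hF
  set φ : (Σ _ : G, Σ _ : G × G × G, G) → G × G × G × G := fun q =>
    (q.2.1.1, q.2.1.2.2, q.2.2⁻¹ * q.2.1.1⁻¹ * q.1 * q.2.1.1, q.2.2) with hφ
  have hFnn : ∀ q, 0 ≤ F q := fun q => by simp only [hF]; positivity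
  -- basic fact for elements of the source
  have basic : ∀ g ∈ 𝒢, ∀ τ ∈ I g, ∀ x' ∈ A τ,
      τ.2.2 * (x'⁻¹ * τ.1⁻¹ * g * τ.1) * x' * τ.2.2⁻¹ = g := by
    intro g hgg τ hτ x' hx'
    obtain ⟨-, -, -, h4⟩ := hI g hgg τ hτ
    simp only [hA, Finset.mem_filter] at hx'
    have h5 : τ.1 * x' * τ.2.2⁻¹ ∈ H := by
      have := mul_mem h4 (ZZ_le H hx'.2)
      have e : τ.1 * τ.2.1 * τ.2.2⁻¹ * (τ.2.2 * τ.2.1⁻¹ * x' * τ.2.2⁻¹) = τ.1 * x' * τ.2.2⁻¹ := by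
        group
      rwa [e] at this
    have h6 := ZZ_comm (hg g hgg) h5
    calc τ.2.2 * (x'⁻¹ * τ.1⁻¹ * g * τ.1) * x' * τ.2.2⁻¹
        = (τ.1 * x' * τ.2.2⁻¹)⁻¹ * (g * (τ.1 * x' * τ.2.2⁻¹)) := by group
      _ = g := by rw [h6]; group
  have step1 : ∀ g ∈ 𝒢, ∀ τ ∈ I g, (1 : ℝ) ≤ ∑ x' ∈ A τ, F (φ ⟨g, τ, x'⟩) := by
    intro g hgg τ hτ
    have hne : 0 < (A τ).card := by
      apply Finset.card_pos.mpr
      refine ⟨τ.2.1, ?_⟩
      simp only [hA, Finset.mem_filter]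
      refine ⟨S.mem_wl _, ?_⟩
      have : τ.2.2 * τ.2.1⁻¹ * τ.2.1 * τ.2.2⁻¹ = 1 := by group
      rw [this]
      exact one_mem _
    have h1 : ∀ x' ∈ A τ, (1 : ℝ) / ((A τ).card : ℝ) ≤ F (φ ⟨g, τ, x'⟩) := by
      intro x' hx'
      have hb := basic g hgg τ hτ x' hx'
      have hx'' := hx'
      simp only [hA, Finset.mem_filter] at hx''
      simp only [hF, hφ]
      have hsub : (S.B (S.wl x')).filter
          (fun x'' => τ.2.2 * (x'⁻¹ * τ.1⁻¹ * g * τ.1) * x'' * τ.2.2⁻¹ ∈ Z) ⊆ A τ := by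
        intro x'' h
        rw [Finset.mem_filter] at h
        simp only [hA, Finset.mem_filter]
        refine ⟨S.mono' (S.wl_le hx''.1) h.1, ?_⟩
        have e : τ.2.2 * τ.2.1⁻¹ * x'' * τ.2.2⁻¹ = (τ.2.2 * τ.2.1⁻¹ * x' * τ.2.2⁻¹) *
            (τ.2.2 * (x'⁻¹ * τ.1⁻¹ * g * τ.1) * x' * τ.2.2⁻¹)⁻¹ *
            (τ.2.2 * (x'⁻¹ * τ.1⁻¹ * g * τ.1) * x'' * τ.2.2⁻¹) := by group
        rw [e]
        refine mul_mem (mul_mem hx''.2 (inv_mem ?_)) h.2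
        rw [hb]
        exact hg g hgg
      have hne2 : 0 < ((S.B (S.wl x')).filter
          (fun x'' => τ.2.2 * (x'⁻¹ * τ.1⁻¹ * g * τ.1) * x'' * τ.2.2⁻¹ ∈ Z)).card := by
        apply Finset.card_pos.mpr
        refine ⟨x', ?_⟩
        rw [Finset.mem_filter]
        refine ⟨S.mem_wl _, ?_⟩
        rw [hb]
        exact hg g hgg
      exact one_div_le_one_div_of_le (by exact_mod_cast hne2)
        (by exact_mod_cast Finset.card_le_card hsub)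
    calc (1 : ℝ) = ∑ x' ∈ A τ, (1 : ℝ) / ((A τ).card : ℝ) := by
          rw [Finset.sum_const, nsmul_eq_mul, mul_one_div, div_self]
          exact_mod_cast hne.ne'
      _ ≤ _ := Finset.sum_le_sum h1
  -- the source
  set Src := 𝒢.sigma (fun g => (I g).sigma (fun τ => A τ)) with hSrc
  set Tgt := ((S.B M) ×ˢ ((S.B M) ×ˢ ((S.B n) ×ˢ (S.B k)))).filter
    (fun q : G × G × G × G => q.2.1 * q.2.2.1 * q.2.2.2 * q.2.1⁻¹ ∈ Z) with hTgt
  have step2 : ∑ g ∈ 𝒢, ((I g).card : ℝ) ≤ ∑ q ∈ Src, F (φ q) := by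
    rw [hSrc, Finset.sum_sigma]
    apply Finset.sum_le_sum
    intro g hgg
    rw [Finset.sum_sigma]
    calc ((I g).card : ℝ) = ∑ τ ∈ I g, (1 : ℝ) := by simp
      _ ≤ _ := Finset.sum_le_sum (fun τ hτ => step1 g hgg τ hτ)
  have hφinj : Set.InjOn φ (Src : Set _) := by
    rintro ⟨g, τ, x⟩ h1 ⟨g', τ', x'⟩ h2 h
    rw [Finset.mem_coe, hSrc, Finset.mem_sigma, Finset.mem_sigma] at h1 h2
    obtain ⟨hg1, hτ1, hx1⟩ := h1
    obtain ⟨hg2, hτ2, hx2⟩ := h2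
    simp only at hg1 hτ1 hx1 hg2 hτ2 hx2
    simp only [hφ, Prod.mk.injEq] at h
    obtain ⟨ha, hb, hy, hx⟩ := h
    subst hx
    rw [← ha] at hy
    have hgg : g = g' := by
      have := mul_right_cancel hy
      exact mul_left_cancel this
    subst hgg
    have hττ : τ = τ' := by
      apply hinj g hg1 τ hτ1 τ' hτ2 ha hb
      simp only [hA, Finset.mem_filter] at hx1 hx2
      rw [← hb] at hx2
      have e : τ.2.2 * τ.2.1⁻¹ * τ'.2.1 * τ.2.2⁻¹ = (τ.2.2 * τ.2.1⁻¹ * x * τ.2.2⁻¹) *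
          (τ.2.2 * τ'.2.1⁻¹ * x * τ.2.2⁻¹)⁻¹ := by group
      rw [e]
      exact mul_mem hx1.2 (inv_mem hx2.2)
    subst hττ
    rfl
  have hmaps : Src.image φ ⊆ Tgt := by
    intro q hq
    rw [Finset.mem_image] at hq
    obtain ⟨⟨g, τ, x'⟩, h1, rfl⟩ := hq
    rw [hSrc, Finset.mem_sigma, Finset.mem_sigma] at h1
    obtain ⟨hg1, hτ1, hx1⟩ := h1
    simp only at hg1 hτ1 hx1
    have hb := basic g hg1 τ hτ1 x' hx1
    obtain ⟨i1, i2, i3, i4⟩ := hI g hg1 τ hτ1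
    have hx1' := hx1
    simp only [hA, Finset.mem_filter] at hx1'
    rw [hTgt, Finset.mem_filter, Finset.mem_product, Finset.mem_product, Finset.mem_product]
    simp only [hφ]
    refine ⟨⟨i1, i3, hgood g hg1 τ hτ1 x' hx1'.1 hx1'.2, S.mono' (S.wl_le i2) hx1'.1⟩, ?_⟩
    rw [hb]
    exact hg g hg1
  have step3 : ∑ q ∈ Src, F (φ q) ≤ ∑ q ∈ Tgt, F q := by
    rw [← Finset.sum_image (f := F) (g := φ) (fun x hx y hy h => hφinj hx hy h)]
    exact Finset.sum_le_sum_of_subset_of_nonneg hmaps (fun q _ _ => hFnn q)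
  have step4 : ∑ q ∈ Tgt, F q ≤
      (S.f M : ℝ) ^ 2 * S.f n * (1 + Real.log (S.f k : ℝ)) := by
    rw [hTgt, Finset.sum_filter, Finset.sum_product]
    have inner : ∀ a ∈ S.B M, ∀ b ∈ S.B M, ∀ y ∈ S.B n,
        ∑ x' ∈ S.B k, (if b * y * x' * b⁻¹ ∈ Z then F (a, b, y, x') else 0) ≤
          1 + Real.log (S.f k : ℝ) := by
      intro a _ b _ y _
      rw [← Finset.sum_filter]
      refine (sum_inv S (fun x' => b * y * x' * b⁻¹ ∈ Z) k).trans ?_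
      have h7 : ((S.B k).filter (fun x' => b * y * x' * b⁻¹ ∈ Z)).card ≤ S.f k :=
        Finset.card_filter_le _ _
      rcases Nat.eq_zero_or_pos ((S.B k).filter (fun x' => b * y * x' * b⁻¹ ∈ Z)).card with h0 | h0
      · rw [h0]
        simp only [Nat.cast_zero, Real.log_zero]
        have := Real.log_natCast_nonneg (S.f k)
        linarith
      · have : Real.log (((S.B k).filter (fun x' => b * y * x' * b⁻¹ ∈ Z)).card : ℝ) ≤
            Real.log (S.f k : ℝ) :=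
          Real.log_le_log (by exact_mod_cast h0) (by exact_mod_cast h7)
        linarith
    have e1 : ∀ a ∈ S.B M, ∑ q ∈ (S.B M) ×ˢ ((S.B n) ×ˢ (S.B k)),
        (if q.1 * q.2.1 * q.2.2 * q.1⁻¹ ∈ Z then F (a, q) else 0) ≤
        (S.f M : ℝ) * ((S.f n : ℝ) * (1 + Real.log (S.f k : ℝ))) := by
      intro a ha
      rw [Finset.sum_product]
      have e2 : ∀ b ∈ S.B M, ∑ q ∈ (S.B n) ×ˢ (S.B k),
          (if b * q.1 * q.2 * b⁻¹ ∈ Z then F (a, b, q) else 0) ≤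
          (S.f n : ℝ) * (1 + Real.log (S.f k : ℝ)) := by
        intro b hb
        rw [Finset.sum_product]
        calc _ ≤ ∑ y ∈ S.B n, (1 + Real.log (S.f k : ℝ)) :=
              Finset.sum_le_sum (fun y hy => inner a ha b hb y hy)
          _ = _ := by rw [Finset.sum_const, nsmul_eq_mul]; rfl
      calc _ ≤ ∑ b ∈ S.B M, (S.f n : ℝ) * (1 + Real.log (S.f k : ℝ)) :=
            Finset.sum_le_sum e2
        _ = _ := by rw [Finset.sum_const, nsmul_eq_mul]; rfl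
    calc _ ≤ ∑ a ∈ S.B M, (S.f M : ℝ) * ((S.f n : ℝ) * (1 + Real.log (S.f k : ℝ))) :=
          Finset.sum_le_sum e1
      _ = (S.f M : ℝ) * ((S.f M : ℝ) * ((S.f n : ℝ) * (1 + Real.log (S.f k : ℝ)))) := by
          rw [Finset.sum_const, nsmul_eq_mul]; rfl
      _ = _ := by ring
  exact step2.trans (step3.trans step4)

end Pool.Agent.MPd0e86e
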