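import Mathlib

/-!
# Balls in a finitely generated group and conjugacy classes (MP_d0e86e_al)
-/

open Filter Topology

namespace Pool.Agent.MPd0e86e

universe u

variable {G : Type u} [Group G]

/-- The ball of radius `n` of the group `G` with respect to the finite set `X`: the elements
that are products of at most `n` letters from `X` and the inverses of elements of `X`. -/
def ball (X : Finset G) (n : ℕ) : Set G :=
  {g | ∃ l : List G, l.length ≤ n ∧ (∀ x ∈ l, x ∈ X ∨ x⁻¹ ∈ X) ∧ l.prod = g}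

/-- The set of conjugacy classes of `G` that contain at least one element of the ball of
radius `n`. -/
def classes (X : Finset G) (n : ℕ) : Set (ConjClasses G) :=
  {c | ∃ g ∈ ball X n, ConjClasses.mk g = c}

/-- The ratio (number of conjugacy classes meeting the ball of radius `n`) / (number of
elements of the ball of radius `n`). -/
noncomputable def ratio (X : Finset G) (n : ℕ) : ℝ :=
  ((classes X n).ncard : ℝ) / ((ball X n).ncard : ℝ)

/-- A system of balls, abstractly. -/
structure BallSys (G : Type u) [Group G] where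
  /-- the ball of radius `n` -/
  B : ℕ → Finset G
  one_mem' : (1 : G) ∈ B 0
  mono' : ∀ {m n : ℕ}, m ≤ n → B m ⊆ B n
  mul_mem' : ∀ {m n : ℕ} {x y : G}, x ∈ B m → y ∈ B n → x * y ∈ B (m + n)
  inv_mem' : ∀ {n : ℕ} {x : G}, x ∈ B n → x⁻¹ ∈ B n
  path' : ∀ {n : ℕ} {g : G}, g ∈ B n →
    ∃ u : ℕ → G, u 0 = 1 ∧ u n = g ∧ ∀ i, (u i)⁻¹ * u (i + 1) ∈ B 1
  exh' : ∀ g : G, ∃ n, g ∈ B n

section ball

variable (X : Finset G)

lemma ball_zero : ball X 0 = {1} := by
  ext g
  constructor
  · rintro ⟨l, hl, -, rfl⟩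
    have : l = [] := List.length_eq_zero_iff.mp (Nat.le_zero.mp hl)
    simp [this]
  · rintro rfl
    exact ⟨[], by simp, by simp, by simp⟩

lemma ball_mul {m n : ℕ} {x y : G} (hx : x ∈ ball X m) (hy : y ∈ ball X n) :
    x * y ∈ ball X (m + n) := by
  obtain ⟨l, hl, hl', rfl⟩ := hx
  obtain ⟨r, hr, hr', rfl⟩ := hy
  refine ⟨l ++ r, by simp; omega, ?_, by simp⟩
  intro x hx
  rcases List.mem_append.mp hx with h | h
  · exact hl' x h
  · exact hr' x h

lemma ball_inv {n : ℕ} {x : G} (hx : x ∈ ball X n) : x⁻¹ ∈ ball X n := by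
  obtain ⟨l, hl, hl', rfl⟩ := hx
  refine ⟨(l.map fun x => x⁻¹).reverse, by simpa using hl, ?_, ?_⟩
  · intro x hx
    rw [List.mem_reverse, List.mem_map] at hx
    obtain ⟨y, hy, rfl⟩ := hx
    rcases hl' y hy with h | h
    · right; simpa using h
    · left; exact h
  · rw [List.prod_inv_reverse]

lemma ball_succ (n : ℕ) : ball X (n + 1) ⊆
    (fun p : G × G => p.1 * p.2) '' (ball X n ×ˢ ball X 1) := by
  rintro g ⟨l, hl, hl', rfl⟩
  rcases List.eq_nil_or_concat l with rfl | ⟨l', x, rfl⟩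
  · exact ⟨(1, 1), ⟨⟨[], by simp, by simp, by simp⟩, ⟨[], by simp, by simp, by simp⟩⟩, by simp⟩
  · refine ⟨(l'.prod, x), ⟨⟨l', ?_, ?_, rfl⟩, ⟨[x], by simp, ?_, by simp⟩⟩, by simp⟩
    · simpa using hl
    · intro y hy; exact hl' y (by simp [hy])
    · intro y hy
      simp only [List.mem_singleton] at hy
      subst hy
      exact hl' _ (by simp)

lemma ball_one_subset : ball X 1 ⊆ {1} ∪ (↑X ∪ (fun x : G => x⁻¹) '' (X : Set G)) := by
  rintro g ⟨l, hl, hl', rfl⟩
  match l, hl, hl' with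
  | [], _, _ => simp
  | [x], _, hl' =>
    right
    rcases hl' x (by simp) with h | h
    · left; simpa using h
    · right; exact ⟨x⁻¹, h, by simp⟩
  | _ :: _ :: _, hl, _ => simp at hl

lemma ball_finite (n : ℕ) : (ball X n).Finite := by
  induction n with
  | zero => rw [ball_zero]; exact Set.finite_singleton _
  | succ n ih =>
    refine ((ih.prod ?_).image _).subset (ball_succ X n)
    refine Set.Finite.subset ?_ (ball_one_subset X)
    exact (Set.finite_singleton _).union (X.finite_toSet.union (X.finite_toSet.image _))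

lemma ball_mono {m n : ℕ} (h : m ≤ n) : ball X m ⊆ ball X n := by
  rintro g ⟨l, hl, hl', rfl⟩
  exact ⟨l, hl.trans h, hl', rfl⟩

lemma ball_path (n : ℕ) : ∀ g ∈ ball X n,
    ∃ u : ℕ → G, u 0 = 1 ∧ u n = g ∧ ∀ i, (u i)⁻¹ * u (i + 1) ∈ ball X 1 := by
  have h1 : (1 : G) ∈ ball X 1 := ⟨[], by simp, by simp, by simp⟩
  induction n with
  | zero =>
    intro g hg
    rw [ball_zero] at hg
    exact ⟨fun _ => 1, rfl, hg.symm, fun i => by simpa using h1⟩
  | succ n ih =>
    intro g hg
    obtain ⟨⟨a, b⟩, ⟨ha, hb⟩, rfl⟩ := ball_succ X n hg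
    obtain ⟨u, hu0, hun, hu⟩ := ih a ha
    refine ⟨fun i => if i ≤ n then u i else a * b, by simp [hu0], by simp, ?_⟩
    intro i
    by_cases h : i + 1 ≤ n
    · have h' : i ≤ n := by omega
      simp only [h, h', if_true]
      exact hu i
    · by_cases h' : i ≤ n
      · have : i = n := by omega
        subst this
        simp only [le_refl, if_true, h, if_false, hun]
        simpa using hb
      · simp only [h, h', if_false]
        simpa using h1

lemma exists_ball (hX : Subgroup.closure (X : Set G) = ⊤) (g : G) : ∃ n, g ∈ ball X n := by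
  have hg : g ∈ Subgroup.closure (X : Set G) := by rw [hX]; trivial
  induction hg using Subgroup.closure_induction with
  | mem x hx => exact ⟨1, [x], by simp, by simpa using Or.inl hx, by simp⟩
  | one => exact ⟨0, [], by simp, by simp, by simp⟩
  | mul x y _ _ hx hy =>
    obtain ⟨m, hm⟩ := hx
    obtain ⟨n, hn⟩ := hy
    exact ⟨m + n, ball_mul X hm hn⟩
  | inv x _ hx =>
    obtain ⟨m, hm⟩ := hx
    exact ⟨m, ball_inv X hm⟩

/-- The system of balls of a finite generating set. -/
noncomputable def ballSys (hX : Subgroup.closure (X : Set G) = ⊤) : BallSys G where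
  B n := (ball_finite X n).toFinset
  one_mem' := by simp [ball_zero]
  mono' h := by
    intro g
    simp only [Set.Finite.mem_toFinset]
    exact fun hg => ball_mono X h hg
  mul_mem' hx hy := by
    simp only [Set.Finite.mem_toFinset] at *
    exact ball_mul X hx hy
  inv_mem' hx := by
    simp only [Set.Finite.mem_toFinset] at *
    exact ball_inv X hx
  path' hg := by
    simp only [Set.Finite.mem_toFinset] at *
    exact ball_path X _ _ hg
  exh' g := by
    simp only [Set.Finite.mem_toFinset] at *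
    exact exists_ball X hX g

lemma ballSys_card (hX : Subgroup.closure (X : Set G) = ⊤) (n : ℕ) :
    ((ballSys X hX).B n).card = (ball X n).ncard := by
  rw [Set.ncard_eq_toFinset_card _ (ball_finite X n)]
  rfl

lemma mem_ballSys (hX : Subgroup.closure (X : Set G) = ⊤) (n : ℕ) (g : G) :
    g ∈ (ballSys X hX).B n ↔ g ∈ ball X n := by
  simp [ballSys]

end ball

namespace BallSys

variable (S : BallSys G)

/-- growth function -/
def f (n : ℕ) : ℕ := (S.B n).card

lemma mem_mono {m n : ℕ} (h : m ≤ n) {x : G} (hx : x ∈ S.B m) : x ∈ S.B n := S.mono' h hx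

lemma one_mem (n : ℕ) : (1 : G) ∈ S.B n := S.mono' (Nat.zero_le n) S.one_mem'

lemma mul_mem {m n : ℕ} {x y : G} (hx : x ∈ S.B m) (hy : y ∈ S.B n) : x * y ∈ S.B (m + n) :=
  S.mul_mem' hx hy

lemma mul_mem_of_le {m n k : ℕ} {x y : G} (hx : x ∈ S.B m) (hy : y ∈ S.B n) (h : m + n ≤ k) :
    x * y ∈ S.B k :=
  S.mono' h (S.mul_mem' hx hy)

lemma inv_mem {n : ℕ} {x : G} (hx : x ∈ S.B n) : x⁻¹ ∈ S.B n := S.inv_mem' hx

lemma f_pos (n : ℕ) : 0 < S.f n := Finset.card_pos.mpr ⟨1, S.one_mem n⟩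

lemma f_mono {m n : ℕ} (h : m ≤ n) : S.f m ≤ S.f n := Finset.card_le_card (S.mono' h)

/-- A lazy path with `n` steps. -/
structure IsPath (u : ℕ → G) : Prop where
  zero : u 0 = 1
  step : ∀ i, (u i)⁻¹ * u (i + 1) ∈ S.B 1

variable {S}

lemma IsPath.diff {u : ℕ → G} (h : S.IsPath u) {i j : ℕ} (hij : i ≤ j) :
    (u i)⁻¹ * u j ∈ S.B (j - i) := by
  obtain ⟨d, rfl⟩ := Nat.exists_eq_add_of_le hij
  rw [Nat.add_sub_cancel_left]
  clear hij
  induction d with
  | zero => simpa using S.one_mem 0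
  | succ d ih =>
    have := S.mul_mem ih (h.step (i + d))
    have h2 : (u i)⁻¹ * u (i + d) * ((u (i + d))⁻¹ * u (i + d + 1)) = (u i)⁻¹ * u (i + (d + 1)) := by
      rw [mul_assoc, mul_inv_cancel_left, add_assoc]
    rwa [h2] at this

lemma IsPath.mem {u : ℕ → G} (h : S.IsPath u) (j : ℕ) : u j ∈ S.B j := by
  simpa [h.zero] using h.diff (Nat.zero_le j)

variable (S)

lemma exists_path {n : ℕ} {g : G} (hg : g ∈ S.B n) : ∃ u : ℕ → G, S.IsPath u ∧ u n = g := by
  obtain ⟨u, h0, hn, h⟩ := S.path' hg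
  exact ⟨u, ⟨h0, h⟩, hn⟩

lemma exists_mul_split {m n : ℕ} {g : G} (hg : g ∈ S.B (m + n)) :
    ∃ a ∈ S.B m, ∃ b ∈ S.B n, g = a * b := by
  obtain ⟨u, hu, hun⟩ := S.exists_path hg
  refine ⟨u m, hu.mem m, (u m)⁻¹ * u (m + n), ?_, by rw [← hun]; group⟩
  have := hu.diff (Nat.le_add_right m n)
  rwa [Nat.add_sub_cancel_left] at this

lemma f_add_le (m n : ℕ) : S.f (m + n) ≤ S.f m * S.f n := by
  classical
  have : S.B (m + n) ⊆ (S.B m ×ˢ S.B n).image (fun p => p.1 * p.2) := by
    intro g hg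
    obtain ⟨a, ha, b, hb, rfl⟩ := S.exists_mul_split hg
    exact Finset.mem_image.mpr ⟨(a, b), Finset.mem_product.mpr ⟨ha, hb⟩, rfl⟩
  calc S.f (m + n) ≤ _ := Finset.card_le_card this
    _ ≤ _ := Finset.card_image_le
    _ = _ := Finset.card_product _ _

lemma f_mul_le (m n : ℕ) : S.f (m * n) ≤ S.f n ^ m := by
  induction m with
  | zero =>
    have : S.f (0 * n) ≤ S.f 0 * S.f 0 → True := fun _ => trivial
    have h0 : S.B 0 ⊆ {1} := by
      intro g hg
      obtain ⟨u, hu, hun⟩ := S.exists_path hg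
      rw [Finset.mem_singleton, ← hun, hu.zero]
    rw [zero_mul, pow_zero]
    calc S.f 0 ≤ _ := Finset.card_le_card h0
      _ = 1 := Finset.card_singleton _
  | succ m ih =>
    rw [add_mul, one_mul, pow_succ]
    exact (S.f_add_le _ _).trans (Nat.mul_le_mul_right _ ih)

lemma exists_ball_of_finset (T : Finset G) : ∃ n, T ⊆ S.B n := by
  classical
  induction T using Finset.induction_on with
  | empty => exact ⟨0, by simp⟩
  | insert a T _ ih =>
    obtain ⟨n, hn⟩ := ih
    obtain ⟨m, hm⟩ := S.exh' a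
    refine ⟨max m n, ?_⟩
    intro x hx
    rcases Finset.mem_insert.mp hx with rfl | h
    · exact S.mono' (le_max_left _ _) hm
    · exact S.mono' (le_max_right _ _) (hn h)

/-- word length -/
noncomputable def wl (g : G) : ℕ := by
  classical exact Nat.find (S.exh' g)

lemma mem_wl (g : G) : g ∈ S.B (S.wl g) := by
  classical
  unfold wl
  exact Nat.find_spec (S.exh' g)

lemma wl_le {g : G} {n : ℕ} (h : g ∈ S.B n) : S.wl g ≤ n := by
  classical
  unfold wl
  exact Nat.find_min' _ h

lemma mem_iff_wl {g : G} {n : ℕ} : g ∈ S.B n ↔ S.wl g ≤ n :=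
  ⟨S.wl_le, fun h => S.mono' h (S.mem_wl g)⟩

end BallSys

end Pool.Agent.MPd0e86e
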