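import Pool.Agent.Lib.MP_d0e86e_al.Common

/-!
# The case of exponential growth
-/

namespace Pool.Agent.MPd0e86e

universe u

variable {G : Type u} [Group G]

open Classical in
lemma comm_count (Z : Subgroup G) (hZ : ∀ x ∈ Z, ∀ y ∈ Z, x * y = y * x) (T : Finset G) :
    (∀ t ∈ T, t ∈ Z) → ∃ E : ℕ → Finset G, (∀ L, ∀ e ∈ E L, e ∈ Z) ∧ 1 ∈ E 0 ∧
      (∀ L, E L ⊆ E (L + 1)) ∧ (∀ L, ∀ e ∈ E L, ∀ t ∈ T, e * t ∈ E (L + 1)) ∧
      ∀ L, (E L).card ≤ (L + 1) ^ T.card := by
  induction T using Finset.induction_on with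
  | empty =>
    intro _
    exact ⟨fun _ => {1}, by simp, by simp, by simp, by simp, by simp⟩
  | insert t T ht ih =>
    intro hT
    obtain ⟨E, h1, h2, h3, h4, h5⟩ := ih (fun s hs => hT s (Finset.mem_insert_of_mem hs))
    have htZ : t ∈ Z := hT t (Finset.mem_insert_self _ _)
    refine ⟨fun L => (E L ×ˢ Finset.range (L + 1)).image (fun q => q.1 * t ^ q.2),
      ?_, ?_, ?_, ?_, ?_⟩
    · intro L e he
      rw [Finset.mem_image] at he
      obtain ⟨⟨a, i⟩, ha, rfl⟩ := he
      rw [Finset.mem_product] at ha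
      exact mul_mem (h1 L a ha.1) (pow_mem htZ i)
    · rw [Finset.mem_image]
      exact ⟨(1, 0), by simp [h2], by simp⟩
    · intro L e he
      rw [Finset.mem_image] at he ⊢
      obtain ⟨⟨a, i⟩, ha, rfl⟩ := he
      rw [Finset.mem_product, Finset.mem_range] at ha
      refine ⟨(a, i), ?_, rfl⟩
      rw [Finset.mem_product, Finset.mem_range]
      exact ⟨h3 L ha.1, by have := ha.2; simp only at this ⊢; omega⟩
    · intro L e he t' ht'
      rw [Finset.mem_image] at he ⊢
      obtain ⟨⟨a, i⟩, ha, rfl⟩ := he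
      rw [Finset.mem_product, Finset.mem_range] at ha
      rw [Finset.mem_insert] at ht'
      rcases ht' with rfl | ht'
      · refine ⟨(a, i + 1), ?_, by simp only [pow_succ, mul_assoc]⟩
        rw [Finset.mem_product, Finset.mem_range]
        exact ⟨h3 L ha.1, by have := ha.2; simp only at this ⊢; omega⟩
      · refine ⟨(a * t', i), ?_, ?_⟩
        · rw [Finset.mem_product, Finset.mem_range]
          exact ⟨h4 L a ha.1 t' ht', by have := ha.2; simp only at this ⊢; omega⟩
        · simp only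
          have : t' * t ^ i = t ^ i * t' :=
            hZ _ (hT t' (Finset.mem_insert_of_mem ht')) _ (pow_mem htZ i)
          rw [mul_assoc, this, mul_assoc]
    · intro L
      refine Finset.card_image_le.trans ?_
      rw [Finset.card_product, Finset.card_range, Finset.card_insert_of_notMem ht, pow_succ]
      exact Nat.mul_le_mul_right _ (h5 L)

open Classical in
/-- Products of `L` elements, all but at most `N` of them in `R`, the others in `Bd`. -/
noncomputable def QQ (R Bd : Finset G) : ℕ → ℕ → Finset G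
  | 0, _ => {1}
  | L + 1, 0 => (QQ R Bd L 0 ×ˢ R).image (fun q => q.1 * q.2)
  | L + 1, N + 1 => (QQ R Bd L (N + 1) ×ˢ R).image (fun q => q.1 * q.2) ∪
      (QQ R Bd L N ×ˢ Bd).image (fun q => q.1 * q.2)

lemma QQ_mono (R Bd : Finset G) (L : ℕ) : ∀ N, QQ R Bd L N ⊆ QQ R Bd L (N + 1) := by
  classical
  induction L with
  | zero => intro N; simp [QQ]
  | succ L ih =>
    intro N
    cases N with
    | zero =>
      intro x hx
      simp only [QQ] at hx ⊢
      rw [Finset.mem_union]
      left
      rw [Finset.mem_image] at hx ⊢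
      obtain ⟨q, hq, rfl⟩ := hx
      rw [Finset.mem_product] at hq
      exact ⟨q, Finset.mem_product.mpr ⟨ih 0 hq.1, hq.2⟩, rfl⟩
    | succ N =>
      intro x hx
      simp only [QQ] at hx ⊢
      rw [Finset.mem_union] at hx ⊢
      rcases hx with hx | hx
      · left
        rw [Finset.mem_image] at hx ⊢
        obtain ⟨q, hq, rfl⟩ := hx
        rw [Finset.mem_product] at hq
        exact ⟨q, Finset.mem_product.mpr ⟨ih _ hq.1, hq.2⟩, rfl⟩
      · right
        rw [Finset.mem_image] at hx ⊢
        obtain ⟨q, hq, rfl⟩ := hx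
        rw [Finset.mem_product] at hq
        exact ⟨q, Finset.mem_product.mpr ⟨ih _ hq.1, hq.2⟩, rfl⟩

lemma QQ_mono' (R Bd : Finset G) (L : ℕ) {N N' : ℕ} (h : N ≤ N') :
    QQ R Bd L N ⊆ QQ R Bd L N' := by
  induction N', h using Nat.le_induction with
  | base => exact Finset.Subset.refl _
  | succ N' _ ih => exact ih.trans (QQ_mono R Bd L N')

lemma QQ_R (R Bd : Finset G) (L N : ℕ) {q r : G} (hq : q ∈ QQ R Bd L N) (hr : r ∈ R) :
    q * r ∈ QQ R Bd (L + 1) N := by
  classical
  cases N with
  | zero =>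
    simp only [QQ]
    rw [Finset.mem_image]
    exact ⟨(q, r), Finset.mem_product.mpr ⟨hq, hr⟩, rfl⟩
  | succ N =>
    simp only [QQ]
    rw [Finset.mem_union]
    left
    rw [Finset.mem_image]
    exact ⟨(q, r), Finset.mem_product.mpr ⟨hq, hr⟩, rfl⟩

lemma QQ_B (R Bd : Finset G) (L N : ℕ) {q r : G} (hq : q ∈ QQ R Bd L N) (hr : r ∈ Bd) :
    q * r ∈ QQ R Bd (L + 1) (N + 1) := by
  classical
  simp only [QQ]
  rw [Finset.mem_union]
  right
  rw [Finset.mem_image]
  exact ⟨(q, r), Finset.mem_product.mpr ⟨hq, hr⟩, rfl⟩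

lemma QQ_card (R Bd : Finset G) {r b : ℕ} (hr : R.card ≤ r) (hr1 : 1 ≤ r) (hb : Bd.card ≤ b)
    (hb1 : 1 ≤ b) (L : ℕ) : ∀ N, (QQ R Bd L N).card ≤ r ^ L * (L + 1) ^ N * b ^ N := by
  classical
  induction L with
  | zero =>
    intro N
    simp only [QQ, Finset.card_singleton, pow_zero, one_mul, zero_add, one_pow]
    exact Nat.one_le_pow _ _ hb1
  | succ L ih =>
    intro N
    cases N with
    | zero =>
      simp only [QQ, pow_zero, mul_one]
      refine Finset.card_image_le.trans ?_
      rw [Finset.card_product, pow_succ]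
      have := ih 0
      simp only [pow_zero, mul_one] at this
      exact Nat.mul_le_mul this hr
    | succ N =>
      simp only [QQ]
      refine (Finset.card_union_le _ _).trans ?_
      have h1 : ((QQ R Bd L (N + 1) ×ˢ R).image (fun q => q.1 * q.2)).card ≤
          r ^ L * (L + 1) ^ (N + 1) * b ^ (N + 1) * r := by
        refine Finset.card_image_le.trans ?_
        rw [Finset.card_product]
        exact Nat.mul_le_mul (ih (N + 1)) hr
      have h2 : ((QQ R Bd L N ×ˢ Bd).image (fun q => q.1 * q.2)).card ≤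
          r ^ L * (L + 1) ^ N * b ^ N * b := by
        refine Finset.card_image_le.trans ?_
        rw [Finset.card_product]
        exact Nat.mul_le_mul (ih N) hb
      have h3 : r ^ L * (L + 1) ^ N * b ^ N * b ≤ r ^ L * (L + 1) ^ N * b ^ N * b * r :=
        Nat.le_mul_of_pos_right _ hr1
      calc _ ≤ r ^ L * (L + 1) ^ (N + 1) * b ^ (N + 1) * r +
            r ^ L * (L + 1) ^ N * b ^ N * b * r := add_le_add h1 (h2.trans h3)
        _ = r ^ (L + 1) * ((L + 1) ^ N * (L + 2)) * b ^ (N + 1) := by ring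
        _ ≤ r ^ (L + 1) * (L + 1 + 1) ^ (N + 1) * b ^ (N + 1) := by
          apply Nat.mul_le_mul_right
          apply Nat.mul_le_mul_left
          rw [pow_succ]
          exact Nat.mul_le_mul (Nat.pow_le_pow_left (by omega) N) (by omega)

variable {S : BallSys G} {H : Subgroup G} {M n : ℕ}

/-- the block of window `s` -/
def eta (w p : ℕ → G) (k s : ℕ) : G :=
  p (s * k) * ((w (s * k))⁻¹ * w (s * k + k)) * (p (s * k + k))⁻¹

open Classical in
/-- The blocks decomposition. -/
lemma decomp {g : G} {w p : ℕ → G} (hC : Cert S H M n g w p) (k m : ℕ)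
    (R Bd : Finset G) (Sg : Finset G) (hSg : ∀ z ∈ Sg, z ∈ ZZ H)
    (hBd : ∀ s < n / k, eta w p k s ∈ Bd)
    (hR : ∀ s < n / k, s ∉ InfW w p n k m k → ∃ r ∈ R, ∃ z ∈ Sg, eta w p k s = r * z)
    (E : ℕ → Finset G) (hE1 : ∀ L, ∀ e ∈ E L, e ∈ ZZ H) (hE2 : 1 ∈ E 0)
    (hE3 : ∀ L, E L ⊆ E (L + 1)) (hE4 : ∀ L, ∀ e ∈ E L, ∀ t ∈ Sg, e * t ∈ E (L + 1)) :
    ∀ s ≤ n / k, ∃ q ∈ QQ R Bd s ((InfW w p n k m k).filter (· < s)).card, ∃ e ∈ E s,
      w (s * k) * (p (s * k))⁻¹ = q * e := by
  intro s
  induction s with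
  | zero =>
    intro _
    refine ⟨1, by simp [QQ], 1, hE2, ?_⟩
    simp [hC.path.zero, hC.p0]
  | succ s ih =>
    intro hs
    obtain ⟨q, hq, e, he, heq⟩ := ih (by omega)
    have hs' : s < n / k := by omega
    have hle := win_le hs'
    have hsk : (s + 1) * k = s * k + k := by rw [add_mul, one_mul]
    have hh0 := hC.wp (s * k) (by omega)
    have hh1 := hC.wp (s * k + k) (by omega)
    have hηH : eta w p k s ∈ H := by
      have := mul_mem (inv_mem hh0) hh1
      have e1 : (w (s * k) * (p (s * k))⁻¹)⁻¹ * (w (s * k + k) * (p (s * k + k))⁻¹) =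
          eta w p k s := by unfold eta; group
      rwa [e1] at this
    have hstep : w ((s + 1) * k) * (p ((s + 1) * k))⁻¹ = q * eta w p k s * e := by
      have e2 : w ((s + 1) * k) * (p ((s + 1) * k))⁻¹ =
          (w (s * k) * (p (s * k))⁻¹) * eta w p k s := by
        rw [hsk]; unfold eta; group
      rw [e2, heq, mul_assoc, ZZ_comm (hE1 s e he) hηH, mul_assoc]
    by_cases hinf : s ∈ InfW w p n k m k
    · have hc : ((InfW w p n k m k).filter (· < s + 1)).card =
          ((InfW w p n k m k).filter (· < s)).card + 1 := by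
        have : (InfW w p n k m k).filter (· < s + 1) =
            insert s ((InfW w p n k m k).filter (· < s)) := by
          ext x
          rw [Finset.mem_insert, Finset.mem_filter, Finset.mem_filter]
          constructor
          · rintro ⟨h1, h2⟩
            by_cases hx : x = s
            · exact Or.inl hx
            · exact Or.inr ⟨h1, by omega⟩
          · rintro (rfl | ⟨h1, h2⟩)
            · exact ⟨hinf, by omega⟩
            · exact ⟨h1, by omega⟩
        rw [this, Finset.card_insert_of_notMem]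
        rw [Finset.mem_filter]
        omega
      rw [hc]
      exact ⟨q * eta w p k s, QQ_B R Bd s _ hq (hBd s hs'), e, hE3 s he, hstep⟩
    · obtain ⟨r, hr, z, hz, hrz⟩ := hR s hs' hinf
      refine ⟨q * r, ?_, e * z, hE4 s e he z hz, ?_⟩
      · refine QQ_mono' R Bd (s + 1) (Finset.card_le_card ?_) (QQ_R R Bd s _ hq hr)
        intro x hx
        rw [Finset.mem_filter] at hx ⊢
        exact ⟨hx.1, by omega⟩
      · rw [hstep, hrz, mul_assoc, mul_assoc, mul_assoc,
          ZZ_comm (hSg z hz) (ZZ_le H (hE1 s e he))]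

end Pool.Agent.MPd0e86e
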