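import Pool.Agent.Lib.MP_d0e86e_al.Exp

/-!
# The case of exponential growth: counting
-/

namespace Pool.Agent.MPd0e86e

universe u

lemma exists_reps {α : Type u} (rel : α → α → Prop) (hrefl : ∀ a, rel a a)
    (hsymm : ∀ a b, rel a b → rel b a) (Y : Finset α) : ∃ I ⊆ Y,
    (∀ a ∈ I, ∀ b ∈ I, rel a b → a = b) ∧ ∀ a ∈ Y, ∃ b ∈ I, rel a b := by
  classical
  induction Y using Finset.induction_on with
  | empty => exact ⟨∅, by simp, by simp, by simp⟩
  | insert a0 Y _ ih =>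
    obtain ⟨I, hI, h1, h2⟩ := ih
    by_cases h : ∃ b ∈ I, rel a0 b
    · refine ⟨I, hI.trans (Finset.subset_insert _ _), h1, ?_⟩
      intro a ha
      rcases Finset.mem_insert.mp ha with rfl | ha
      · exact h
      · exact h2 a ha
    · push Not at h
      refine ⟨insert a0 I, Finset.insert_subset_insert _ hI, ?_, ?_⟩
      · intro a ha b hb hab
        rcases Finset.mem_insert.mp ha with ha0 | ha1
        · rcases Finset.mem_insert.mp hb with hb0 | hb1
          · rw [ha0, hb0]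
          · exact (h b hb1 (ha0 ▸ hab)).elim
        · rcases Finset.mem_insert.mp hb with hb0 | hb1
          · exact (h a ha1 (hsymm _ _ (hb0 ▸ hab))).elim
          · exact h1 a ha1 b hb1 hab
      · intro a ha
        rcases Finset.mem_insert.mp ha with rfl | ha
        · exact ⟨a, Finset.mem_insert_self _ _, hrefl a⟩
        · obtain ⟨b, hb, hab⟩ := h2 a ha
          exact ⟨b, Finset.mem_insert_of_mem hb, hab⟩

variable {G : Type u} [Group G]

variable {S : BallSys G} {H : Subgroup G} {M n : ℕ}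

/-- the labelled word of the full window `s` -/
def tau (w p : ℕ → G) (k s : ℕ) : G × G × G :=
  (p (s * k), (w (s * k))⁻¹ * w (s * k + k), p (s * k + k))

/-- same class -/
def relH (H : Subgroup G) (τ τ' : G × G × G) : Prop :=
  τ.1 = τ'.1 ∧ τ.2.2 = τ'.2.2 ∧ τ.2.2 * τ.2.1⁻¹ * τ'.2.1 * τ.2.2⁻¹ ∈ ZZ H

lemma relH_refl (τ : G × G × G) : relH H τ τ := by
  refine ⟨rfl, rfl, ?_⟩
  have : τ.2.2 * τ.2.1⁻¹ * τ.2.1 * τ.2.2⁻¹ = 1 := by group
  rw [this]
  exact one_mem _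

lemma relH_symm (τ τ' : G × G × G) (h : relH H τ τ') : relH H τ' τ := by
  obtain ⟨h1, h2, h3⟩ := h
  refine ⟨h1.symm, h2.symm, ?_⟩
  rw [← h2]
  have := inv_mem h3
  have e : (τ.2.2 * τ.2.1⁻¹ * τ'.2.1 * τ.2.2⁻¹)⁻¹ = τ.2.2 * τ'.2.1⁻¹ * τ.2.1 * τ.2.2⁻¹ := by group
  rwa [e] at this

open Classical in
/-- The frequent full blocks of `g` have few classes, on average. -/
lemma exp_reps (𝒢 : Finset G) (W P : G → ℕ → G)
    (hC : ∀ g ∈ 𝒢, Cert S H M n g (W g) (P g)) (k m : ℕ)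
    (hgood : ∀ g ∈ 𝒢, GoodEl S H M n k m g (W g) (P g)) :
    ∃ I : G → Finset (G × G × G),
      (∀ g ∈ 𝒢, ∀ τ ∈ I g, τ.1 ∈ S.B M ∧ τ.2.1 ∈ S.B k ∧ τ.2.2 ∈ S.B M ∧
        τ.1 * τ.2.1 * τ.2.2⁻¹ ∈ H) ∧
      (∀ g ∈ 𝒢, ∀ s < n / k, s ∉ InfW (W g) (P g) n k m k →
        ∃ τ ∈ I g, relH H (tau (W g) (P g) k s) τ) ∧
      ∑ g ∈ 𝒢, ((I g).card : ℝ) ≤ (S.f M : ℝ) ^ 2 * S.f n * (1 + Real.log (S.f k : ℝ)) := by
  set Y : G → Finset (G × G × G) := fun g =>
    ((Finset.range (n / k)) \ InfW (W g) (P g) n k m k).image (fun s => tau (W g) (P g) k s) with hY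
  choose I hI1 hI2 hI3 using fun g => exists_reps (relH H) relH_refl relH_symm (Y g)
  have hYmem : ∀ g ∈ 𝒢, ∀ τ ∈ Y g, ∃ s < n / k, s ∉ InfW (W g) (P g) n k m k ∧
      τ = tau (W g) (P g) k s := by
    intro g _ τ hτ
    rw [hY, Finset.mem_image] at hτ
    obtain ⟨s, hs, rfl⟩ := hτ
    rw [Finset.mem_sdiff, Finset.mem_range] at hs
    exact ⟨s, hs.1, hs.2, rfl⟩
  have hprop : ∀ g ∈ 𝒢, ∀ τ ∈ I g, τ.1 ∈ S.B M ∧ τ.2.1 ∈ S.B k ∧ τ.2.2 ∈ S.B M ∧
        τ.1 * τ.2.1 * τ.2.2⁻¹ ∈ H := by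
    intro g hg τ hτ
    obtain ⟨s, hs, -, rfl⟩ := hYmem g hg τ (hI1 g hτ)
    have hc := hC g hg
    have hle := win_le hs
    have hsk : (s + 1) * k = s * k + k := by rw [add_mul, one_mul]
    refine ⟨hc.pM _ (by omega), ?_, hc.pM _ (by omega), ?_⟩
    · have := hc.path.diff (Nat.le_add_right (s * k) k)
      exact S.mono' (by omega) this
    · have h2 := hc.wp (s * k) (by omega)
      have h3 := hc.wp (s * k + k) (by omega)
      have := mul_mem (inv_mem h2) h3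
      have e : (W g (s * k) * (P g (s * k))⁻¹)⁻¹ *
          (W g (s * k + k) * (P g (s * k + k))⁻¹) =
          P g (s * k) * ((W g (s * k))⁻¹ * W g (s * k + k)) * (P g (s * k + k))⁻¹ := by
        group
      rw [e] at this
      exact this
  refine ⟨I, hprop, ?_, ?_⟩
  · intro g hg s hs hinf
    apply hI3 g
    rw [hY, Finset.mem_image]
    exact ⟨s, Finset.mem_sdiff.mpr ⟨Finset.mem_range.mpr hs, hinf⟩, rfl⟩
  · refine dc S H M k n 𝒢 I (fun g hg => (hC g hg).gZ) hprop ?_ ?_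
    · intro g hg τ hτ x' hx' hz
      obtain ⟨s, hs, hinf, rfl⟩ := hYmem g hg τ (hI1 g hτ)
      have hc := hC g hg
      have hle := win_le hs
      have hsk : (s + 1) * k = s * k + k := by rw [add_mul, one_mul]
      simp only [tau] at hx' hz ⊢
      have hxj : (W g (s * k))⁻¹ * W g (s * k + k) ∈ S.B k := by
        have := hc.path.diff (Nat.le_add_right (s * k) k)
        exact S.mono' (by omega) this
      refine hgood g hg _ (hc.pM _ (by omega)) _ (hc.pM _ (by omega)) _ hxj k le_rfl x'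
        (S.mono' (S.wl_le hxj) hx') hz ?_
      rw [InfW, Finset.mem_filter, Finset.mem_range] at hinf
      by_contra h6
      exact hinf ⟨hs, by omega⟩
    · intro g hg τ hτ τ' hτ' h1 h2 h3
      exact hI2 g τ hτ τ' hτ' ⟨h1, h2, h3⟩

open Classical in
/-- Counting elements with few classes of frequent full blocks. -/
lemma exp_count (𝒢 : Finset G) (W P : G → ℕ → G)
    (hC : ∀ g ∈ 𝒢, Cert S H M n g (W g) (P g)) (k m r : ℕ) (hk : 0 < k) (hr : 1 ≤ r)
    (I : G → Finset (G × G × G))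
    (hI1 : ∀ g ∈ 𝒢, ∀ τ ∈ I g, τ.1 ∈ S.B M ∧ τ.2.1 ∈ S.B k ∧ τ.2.2 ∈ S.B M ∧
        τ.1 * τ.2.1 * τ.2.2⁻¹ ∈ H)
    (hI2 : ∀ g ∈ 𝒢, ∀ s < n / k, s ∉ InfW (W g) (P g) n k m k →
        ∃ τ ∈ I g, relH H (tau (W g) (P g) k s) τ)
    (hI3 : ∀ g ∈ 𝒢, (I g).card ≤ r) :
    𝒢.card ≤ 2 ^ (S.f (2 * M + k)) * (r ^ (n / k) * (n / k + 1) ^ (S.f M * S.f k * S.f M * m) *
      (S.f (2 * M + k)) ^ (S.f M * S.f k * S.f M * m) *
      ((n / k + 1) ^ (S.f (2 * (2 * M + k))) * S.f (M + k))) := by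
  set Sg : Finset G := (S.B (2 * (2 * M + k))).filter (fun z => z ∈ ZZ H) with hSg
  obtain ⟨E, hE1, hE2, hE3, hE4, hE5⟩ := comm_count (ZZ H)
    (fun x hx y hy => ZZ_comm hx (ZZ_le H hy)) Sg (fun z hz => (Finset.mem_filter.mp hz).2)
  set Bd : Finset G := S.B (2 * M + k) with hBd
  set N0 := S.f M * S.f k * S.f M * m with hN0
  set L := n / k with hL
  set Tot : Finset G := ((S.B (2 * M + k)).powerset.filter (fun R => R.card ≤ r)).biUnion
    (fun R => (QQ R Bd L N0 ×ˢ (E L ×ˢ S.B (M + k))).image (fun q => q.1 * (q.2.1 * q.2.2)))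
    with hTot
  have hsub : 𝒢 ⊆ Tot := by
    intro g hg
    have hc := hC g hg
    set R : Finset G := (I g).image (fun τ => τ.1 * τ.2.1 * τ.2.2⁻¹) with hR
    have hRmem : R ∈ (S.B (2 * M + k)).powerset.filter (fun R => R.card ≤ r) := by
      rw [Finset.mem_filter, Finset.mem_powerset]
      refine ⟨?_, Finset.card_image_le.trans (hI3 g hg)⟩
      intro x hx
      rw [hR, Finset.mem_image] at hx
      obtain ⟨τ, hτ, rfl⟩ := hx
      obtain ⟨a1, a2, a3, -⟩ := hI1 g hg τ hτ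
      exact S.mul_mem_of_le (S.mul_mem a1 a2) (S.inv_mem a3) (by omega)
    have hηB : ∀ s < n / k, eta (W g) (P g) k s ∈ Bd := by
      intro s hs
      have hle := win_le hs
      have hsk : (s + 1) * k = s * k + k := by rw [add_mul, one_mul]
      have h1 := hc.path.diff (Nat.le_add_right (s * k) k)
      exact S.mul_mem_of_le (S.mul_mem (hc.pM (s * k) (by omega)) h1)
        (S.inv_mem (hc.pM (s * k + k) (by omega))) (by omega)
    obtain ⟨q, hq, e, he, hqe⟩ := decomp hc k m R Bd Sg (fun z hz => (Finset.mem_filter.mp hz).2)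
      hηB (by
        intro s hs hinf
        obtain ⟨τ, hτ, h1, h2, h3⟩ := hI2 g hg s hs hinf
        obtain ⟨a1, a2, a3, a4⟩ := hI1 g hg τ hτ
        have hle := win_le hs
        have hsk : (s + 1) * k = s * k + k := by rw [add_mul, one_mul]
        simp only [tau] at h1 h2 h3
        have hηH : eta (W g) (P g) k s ∈ H := by
          have := mul_mem (inv_mem (hc.wp (s * k) (by omega))) (hc.wp (s * k + k) (by omega))
          have e1 : (W g (s * k) * (P g (s * k))⁻¹)⁻¹ *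
              (W g (s * k + k) * (P g (s * k + k))⁻¹) = eta (W g) (P g) k s := by
            unfold eta; group
          rwa [e1] at this
        refine ⟨τ.1 * τ.2.1 * τ.2.2⁻¹, Finset.mem_image_of_mem _ hτ,
          (τ.1 * τ.2.1 * τ.2.2⁻¹)⁻¹ * eta (W g) (P g) k s, ?_, by group⟩
        rw [hSg, Finset.mem_filter]
        constructor
        · refine S.mul_mem_of_le (S.inv_mem (S.mul_mem (S.mul_mem a1 a2) (S.inv_mem a3)))
            (hηB s hs) (by omega)
        · have e2 : (τ.1 * τ.2.1 * τ.2.2⁻¹)⁻¹ * eta (W g) (P g) k s =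
              (P g (s * k + k) * ((W g (s * k))⁻¹ * W g (s * k + k))⁻¹ * τ.2.1 *
                (P g (s * k + k))⁻¹)⁻¹ := by
            rw [← h1, ← h2]; unfold eta; group
          rw [e2]
          exact inv_mem h3) E hE1 hE2 hE3 hE4 (n / k) le_rfl
    rw [hTot, Finset.mem_biUnion]
    refine ⟨R, hRmem, ?_⟩
    rw [Finset.mem_image]
    have hLk : n / k * k ≤ n := Nat.div_mul_le_self n k
    have hlt : n < n / k * k + k := Nat.lt_div_mul_add hk
    refine ⟨(q, e, P g (L * k) * ((W g (L * k))⁻¹ * W g n)), ?_, ?_⟩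
    · rw [Finset.mem_product, Finset.mem_product]
      refine ⟨?_, he, ?_⟩
      · refine QQ_mono' R Bd L ?_ hq
        exact (Finset.card_filter_le _ _).trans (infw_card hc le_rfl m)
      · exact S.mul_mem_of_le (hc.pM _ hLk) (hc.path.diff hLk) (by rw [← hL] at hlt; omega)
    · simp only
      rw [← mul_assoc, ← hqe, ← hc.wn]
      simp only [hL, hc.wn]
      group
  have hcard : ∀ R ∈ (S.B (2 * M + k)).powerset.filter (fun R => R.card ≤ r),
      ((QQ R Bd L N0 ×ˢ (E L ×ˢ S.B (M + k))).image (fun q => q.1 * (q.2.1 * q.2.2))).card ≤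
      r ^ L * (L + 1) ^ N0 * (S.f (2 * M + k)) ^ N0 *
        ((L + 1) ^ (S.f (2 * (2 * M + k))) * S.f (M + k)) := by
    intro R hR
    rw [Finset.mem_filter] at hR
    refine Finset.card_image_le.trans ?_
    rw [Finset.card_product, Finset.card_product]
    refine Nat.mul_le_mul (QQ_card R Bd hR.2 hr (le_refl _) (S.f_pos _) L N0) ?_
    refine Nat.mul_le_mul ?_ le_rfl
    refine (hE5 L).trans ?_
    exact Nat.pow_le_pow_right (Nat.succ_pos _) (Finset.card_filter_le _ _)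
  calc 𝒢.card ≤ Tot.card := Finset.card_le_card hsub
    _ ≤ _ := Finset.card_biUnion_le_card_mul _ _ _ hcard
    _ ≤ _ := by
      apply Nat.mul_le_mul_right
      refine (Finset.card_filter_le _ _).trans ?_
      rw [Finset.card_powerset]
      exact le_rfl

open Classical in
/-- The final inequality in the exponential case. -/
lemma exp_final (𝒢 : Finset G) (W P : G → ℕ → G)
    (hC : ∀ g ∈ 𝒢, Cert S H M n g (W g) (P g)) (k m r : ℕ) (hk : 0 < k) (hr : 1 ≤ r)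
    (c : ℝ) (hc : 0 < c) (h𝒢 : c * S.f n ≤ 𝒢.card)
    (hrk : 4 / c * (S.f M : ℝ) ^ 2 * (1 + Real.log (S.f k : ℝ)) ≤ r + 1)
    (hm : 4 / c * ((S.f M : ℝ) ^ 2 * (S.f k : ℝ) ^ 2 * (k + 1)) ≤ m + 1) :
    c / 2 * S.f n ≤ ((2 ^ (S.f (2 * M + k)) * (r ^ (n / k) *
      (n / k + 1) ^ (S.f M * S.f k * S.f M * m) *
      (S.f (2 * M + k)) ^ (S.f M * S.f k * S.f M * m) *
      ((n / k + 1) ^ (S.f (2 * (2 * M + k))) * S.f (M + k))) : ℕ) : ℝ) := by
  have hfn : (0 : ℝ) < S.f n := by exact_mod_cast S.f_pos n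
  set Bad := 𝒢.filter (fun g => ¬ GoodEl S H M n k m g (W g) (P g)) with hBad
  set 𝒢' := 𝒢.filter (fun g => GoodEl S H M n k m g (W g) (P g)) with h𝒢'
  have hsum1 : 𝒢'.card + Bad.card = 𝒢.card := Finset.card_filter_add_card_filter_not _
  have hbad := bad_total 𝒢 W P hC k m
  rw [← hBad] at hbad
  have hbadR : ((m : ℝ) + 1) * (Bad.card : ℝ) ≤
      ((S.f M : ℝ) ^ 2 * (S.f k : ℝ) ^ 2 * (k + 1)) * S.f n := by exact_mod_cast hbad
  have hm1 : (0 : ℝ) < (m : ℝ) + 1 := by positivity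
  have hbad2 : (Bad.card : ℝ) ≤ c / 4 * S.f n := by
    have h1 : ((m : ℝ) + 1) * (Bad.card : ℝ) ≤ ((m : ℝ) + 1) * (c / 4 * S.f n) := by
      refine hbadR.trans ?_
      have h2 : ((S.f M : ℝ) ^ 2 * (S.f k : ℝ) ^ 2 * (k + 1)) ≤ c / 4 * (m + 1) := by
        have h3 := mul_le_mul_of_nonneg_left hm (by positivity : (0 : ℝ) ≤ c / 4)
        have h4 : c / 4 * (4 / c * ((S.f M : ℝ) ^ 2 * (S.f k : ℝ) ^ 2 * (k + 1))) =
            ((S.f M : ℝ) ^ 2 * (S.f k : ℝ) ^ 2 * (k + 1)) := by field_simp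
        rwa [h4] at h3
      calc _ ≤ (c / 4 * (m + 1)) * (S.f n : ℝ) := mul_le_mul_of_nonneg_right h2 hfn.le
        _ = _ := by ring
    exact le_of_mul_le_mul_left h1 hm1
  obtain ⟨I, hI1, hI2, hI3⟩ := exp_reps 𝒢' W P (fun g hg => hC g (Finset.mem_filter.mp hg).1) k m
    (fun g hg => (Finset.mem_filter.mp hg).2)
  set 𝒢3 := 𝒢'.filter (fun g => (I g).card ≤ r) with h𝒢3
  set 𝒢4 := 𝒢'.filter (fun g => ¬ (I g).card ≤ r) with h𝒢4
  have hsum2 : 𝒢3.card + 𝒢4.card = 𝒢'.card := Finset.card_filter_add_card_filter_not _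
  have h4a : ((r : ℝ) + 1) * (𝒢4.card : ℝ) ≤ ∑ g ∈ 𝒢', ((I g).card : ℝ) := by
    calc ((r : ℝ) + 1) * (𝒢4.card : ℝ) = ∑ g ∈ 𝒢4, ((r : ℝ) + 1) := by
          rw [Finset.sum_const, nsmul_eq_mul, mul_comm]
      _ ≤ ∑ g ∈ 𝒢4, ((I g).card : ℝ) := by
          apply Finset.sum_le_sum
          intro g hg
          have := (Finset.mem_filter.mp hg).2
          have h2 : r + 1 ≤ (I g).card := by omega
          exact_mod_cast h2
      _ ≤ _ := Finset.sum_le_sum_of_subset_of_nonneg (Finset.filter_subset _ _)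
          (fun _ _ _ => by positivity)
  have hr1 : (0 : ℝ) < (r : ℝ) + 1 := by positivity
  have h4b : (𝒢4.card : ℝ) ≤ c / 4 * S.f n := by
    have h1 : ((r : ℝ) + 1) * (𝒢4.card : ℝ) ≤ ((r : ℝ) + 1) * (c / 4 * S.f n) := by
      refine h4a.trans (hI3.trans ?_)
      have h2 : (S.f M : ℝ) ^ 2 * (1 + Real.log (S.f k : ℝ)) ≤ c / 4 * (r + 1) := by
        have h3 := mul_le_mul_of_nonneg_left hrk (by positivity : (0 : ℝ) ≤ c / 4)
        have h4 : c / 4 * (4 / c * (S.f M : ℝ) ^ 2 * (1 + Real.log (S.f k : ℝ))) =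
            (S.f M : ℝ) ^ 2 * (1 + Real.log (S.f k : ℝ)) := by field_simp
        rwa [h4] at h3
      calc _ = ((S.f M : ℝ) ^ 2 * (1 + Real.log (S.f k : ℝ))) * S.f n := by ring
        _ ≤ (c / 4 * (r + 1)) * (S.f n : ℝ) := mul_le_mul_of_nonneg_right h2 hfn.le
        _ = _ := by ring
    exact le_of_mul_le_mul_left h1 hr1
  have h5 : c / 2 * S.f n ≤ (𝒢3.card : ℝ) := by
    have e1 : (𝒢'.card : ℝ) + Bad.card = 𝒢.card := by exact_mod_cast hsum1
    have e2 : (𝒢3.card : ℝ) + 𝒢4.card = 𝒢'.card := by exact_mod_cast hsum2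
    linarith
  refine h5.trans ?_
  have h6 := exp_count 𝒢3 W P
    (fun g hg => hC g (Finset.mem_filter.mp (Finset.mem_filter.mp hg).1).1) k m r hk hr I
    (fun g hg => hI1 g (Finset.mem_filter.mp hg).1)
    (fun g hg => hI2 g (Finset.mem_filter.mp hg).1)
    (fun g hg => (Finset.mem_filter.mp hg).2)
  exact_mod_cast h6

end Pool.Agent.MPd0e86e
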