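import Pool.Agent.Lib.MP_d0e86e_al.Sub
import Pool.Agent.Lib.MP_d0e86e_al.Exp2

/-!
# Groups that are not virtually abelian: the ratio tends to zero
-/

open Filter Topology

namespace Pool.Agent.MPd0e86e

universe u

variable {G : Type u} [Group G]

/-- The group is virtually abelian. -/
def VirtAb (G : Type u) [Group G] : Prop :=
  ∃ A : Subgroup G, A.FiniteIndex ∧ ∀ x ∈ A, ∀ y ∈ A, x * y = y * x

open Classical in
/-- The conjugacy classes meeting the ball of radius `n`. -/
noncomputable def CL (S : BallSys G) (n : ℕ) : Finset (ConjClasses G) :=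
  (S.B n).image ConjClasses.mk

open Classical in
/-- The elements of the ball with at most `M` conjugates in the ball. -/
noncomputable def Few (S : BallSys G) (M n : ℕ) : Finset G :=
  (S.B n).filter (fun g => ((S.B n).filter (fun h => IsConj g h)).card ≤ M)

lemma few_bound (S : BallSys G) (M n : ℕ) :
    (M + 1) * (CL S n).card ≤ (M + 1) * (Few S M n).card + S.f n := by
  classical
  set C1 := (Few S M n).image ConjClasses.mk with hC1
  set C2 := CL S n \ C1 with hC2
  have h1 : (CL S n).card ≤ C1.card + C2.card := by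
    have : CL S n ⊆ C1 ∪ C2 := by
      intro x hx
      rw [Finset.mem_union]
      by_cases h : x ∈ C1
      · exact Or.inl h
      · exact Or.inr (Finset.mem_sdiff.mpr ⟨hx, h⟩)
    exact (Finset.card_le_card this).trans (Finset.card_union_le _ _)
  have h2 : C1.card ≤ (Few S M n).card := Finset.card_image_le
  have h3 : (M + 1) * C2.card ≤ S.f n := by
    have hfib : ∀ c ∈ C2, M + 1 ≤ ((S.B n).filter (fun g => ConjClasses.mk g = c)).card := by
      intro c hc
      rw [hC2, Finset.mem_sdiff, CL, Finset.mem_image] at hc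
      obtain ⟨⟨g, hg, rfl⟩, hn⟩ := hc
      have hnf : g ∉ Few S M n := fun h => hn (Finset.mem_image_of_mem _ h)
      rw [Few, Finset.mem_filter] at hnf
      push Not at hnf
      have h4 := hnf hg
      have h5 : (S.B n).filter (fun h => IsConj g h) =
          (S.B n).filter (fun h => ConjClasses.mk h = ConjClasses.mk g) := by
        apply Finset.filter_congr
        intro h _
        rw [ConjClasses.mk_eq_mk_iff_isConj]
        exact isConj_comm
      rw [h5] at h4
      exact h4
    calc (M + 1) * C2.card = ∑ c ∈ C2, (M + 1) := by rw [Finset.sum_const, smul_eq_mul, mul_comm]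
      _ ≤ ∑ c ∈ C2, ((S.B n).filter (fun g => ConjClasses.mk g = c)).card :=
          Finset.sum_le_sum hfib
      _ = (C2.biUnion (fun c => (S.B n).filter (fun g => ConjClasses.mk g = c))).card := by
          rw [Finset.card_biUnion]
          intro c _ c' _ hcc
          rw [Function.onFun, Finset.disjoint_left]
          intro g hg hg'
          rw [Finset.mem_filter] at hg hg'
          exact hcc (hg.2.symm.trans hg'.2)
      _ ≤ (S.B n).card := by
          apply Finset.card_le_card
          intro g hg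
          rw [Finset.mem_biUnion] at hg
          obtain ⟨c, _, hg⟩ := hg
          exact (Finset.mem_filter.mp hg).1
  calc (M + 1) * (CL S n).card ≤ (M + 1) * (C1.card + C2.card) := Nat.mul_le_mul_left _ h1
    _ = (M + 1) * C1.card + (M + 1) * C2.card := by ring
    _ ≤ _ := add_le_add (Nat.mul_le_mul_left _ h2) h3

open Classical in
/-- Elements of a given type. -/
noncomputable def Typ (S : BallSys G) (M n : ℕ) (K : Finset G) : Finset G :=
  (Few S M n).filter (fun g => KK S M g = K)

lemma typ_cert (S : BallSys G) (M n : ℕ) (K : Finset G) :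
    ∃ W P : G → ℕ → G, ∀ g ∈ Typ S M n K,
      Cert S (Subgroup.closure (K : Set G)) M n g (W g) (P g) := by
  classical
  have : ∀ g ∈ Typ S M n K, ∃ w p : ℕ → G,
      Cert S (Subgroup.closure (K : Set G)) M n g w p := by
    intro g hg
    rw [Typ, Finset.mem_filter, Few, Finset.mem_filter] at hg
    obtain ⟨⟨hg1, hg2⟩, hg3⟩ := hg
    obtain ⟨w, p, h1, h2, h3, h4, h5, h6⟩ := step1 hg1 hg2
    have h7 := mem_ZZ_of_KK h6
    rw [hg3] at h5 h7
    exact ⟨w, p, h1, h2, h3, h4, h5, h7⟩
  choose! W P h using this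
  exact ⟨W, P, h⟩

lemma typ_pigeon (S : BallSys G) (M n : ℕ) :
    ∃ K ∈ (S.B (2 * M + 1)).powerset,
      (Few S M n).card ≤ 2 ^ (S.f (2 * M + 1)) * (Typ S M n K).card := by
  classical
  by_contra hcon
  push Not at hcon
  have h1 : (Few S M n).card = ∑ K ∈ (S.B (2 * M + 1)).powerset, (Typ S M n K).card := by
    apply Finset.card_eq_sum_card_fiberwise
    intro g _
    rw [Finset.mem_coe, Finset.mem_powerset]
    exact Finset.filter_subset _ _
  have hpc : (S.B (2 * M + 1)).powerset.card = 2 ^ (S.f (2 * M + 1)) := Finset.card_powerset _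
  have hne : ((S.B (2 * M + 1)).powerset).Nonempty := ⟨∅, Finset.empty_mem_powerset _⟩
  have h2 : 2 ^ (S.f (2 * M + 1)) * (Few S M n).card =
      ∑ K ∈ (S.B (2 * M + 1)).powerset, 2 ^ (S.f (2 * M + 1)) * (Typ S M n K).card := by
    rw [← Finset.mul_sum, ← h1]
  have h3 : ∑ K ∈ (S.B (2 * M + 1)).powerset, 2 ^ (S.f (2 * M + 1)) * (Typ S M n K).card <
      ∑ K ∈ (S.B (2 * M + 1)).powerset, (Few S M n).card :=
    Finset.sum_lt_sum_of_nonempty hne hcon
  rw [Finset.sum_const, smul_eq_mul, hpc, ← h2] at h3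
  exact lt_irrefl _ h3

/-- Reduction to one type. -/
lemma exists_type (S : BallSys G) (c : ℝ) (hc : 0 < c)
    (h : ∃ᶠ n in atTop, c * S.f n ≤ ((CL S n).card : ℝ)) :
    ∃ (M : ℕ) (K : Finset G) (c' : ℝ), 0 < c' ∧
      ∃ᶠ n in atTop, c' * S.f n ≤ ((Typ S M n K).card : ℝ) := by
  obtain ⟨M, hM⟩ := exists_nat_gt (2 / c)
  set c' : ℝ := c / 2 / 2 ^ (S.f (2 * M + 1)) with hc'
  have hc'pos : 0 < c' := by positivity
  refine ⟨M, ?_⟩
  have h1 : ∀ n, c * S.f n ≤ ((CL S n).card : ℝ) →
      ∃ K ∈ (S.B (2 * M + 1)).powerset, c' * S.f n ≤ ((Typ S M n K).card : ℝ) := by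
    intro n hn
    obtain ⟨K, hK, hKc⟩ := typ_pigeon S M n
    refine ⟨K, hK, ?_⟩
    have hb := few_bound S M n
    have hbR : ((M : ℝ) + 1) * ((CL S n).card : ℝ) ≤
        ((M : ℝ) + 1) * ((Few S M n).card : ℝ) + S.f n := by exact_mod_cast hb
    have hM1 : (0 : ℝ) < (M : ℝ) + 1 := by positivity
    have hfn : (0 : ℝ) < S.f n := by exact_mod_cast S.f_pos n
    have hMc : 1 ≤ c / 2 * ((M : ℝ) + 1) := by
      have h2 : 2 / c < (M : ℝ) + 1 := by linarith
      have h3 : c / 2 * (2 / c) < c / 2 * ((M : ℝ) + 1) := mul_lt_mul_of_pos_left h2 (by positivity)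
      have h4 : c / 2 * (2 / c) = 1 := by field_simp
      linarith
    have h2 : c / 2 * S.f n ≤ ((Few S M n).card : ℝ) := by
      have h3 : ((M : ℝ) + 1) * (c / 2 * S.f n) ≤ ((M : ℝ) + 1) * ((Few S M n).card : ℝ) := by
        have h4 : ((M : ℝ) + 1) * (c * S.f n) ≤ ((M : ℝ) + 1) * ((CL S n).card : ℝ) :=
          mul_le_mul_of_nonneg_left hn hM1.le
        have h5 : (S.f n : ℝ) ≤ (c / 2 * ((M : ℝ) + 1)) * S.f n := by
          have := mul_le_mul_of_nonneg_right hMc hfn.le
          linarith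
        have h6 : ((M : ℝ) + 1) * (c / 2 * S.f n) =
            ((M : ℝ) + 1) * (c * S.f n) - (c / 2 * ((M : ℝ) + 1)) * S.f n := by ring
        linarith
      exact le_of_mul_le_mul_left h3 hM1
    have h7 : ((Few S M n).card : ℝ) ≤ 2 ^ (S.f (2 * M + 1)) * ((Typ S M n K).card : ℝ) := by
      exact_mod_cast hKc
    have h8 : (0 : ℝ) < 2 ^ (S.f (2 * M + 1)) := by positivity
    have h9 : c' * S.f n = (c / 2 * S.f n) / 2 ^ (S.f (2 * M + 1)) := by
      rw [hc']; ring
    rw [h9, div_le_iff₀ h8]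
    linarith
  by_contra hcon
  push Not at hcon
  have h2 : ∀ K ∈ (S.B (2 * M + 1)).powerset,
      ∀ᶠ n in atTop, ¬ c' * S.f n ≤ ((Typ S M n K).card : ℝ) := by
    intro K _
    exact (hcon K c' hc'pos).mono (fun n hn => not_le.mpr hn)
  have h3 := (Filter.eventually_all_finset (S.B (2 * M + 1)).powerset).mpr h2
  refine (h.and_eventually h3).exists.elim ?_
  rintro n ⟨hn1, hn2⟩
  obtain ⟨K, hK, hK'⟩ := h1 n hn1
  exact hn2 K hK hK'

end Pool.Agent.MPd0e86e
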