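import Pool.Agent.Lib.MP_d0e86e_al.GoalA

/-!
# Groups that are not virtually abelian: the ratio tends to zero (conclusion)
-/

open Filter Topology

namespace Pool.Agent.MPd0e86e

universe u

variable {G : Type u} [Group G]

lemma log_f_mul_le (S : BallSys G) (q n : ℕ) :
    Real.log (S.f (q * n) : ℝ) ≤ q * Real.log (S.f n : ℝ) := by
  have h1 : (S.f (q * n) : ℝ) ≤ (S.f n : ℝ) ^ q := by exact_mod_cast S.f_mul_le q n
  have h2 : (0 : ℝ) < S.f (q * n) := by exact_mod_cast S.f_pos _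
  have h3 := Real.log_le_log h2 h1
  rwa [Real.log_pow] at h3

/-- Many elements in different cosets of a subgroup of infinite index. -/
lemma exists_transversal (Z : Subgroup G) (hZ : ¬ Z.FiniteIndex) (N : ℕ) :
    ∃ T : Finset G, T.card = N ∧ ∀ h ∈ T, ∀ h' ∈ T, h⁻¹ * h' ∈ Z → h = h' := by
  classical
  have hinf : Infinite (G ⧸ Z) := by
    by_contra hfin
    rw [not_infinite_iff_finite] at hfin
    exact hZ (Subgroup.finiteIndex_of_finite_quotient)
  obtain ⟨s, hs⟩ := Infinite.exists_subset_card_eq (G ⧸ Z) N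
  refine ⟨s.image Quotient.out, ?_, ?_⟩
  · rw [Finset.card_image_of_injective _ Quotient.out_injective, hs]
  · intro h hh h' hh' hz
    rw [Finset.mem_image] at hh hh'
    obtain ⟨a, _, rfl⟩ := hh
    obtain ⟨b, _, rfl⟩ := hh'
    have : (QuotientGroup.mk (Quotient.out a) : G ⧸ Z) = QuotientGroup.mk (Quotient.out b) :=
      QuotientGroup.eq.mpr hz
    have ha : (QuotientGroup.mk (Quotient.out a) : G ⧸ Z) = a := Quotient.out_eq' a
    have hb : (QuotientGroup.mk (Quotient.out b) : G ⧸ Z) = b := Quotient.out_eq' b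
    rw [ha, hb] at this
    rw [this]

/-- The subexponential case. -/
lemma sub_case (S : BallSys G) (hVA : ¬ VirtAb G) (M : ℕ) (K : Finset G) (c : ℝ) (hc : 0 < c)
    (h : ∃ᶠ n in atTop, c * S.f n ≤ ((Typ S M n K).card : ℝ))
    (hsub : ∀ l : ℝ, 1 < l → ∃ n, (S.f n : ℝ) < l ^ n) : False := by
  set H := Subgroup.closure (K : Set G) with hH
  have hZ : ¬ (ZZ H).FiniteIndex := fun hf =>
    hVA ⟨ZZ H, hf, fun x hx y hy => ZZ_comm hx (ZZ_le H hy)⟩
  set β : ℝ := (S.f M : ℝ) with hβ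
  have hβ1 : 1 ≤ β := by rw [hβ]; exact_mod_cast S.f_pos M
  -- choose k
  obtain ⟨n0, hn0⟩ := hsub (Real.exp (c / (8 * β ^ 2))) (by
    rw [← Real.exp_zero]; exact Real.exp_lt_exp.mpr (by positivity))
  have hn0pos : 0 < n0 := by
    rcases Nat.eq_zero_or_pos n0 with h0 | h0
    · rw [h0, pow_zero] at hn0
      have : (1 : ℝ) ≤ S.f 0 := by exact_mod_cast S.f_pos 0
      linarith
    · exact h0
  have hlog0 : Real.log (S.f n0 : ℝ) ≤ n0 * (c / (8 * β ^ 2)) := by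
    have h2 : (0 : ℝ) < S.f n0 := by exact_mod_cast S.f_pos _
    have h3 := Real.log_le_log h2 hn0.le
    rwa [Real.log_pow, Real.log_exp] at h3
  obtain ⟨q, hq⟩ := exists_nat_gt (8 * β ^ 2 / c)
  have hqpos : 0 < q := by
    have : (0 : ℝ) < q := lt_trans (by positivity) hq
    exact_mod_cast this
  set k := q * n0 with hk
  have hkpos : 0 < k := Nat.mul_pos hqpos hn0pos
  have hkq : (8 * β ^ 2 / c) ≤ (k : ℝ) := by
    have h1 : (q : ℝ) ≤ k := by
      rw [hk]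
      exact_mod_cast Nat.le_mul_of_pos_right q hn0pos
    linarith
  have hlogk : Real.log (S.f k : ℝ) ≤ k * (c / (8 * β ^ 2)) := by
    calc Real.log (S.f k : ℝ) ≤ q * Real.log (S.f n0 : ℝ) := log_f_mul_le S q n0
      _ ≤ q * (n0 * (c / (8 * β ^ 2))) := mul_le_mul_of_nonneg_left hlog0 (by positivity)
      _ = k * (c / (8 * β ^ 2)) := by rw [hk]; push_cast; ring
  have hkineq : 4 / c * β ^ 2 * (1 + Real.log (S.f k : ℝ)) ≤ k := by
    have h1 : 4 / c * β ^ 2 * (1 + Real.log (S.f k : ℝ)) ≤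
        4 / c * β ^ 2 * (1 + k * (c / (8 * β ^ 2))) :=
      mul_le_mul_of_nonneg_left (by linarith) (by positivity)
    have h2 : 4 / c * β ^ 2 * (1 + k * (c / (8 * β ^ 2))) = (8 * β ^ 2 / c) / 2 + k / 2 := by
      field_simp
      ring
    rw [h2] at h1
    linarith
  -- choose N, T, D, m
  obtain ⟨N, hN⟩ := exists_nat_gt (((Sig S H M k).card : ℝ) / (c / 2))
  obtain ⟨T, hTc, hTinj⟩ := exists_transversal (ZZ H) hZ N
  obtain ⟨D, hTD⟩ := S.exists_ball_of_finset T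
  obtain ⟨m, hm⟩ := exists_nat_gt (4 / c * (β ^ 2 * (S.f k : ℝ) ^ 2 * (k + 1)))
  -- n large
  have hlarge : ∀ᶠ n in atTop, D ≤ n ∧
      (Sig S H M k).card * D + k * ((S.f M * S.f k * S.f M) * m) ≤ n / k := by
    set A := (Sig S H M k).card * D + k * ((S.f M * S.f k * S.f M) * m) with hA
    filter_upwards [eventually_ge_atTop (D + A * k)] with n hn
    refine ⟨by omega, ?_⟩
    rw [Nat.le_div_iff_mul_le hkpos]
    omega
  obtain ⟨n, hn1, hn2, hn3⟩ := (h.and_eventually hlarge).exists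
  obtain ⟨W, P, hC⟩ := typ_cert S M n K
  have := sub_final (Typ S M n K) W P hC k m D hn2 hn3 T hTD hTinj c hc hn1 hkineq hkpos
    (by linarith)
  rw [hTc] at this
  rw [div_lt_iff₀ (by positivity)] at hN
  linarith

/-- The exponential case. -/
lemma exp_case (S : BallSys G) (M : ℕ) (K : Finset G) (c : ℝ) (hc : 0 < c)
    (h : ∃ᶠ n in atTop, c * S.f n ≤ ((Typ S M n K).card : ℝ))
    (l : ℝ) (hl : 1 < l) (hexp : ∀ n, l ^ n ≤ (S.f n : ℝ)) : False := by
  set H := Subgroup.closure (K : Set G) with hH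
  set β : ℝ := (S.f M : ℝ) with hβ
  have hβ1 : 1 ≤ β := by rw [hβ]; exact_mod_cast S.f_pos M
  have hf1 : 0 ≤ Real.log (S.f 1 : ℝ) := Real.log_natCast_nonneg _
  -- the constant
  set C : ℝ := 4 / c * β ^ 2 * (1 + Real.log (S.f 1 : ℝ)) + 1 with hC
  have hCpos : 0 < C := by positivity
  -- choose k with (C (k+1))^2 ≤ l^k
  have hev : ∀ᶠ k : ℕ in atTop, (C * (k + 1)) ^ 2 ≤ l ^ k := by
    have h1 : Tendsto (fun k : ℕ => (k : ℝ) ^ 2 / l ^ k) atTop (𝓝 0) :=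
      tendsto_pow_const_div_const_pow_of_one_lt 2 hl
    have h2 : ∀ᶠ k : ℕ in atTop, (k : ℝ) ^ 2 / l ^ k < 1 / (4 * C ^ 2) :=
      h1.eventually (gt_mem_nhds (by positivity))
    filter_upwards [h2, eventually_ge_atTop 1] with k hk hk1
    have hlk : (0 : ℝ) < l ^ k := by positivity
    rw [div_lt_div_iff₀ hlk (by positivity)] at hk
    have hk1' : (1 : ℝ) ≤ k := by exact_mod_cast hk1
    have h3 : (C * ((k : ℝ) + 1)) ^ 2 ≤ (k : ℝ) ^ 2 * (4 * C ^ 2) := by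
      have h4 : (k : ℝ) + 1 ≤ 2 * k := by linarith
      have h5 : ((k : ℝ) + 1) ^ 2 ≤ (2 * k) ^ 2 := pow_le_pow_left₀ (by positivity) h4 2
      calc (C * ((k : ℝ) + 1)) ^ 2 = C ^ 2 * ((k : ℝ) + 1) ^ 2 := by ring
        _ ≤ C ^ 2 * (2 * k) ^ 2 := mul_le_mul_of_nonneg_left h5 (by positivity)
        _ = _ := by ring
    linarith
  obtain ⟨k, hk, hk1⟩ := (hev.and (eventually_ge_atTop 1)).exists
  have hkpos : 0 < k := hk1
  have hlogk : Real.log (S.f k : ℝ) ≤ k * Real.log (S.f 1 : ℝ) := by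
    have := log_f_mul_le S k 1
    rwa [mul_one] at this
  set r := ⌈4 / c * β ^ 2 * (1 + Real.log (S.f k : ℝ))⌉₊ with hr
  have hlogk0 : 0 ≤ Real.log (S.f k : ℝ) := Real.log_natCast_nonneg _
  have hr1 : 1 ≤ r := by
    rw [hr, Nat.one_le_ceil_iff]
    positivity
  have hrk : 4 / c * β ^ 2 * (1 + Real.log (S.f k : ℝ)) ≤ (r : ℝ) + 1 := by
    have := Nat.le_ceil (4 / c * β ^ 2 * (1 + Real.log (S.f k : ℝ)))
    rw [← hr] at this
    linarith
  have hrC : (r : ℝ) ≤ C * (k + 1) := by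
    have h1 : (r : ℝ) ≤ 4 / c * β ^ 2 * (1 + Real.log (S.f k : ℝ)) + 1 := by
      rw [hr]
      exact (Nat.ceil_lt_add_one (by positivity)).le
    have h2 : 4 / c * β ^ 2 * (1 + Real.log (S.f k : ℝ)) ≤
        4 / c * β ^ 2 * ((1 + Real.log (S.f 1 : ℝ)) * (k + 1)) := by
      apply mul_le_mul_of_nonneg_left _ (by positivity)
      nlinarith
    have h3 : C * ((k : ℝ) + 1) = 4 / c * β ^ 2 * ((1 + Real.log (S.f 1 : ℝ)) * (k + 1)) + (k + 1) := by
      rw [hC]; ring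
    have h4 : (0 : ℝ) ≤ k := by positivity
    linarith
  have hr2 : (r : ℝ) ^ 2 ≤ l ^ k := by
    refine le_trans ?_ hk
    exact pow_le_pow_left₀ (by positivity) hrC 2
  obtain ⟨m, hm⟩ := exists_nat_gt (4 / c * (β ^ 2 * (S.f k : ℝ) ^ 2 * (k + 1)))
  set N0 := S.f M * S.f k * S.f M * m with hN0
  set A : ℝ := 2 ^ (S.f (2 * M + k)) * ((S.f (2 * M + k) : ℝ) ^ N0 * S.f (M + k)) with hA
  set B : ℕ := N0 + S.f (2 * (2 * M + k)) with hB
  have hApos : 0 < A := by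
    have h1 : (0 : ℝ) < S.f (2 * M + k) := by exact_mod_cast S.f_pos _
    have h2 : (0 : ℝ) < S.f (M + k) := by exact_mod_cast S.f_pos _
    positivity
  -- for large n
  have hlarge : ∀ᶠ n : ℕ in atTop, (A * ((n : ℝ) + 1) ^ B) ^ 2 < (c / 2) ^ 2 * l ^ n := by
    have h1 : Tendsto (fun n : ℕ => (n : ℝ) ^ (2 * B) / l ^ n) atTop (𝓝 0) :=
      tendsto_pow_const_div_const_pow_of_one_lt (2 * B) hl
    have h2 : ∀ᶠ n : ℕ in atTop, (n : ℝ) ^ (2 * B) / l ^ n < (c / 2) ^ 2 / (A ^ 2 * 2 ^ (2 * B)) :=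
      h1.eventually (gt_mem_nhds (by positivity))
    filter_upwards [h2, eventually_ge_atTop 1] with n hn hn1
    have hln : (0 : ℝ) < l ^ n := by positivity
    rw [div_lt_div_iff₀ hln (by positivity)] at hn
    have hn1' : (1 : ℝ) ≤ n := by exact_mod_cast hn1
    have h3 : ((n : ℝ) + 1) ^ (2 * B) ≤ (2 * n) ^ (2 * B) :=
      pow_le_pow_left₀ (by positivity) (by linarith) _
    calc (A * ((n : ℝ) + 1) ^ B) ^ 2 = A ^ 2 * ((n : ℝ) + 1) ^ (2 * B) := by
          rw [mul_pow, ← pow_mul, mul_comm B 2]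
      _ ≤ A ^ 2 * (2 * n) ^ (2 * B) := mul_le_mul_of_nonneg_left h3 (by positivity)
      _ = (n : ℝ) ^ (2 * B) * (A ^ 2 * 2 ^ (2 * B)) := by rw [mul_pow]; ring
      _ < _ := hn
  obtain ⟨n, hn1, hn2⟩ := (h.and_eventually hlarge).exists
  obtain ⟨W, P, hCc⟩ := typ_cert S M n K
  have hfin := exp_final (Typ S M n K) W P hCc k m r hkpos hr1 c hc hn1 hrk (by linarith)
  rw [← hN0] at hfin
  have hle : c / 2 * S.f n ≤ A * ((n : ℝ) + 1) ^ B * (r : ℝ) ^ (n / k) := by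
    refine hfin.trans ?_
    push_cast
    have h1 : ((n / k : ℕ) : ℝ) + 1 ≤ (n : ℝ) + 1 := by
      have : n / k ≤ n := Nat.div_le_self n k
      have h2 : ((n / k : ℕ) : ℝ) ≤ n := by exact_mod_cast this
      linarith
    have h2 : (((n / k : ℕ) : ℝ) + 1) ^ B ≤ ((n : ℝ) + 1) ^ B :=
      pow_le_pow_left₀ (by positivity) h1 B
    calc _ = A * (((n / k : ℕ) : ℝ) + 1) ^ B * (r : ℝ) ^ (n / k) := by
          rw [hA, hB, pow_add]; ring
      _ ≤ A * ((n : ℝ) + 1) ^ B * (r : ℝ) ^ (n / k) := by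
          apply mul_le_mul_of_nonneg_right _ (by positivity)
          exact mul_le_mul_of_nonneg_left h2 hApos.le
  have hrn : ((r : ℝ) ^ (n / k)) ^ 2 ≤ l ^ n := by
    calc ((r : ℝ) ^ (n / k)) ^ 2 = ((r : ℝ) ^ 2) ^ (n / k) := by rw [← pow_mul, ← pow_mul, mul_comm]
      _ ≤ (l ^ k) ^ (n / k) := pow_le_pow_left₀ (by positivity) hr2 _
      _ = l ^ (k * (n / k)) := by rw [← pow_mul]
      _ ≤ l ^ n := pow_le_pow_right₀ hl.le (Nat.mul_div_le n k)
  have hln : (0 : ℝ) < l ^ n := by positivity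
  have h1 : (c / 2 * l ^ n) ^ 2 ≤ (A * ((n : ℝ) + 1) ^ B) ^ 2 * l ^ n := by
    calc (c / 2 * l ^ n) ^ 2 ≤ (c / 2 * S.f n) ^ 2 := by
          apply pow_le_pow_left₀ (by positivity)
          exact mul_le_mul_of_nonneg_left (hexp n) (by positivity)
      _ ≤ (A * ((n : ℝ) + 1) ^ B * (r : ℝ) ^ (n / k)) ^ 2 := by
          apply pow_le_pow_left₀ (by positivity) hle
      _ = (A * ((n : ℝ) + 1) ^ B) ^ 2 * ((r : ℝ) ^ (n / k)) ^ 2 := by ring
      _ ≤ _ := mul_le_mul_of_nonneg_left hrn (by positivity)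
  have h2 : (A * ((n : ℝ) + 1) ^ B) ^ 2 * l ^ n < ((c / 2) ^ 2 * l ^ n) * l ^ n :=
    mul_lt_mul_of_pos_right hn2 hln
  have h3 : ((c / 2) ^ 2 * l ^ n) * l ^ n = (c / 2 * l ^ n) ^ 2 := by ring
  linarith

/-- Goal A: if `G` is not virtually abelian, the ratio tends to zero. -/
theorem goalA (S : BallSys G) (hVA : ¬ VirtAb G) :
    Tendsto (fun n => ((CL S n).card : ℝ) / (S.f n : ℝ)) atTop (𝓝 0) := by
  rw [Metric.tendsto_atTop']
  by_contra hcon
  push Not at hcon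
  obtain ⟨c, hc, hcon⟩ := hcon
  have hfreq : ∃ᶠ n in atTop, c * S.f n ≤ ((CL S n).card : ℝ) := by
    rw [Filter.frequently_atTop]
    intro N
    obtain ⟨n, hn, hd⟩ := hcon N
    refine ⟨n, hn.le, ?_⟩
    rw [Real.dist_eq, sub_zero, abs_of_nonneg (by positivity)] at hd
    rwa [le_div_iff₀ (by exact_mod_cast S.f_pos n)] at hd
  obtain ⟨M, K, c', hc', hK⟩ := exists_type S c hc hfreq
  by_cases hexp : ∃ l : ℝ, 1 < l ∧ ∀ n, l ^ n ≤ (S.f n : ℝ)
  · obtain ⟨l, hl, hl'⟩ := hexp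
    exact exp_case S M K c' hc' hK l hl hl'
  · push Not at hexp
    exact sub_case S hVA M K c' hc' hK hexp

end Pool.Agent.MPd0e86e
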