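import Pool.Agent.Lib.MP_d0e86e_al.Growth

/-!
# Virtually abelian groups: the limit exists
-/

open Filter Topology

namespace Pool.Agent.MPd0e86e

universe u

variable {G : Type u} [Group G]

lemma mem_cent {x g : G} : x ∈ Subgroup.centralizer ({g} : Set G) ↔ g * x = x * g := by
  rw [Subgroup.mem_centralizer_iff]
  simp

/-- The subgroup of the elements with finitely many conjugates. -/
def FCs (G : Type u) [Group G] : Subgroup G where
  carrier := {g | (Subgroup.centralizer ({g} : Set G)).FiniteIndex}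
  one_mem' := by
    have h : Subgroup.centralizer ({1} : Set G) = ⊤ := by
      ext x
      simp [mem_cent]
    show (Subgroup.centralizer ({1} : Set G)).FiniteIndex
    rw [h]
    infer_instance
  mul_mem' := by
    intro a b ha hb
    have ha' : (Subgroup.centralizer ({a} : Set G)).FiniteIndex := ha
    have hb' : (Subgroup.centralizer ({b} : Set G)).FiniteIndex := hb
    show (Subgroup.centralizer ({a * b} : Set G)).FiniteIndex
    have hle : Subgroup.centralizer ({a} : Set G) ⊓ Subgroup.centralizer ({b} : Set G) ≤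
        Subgroup.centralizer ({a * b} : Set G) := by
      intro x hx
      rw [Subgroup.mem_inf, mem_cent, mem_cent] at hx
      rw [mem_cent, mul_assoc, hx.2, ← mul_assoc, hx.1, mul_assoc]
    exact Subgroup.finiteIndex_of_le hle
  inv_mem' := by
    intro a ha
    have ha' : (Subgroup.centralizer ({a} : Set G)).FiniteIndex := ha
    show (Subgroup.centralizer ({a⁻¹} : Set G)).FiniteIndex
    have hle : Subgroup.centralizer ({a} : Set G) ≤ Subgroup.centralizer ({a⁻¹} : Set G) := by
      intro x hx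
      rw [mem_cent] at hx ⊢
      have : a⁻¹ * (a * x) * a⁻¹ = a⁻¹ * (x * a) * a⁻¹ := by rw [hx]
      simpa [mul_assoc] using this.symm
    exact Subgroup.finiteIndex_of_le hle

lemma mem_FCs {g : G} : g ∈ FCs G ↔ (Subgroup.centralizer ({g} : Set G)).FiniteIndex := Iff.rfl

lemma mem_FCs_of_comm {g : G} (A : Subgroup G) [A.FiniteIndex] (h : ∀ x ∈ A, g * x = x * g) :
    g ∈ FCs G := by
  rw [mem_FCs]
  have hle : A ≤ Subgroup.centralizer ({g} : Set G) := fun x hx => mem_cent.mpr (h x hx)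
  exact Subgroup.finiteIndex_of_le hle

lemma le_FCs (A : Subgroup G) [A.FiniteIndex] (hA : ∀ x ∈ A, ∀ y ∈ A, x * y = y * x) :
    A ≤ FCs G := fun a ha => mem_FCs_of_comm A (fun x hx => hA a ha x hx)

/-- A normal subgroup of finite index that centralises all elements of `FCs G`. -/
lemma exists_core (A : Subgroup G) [A.Normal] [A.FiniteIndex]
    (hA : ∀ x ∈ A, ∀ y ∈ A, x * y = y * x) :
    ∃ A' : Subgroup G, A'.Normal ∧ A'.FiniteIndex ∧ ∀ g ∈ FCs G, ∀ x ∈ A', g * x = x * g := by
  classical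
  set Cq : G ⧸ A → Subgroup G := fun q =>
    if Quotient.out q ∈ FCs G then Subgroup.centralizer ({Quotient.out q} : Set G) else ⊤ with hCq
  have hfin : ∀ q, (Cq q).FiniteIndex := by
    intro q
    simp only [hCq]
    split_ifs with h
    · exact h
    · infer_instance
  have : Finite (G ⧸ A) := inferInstance
  have h1 : (⨅ q, Cq q).FiniteIndex := Subgroup.finiteIndex_iInf hfin
  have h2 : (A ⊓ ⨅ q, Cq q).FiniteIndex := inferInstance
  refine ⟨(A ⊓ ⨅ q, Cq q).normalCore, Subgroup.normalCore_normal _,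
    Subgroup.finiteIndex_normalCore _, ?_⟩
  intro g hg x hx
  have hx1 := Subgroup.normalCore_le _ hx
  rw [Subgroup.mem_inf, Subgroup.mem_iInf] at hx1
  obtain ⟨hxA, hxC⟩ := hx1
  set r := Quotient.out (QuotientGroup.mk g : G ⧸ A) with hr
  have hr1 : (QuotientGroup.mk r : G ⧸ A) = QuotientGroup.mk g := Quotient.out_eq' _
  have hr2 : r⁻¹ * g ∈ A := QuotientGroup.eq.mp hr1
  have hrF : r ∈ FCs G := by
    have h3 : r = g * (r⁻¹ * g)⁻¹ := by group
    rw [h3]
    exact mul_mem hg (inv_mem (le_FCs A hA hr2))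
  have h4 := hxC (QuotientGroup.mk g)
  simp only [hCq] at h4
  rw [if_pos (by rw [← hr]; exact hrF), ← hr, mem_cent] at h4
  have h5 := hA _ hr2 x hxA
  calc g * x = r * ((r⁻¹ * g) * x) := by group
    _ = r * (x * (r⁻¹ * g)) := by rw [h5]
    _ = (r * x) * (r⁻¹ * g) := by group
    _ = (x * r) * (r⁻¹ * g) := by rw [h4]
    _ = x * g := by group

section burnside

variable (A' : Subgroup G) [A'.Normal] [Fintype (G ⧸ A')]

open Classical in
/-- the number of classes mod `A'` commuting with `h` -/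
noncomputable def stb (h : G) : ℕ :=
  ((Finset.univ : Finset (G ⧸ A')).filter (fun q => Quotient.out q * h = h * Quotient.out q)).card

open Classical in
/-- the conjugates of `g` by the representatives mod `A'` -/
noncomputable def cjs (g : G) : Finset G :=
  (Finset.univ : Finset (G ⧸ A')).image (fun q => Quotient.out q * g * (Quotient.out q)⁻¹)

variable {A'}

lemma mem_cjs (hcomm : ∀ g ∈ FCs G, ∀ x ∈ A', g * x = x * g) {g h : G} (hg : g ∈ FCs G) :
    h ∈ cjs A' g ↔ IsConj g h := by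
  classical
  rw [cjs, Finset.mem_image]
  constructor
  · rintro ⟨q, _, rfl⟩
    rw [isConj_iff]
    exact ⟨_, rfl⟩
  · intro hc
    rw [isConj_iff] at hc
    obtain ⟨x, rfl⟩ := hc
    refine ⟨QuotientGroup.mk x, Finset.mem_univ _, ?_⟩
    set r := Quotient.out (QuotientGroup.mk x : G ⧸ A') with hr
    have hr1 : (QuotientGroup.mk r : G ⧸ A') = QuotientGroup.mk x := Quotient.out_eq' _
    have hr2 : r⁻¹ * x ∈ A' := QuotientGroup.eq.mp hr1
    have h1 := hcomm g hg _ hr2
    calc r * g * r⁻¹ = r * (g * (r⁻¹ * x)) * x⁻¹ := by group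
      _ = r * ((r⁻¹ * x) * g) * x⁻¹ := by rw [h1]
      _ = x * g * x⁻¹ := by group

lemma conj_mem_FCs (hcomm : ∀ g ∈ FCs G, ∀ x ∈ A', g * x = x * g) [A'.FiniteIndex] {g h : G}
    (hg : g ∈ FCs G) (hgh : IsConj g h) : h ∈ FCs G := by
  rw [isConj_iff] at hgh
  obtain ⟨c, rfl⟩ := hgh
  apply mem_FCs_of_comm A'
  intro x hx
  have h1 : c⁻¹ * x * c ∈ A' := by
    have := Subgroup.Normal.conj_mem (H := A') inferInstance x hx c⁻¹
    rwa [inv_inv] at this
  have h2 := hcomm g hg _ h1
  calc c * g * c⁻¹ * x = c * (g * (c⁻¹ * x * c)) * c⁻¹ := by group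
    _ = c * ((c⁻¹ * x * c) * g) * c⁻¹ := by rw [h2]
    _ = x * (c * g * c⁻¹) := by group

lemma sum_stb (hcomm : ∀ g ∈ FCs G, ∀ x ∈ A', g * x = x * g) [A'.FiniteIndex] {g : G}
    (hg : g ∈ FCs G) : ∑ h ∈ cjs A' g, stb A' h = Fintype.card (G ⧸ A') := by
  classical
  have h1 : (Finset.univ : Finset (G ⧸ A')).card = ∑ h ∈ cjs A' g,
      ((Finset.univ : Finset (G ⧸ A')).filter
        (fun q => Quotient.out q * g * (Quotient.out q)⁻¹ = h)).card :=
    Finset.card_eq_sum_card_fiberwise (fun q _ => Finset.mem_image_of_mem _ (Finset.mem_univ _))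
  rw [← Finset.card_univ, h1]
  apply Finset.sum_congr rfl
  intro h hh
  have hgh : IsConj g h := (mem_cjs hcomm hg).mp hh
  have hhF : h ∈ FCs G := conj_mem_FCs hcomm hg hgh
  rw [isConj_iff] at hgh
  obtain ⟨x, hx⟩ := hgh
  unfold stb
  symm
  apply Finset.card_bij (fun (q : G ⧸ A') _ => q * (QuotientGroup.mk x⁻¹ : G ⧸ A'))
  · intro q hq
    rw [Finset.mem_filter] at hq ⊢
    refine ⟨Finset.mem_univ _, ?_⟩
    set y := Quotient.out q with hy
    set y' := Quotient.out (q * (QuotientGroup.mk x⁻¹ : G ⧸ A')) with hy'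
    have e1 : (QuotientGroup.mk y : G ⧸ A') = q := Quotient.out_eq' _
    have e2 : (QuotientGroup.mk y' : G ⧸ A') = q * (QuotientGroup.mk x⁻¹ : G ⧸ A') :=
      Quotient.out_eq' _
    have e3 : (QuotientGroup.mk (y * x⁻¹) : G ⧸ A') = QuotientGroup.mk y' := by
      rw [e2, QuotientGroup.mk_mul, e1]
    have e4 : (y * x⁻¹)⁻¹ * y' ∈ A' := QuotientGroup.eq.mp e3
    have e5 := hcomm h hhF _ e4
    have e6 : (y * x⁻¹) * h = h * (y * x⁻¹) := by
      have := hq.2
      rw [← hx] at this ⊢
      calc y * x⁻¹ * (x * g * x⁻¹) = (y * g * y⁻¹) * (y * x⁻¹) := by group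
        _ = _ := by rw [this]
    calc y' * h = (y * x⁻¹) * (((y * x⁻¹)⁻¹ * y') * h) := by group
      _ = (y * x⁻¹) * (h * ((y * x⁻¹)⁻¹ * y')) := by rw [e5]
      _ = ((y * x⁻¹) * h) * ((y * x⁻¹)⁻¹ * y') := by group
      _ = (h * (y * x⁻¹)) * ((y * x⁻¹)⁻¹ * y') := by rw [e6]
      _ = h * y' := by group
  · intro a _ b _ hab
    exact mul_right_cancel hab
  · intro q hq
    rw [Finset.mem_filter] at hq
    refine ⟨q * (QuotientGroup.mk x : G ⧸ A'), ?_, ?_⟩
    · rw [Finset.mem_filter]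
      refine ⟨Finset.mem_univ _, ?_⟩
      set y := Quotient.out q with hy
      set y' := Quotient.out (q * (QuotientGroup.mk x : G ⧸ A')) with hy'
      have e1 : (QuotientGroup.mk y : G ⧸ A') = q := Quotient.out_eq' _
      have e2 : (QuotientGroup.mk y' : G ⧸ A') = q * (QuotientGroup.mk x : G ⧸ A') :=
        Quotient.out_eq' _
      have e3 : (QuotientGroup.mk (y * x) : G ⧸ A') = QuotientGroup.mk y' := by
        rw [e2, QuotientGroup.mk_mul, e1]
      have e4 : (y * x)⁻¹ * y' ∈ A' := QuotientGroup.eq.mp e3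
      have e5 := hcomm g hg _ e4
      have e6 : (y * x) * g * (y * x)⁻¹ = h := by
        have := hq.2
        rw [← hx] at this ⊢
        calc y * x * g * (y * x)⁻¹ = y * (x * g * x⁻¹) * y⁻¹ := by group
          _ = (x * g * x⁻¹) * y * y⁻¹ := by rw [this]
          _ = x * g * x⁻¹ := by group
      calc y' * g * y'⁻¹ = (y * x) * (((y * x)⁻¹ * y') * g) * y'⁻¹ := by group
        _ = (y * x) * (g * ((y * x)⁻¹ * y')) * y'⁻¹ := by rw [e5]
        _ = (y * x) * g * (y * x)⁻¹ := by group
        _ = h := e6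
    · rw [mul_assoc, ← QuotientGroup.mk_mul, mul_inv_cancel, QuotientGroup.mk_one, mul_one]

end burnside

end Pool.Agent.MPd0e86e
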