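import Pool.Agent.Lib.MP_d0e86e_al.GoalB

/-!
# Virtually abelian groups: the limit exists (conclusion)
-/

open Filter Topology

namespace Pool.Agent.MPd0e86e

universe u

variable {G : Type u} [Group G]

open Classical in
/-- classes of elements of `FCs G` meeting the ball -/
noncomputable def ClF (S : BallSys G) (n : ℕ) : Finset (ConjClasses G) :=
  ((S.B n).filter (fun g => g ∈ FCs G)).image ConjClasses.mk

open Classical in
/-- classes of elements outside `FCs G` meeting the ball -/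
noncomputable def ClN (S : BallSys G) (n : ℕ) : Finset (ConjClasses G) :=
  ((S.B n).filter (fun g => ¬ g ∈ FCs G)).image ConjClasses.mk

lemma CL_le (S : BallSys G) (n : ℕ) : (CL S n).card ≤ (ClF S n).card + (ClN S n).card := by
  classical
  have : CL S n ⊆ ClF S n ∪ ClN S n := by
    intro c hc
    rw [CL, Finset.mem_image] at hc
    obtain ⟨g, hg, rfl⟩ := hc
    rw [Finset.mem_union, ClF, ClN, Finset.mem_image, Finset.mem_image]
    by_cases h : g ∈ FCs G
    · exact Or.inl ⟨g, Finset.mem_filter.mpr ⟨hg, h⟩, rfl⟩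
    · exact Or.inr ⟨g, Finset.mem_filter.mpr ⟨hg, h⟩, rfl⟩
  exact (Finset.card_le_card this).trans (Finset.card_union_le _ _)

lemma ClF_le (S : BallSys G) (n : ℕ) : (ClF S n).card ≤ (CL S n).card := by
  classical
  apply Finset.card_le_card
  intro c hc
  rw [ClF, Finset.mem_image] at hc
  obtain ⟨g, hg, rfl⟩ := hc
  exact Finset.mem_image_of_mem _ (Finset.mem_filter.mp hg).1

section

variable (A' : Subgroup G) [A'.Normal] [Fintype (G ⧸ A')]

open Classical in
/-- the weighted count of the elements of `FCs G` in the ball -/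
noncomputable def Theta (S : BallSys G) (n : ℕ) : ℕ :=
  ∑ g ∈ (S.B n).filter (fun g => g ∈ FCs G), stb A' g

/-- the subgroup of elements of `FCs G` commuting with the representative of `q` -/
noncomputable def Nq (q : G ⧸ A') : Subgroup G :=
  FCs G ⊓ Subgroup.centralizer ({Quotient.out q} : Set G)

lemma Theta_eq (S : BallSys G) (n : ℕ) :
    Theta A' S n = ∑ q : G ⧸ A', cnt S (Nq A' q) n := by
  classical
  unfold Theta stb cnt Nq
  simp_rw [Finset.card_filter]
  rw [Finset.sum_comm]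
  apply Finset.sum_congr rfl
  intro q _
  rw [Finset.sum_filter]
  apply Finset.sum_congr rfl
  intro g _
  by_cases h1 : g ∈ FCs G
  · rw [if_pos h1]
    by_cases h2 : Quotient.out q * g = g * Quotient.out q
    · rw [if_pos h2, if_pos (Subgroup.mem_inf.mpr ⟨h1, mem_cent.mpr h2⟩)]
    · rw [if_neg h2, if_neg (fun h => h2 (mem_cent.mp (Subgroup.mem_inf.mp h).2))]
  · rw [if_neg h1, if_neg (fun h => h1 (Subgroup.mem_inf.mp h).1)]

variable {A'}

lemma Theta_le (S : BallSys G) [A'.FiniteIndex]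
    (hcomm : ∀ g ∈ FCs G, ∀ x ∈ A', g * x = x * g) (n : ℕ) :
    Theta A' S n ≤ Fintype.card (G ⧸ A') * (ClF S n).card := by
  classical
  have h1 : Theta A' S n = ∑ c ∈ ClF S n,
      ∑ g ∈ ((S.B n).filter (fun g => g ∈ FCs G)).filter (fun g => ConjClasses.mk g = c),
        stb A' g := by
    unfold Theta ClF
    rw [Finset.sum_fiberwise_of_maps_to]
    intro g hg
    exact Finset.mem_image_of_mem _ hg
  rw [h1, mul_comm, ← smul_eq_mul, ← Finset.sum_const]
  apply Finset.sum_le_sum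
  intro c hc
  rw [ClF, Finset.mem_image] at hc
  obtain ⟨g, hg, rfl⟩ := hc
  rw [Finset.mem_filter] at hg
  rw [← sum_stb hcomm hg.2]
  apply Finset.sum_le_sum_of_subset
  intro h hh
  rw [Finset.mem_filter, ConjClasses.mk_eq_mk_iff_isConj] at hh
  exact (mem_cjs hcomm hg.2).mpr hh.2.symm

lemma le_Theta (S : BallSys G) [A'.FiniteIndex]
    (hcomm : ∀ g ∈ FCs G, ∀ x ∈ A', g * x = x * g) {D : ℕ}
    (hD : ∀ q : G ⧸ A', Quotient.out q ∈ S.B D) (n : ℕ) :
    Fintype.card (G ⧸ A') * (ClF S n).card ≤ Theta A' S (n + 2 * D) := by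
  classical
  have hsub : ClF S n ⊆ ClF S (n + 2 * D) := by
    intro c hc
    rw [ClF, Finset.mem_image] at hc ⊢
    obtain ⟨g, hg, rfl⟩ := hc
    rw [Finset.mem_filter] at hg
    exact ⟨g, Finset.mem_filter.mpr ⟨S.mono' (by omega) hg.1, hg.2⟩, rfl⟩
  have h1 : Theta A' S (n + 2 * D) = ∑ c ∈ ClF S (n + 2 * D),
      ∑ g ∈ ((S.B (n + 2 * D)).filter (fun g => g ∈ FCs G)).filter
        (fun g => ConjClasses.mk g = c), stb A' g := by
    unfold Theta ClF
    rw [Finset.sum_fiberwise_of_maps_to]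
    intro g hg
    exact Finset.mem_image_of_mem _ hg
  have h2 : ∑ c ∈ ClF S n, ∑ g ∈ ((S.B (n + 2 * D)).filter (fun g => g ∈ FCs G)).filter
        (fun g => ConjClasses.mk g = c), stb A' g ≤ Theta A' S (n + 2 * D) := by
    rw [h1]
    exact Finset.sum_le_sum_of_subset hsub
  refine le_trans ?_ h2
  rw [mul_comm, ← smul_eq_mul, ← Finset.sum_const]
  apply Finset.sum_le_sum
  intro c hc
  rw [ClF, Finset.mem_image] at hc
  obtain ⟨g, hg, rfl⟩ := hc
  rw [Finset.mem_filter] at hg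
  rw [← sum_stb hcomm hg.2]
  apply Finset.sum_le_sum_of_subset
  intro h hh
  have hc := (mem_cjs hcomm hg.2).mp hh
  rw [Finset.mem_filter, Finset.mem_filter, ConjClasses.mk_eq_mk_iff_isConj]
  refine ⟨⟨?_, conj_mem_FCs hcomm hg.2 hc⟩, hc.symm⟩
  rw [cjs, Finset.mem_image] at hh
  obtain ⟨q, _, rfl⟩ := hh
  exact S.mul_mem_of_le (S.mul_mem (hD q) hg.1) (S.inv_mem (hD q)) (by omega)

lemma Theta_tendsto (S : BallSys G) (hS : Stable S) :
    Tendsto (fun n => (Theta A' S n : ℝ) / (S.f n : ℝ)) atTop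
      (𝓝 (∑ q : G ⧸ A', ((Nq A' q).index : ℝ)⁻¹)) := by
  have h : ∀ n, (Theta A' S n : ℝ) / (S.f n : ℝ) =
      ∑ q : G ⧸ A', (cnt S (Nq A' q) n : ℝ) / (S.f n : ℝ) := by
    intro n
    rw [Theta_eq, Nat.cast_sum, Finset.sum_div]
  simp_rw [h]
  exact tendsto_finsetSum _ (fun q _ => density S hS (Nq A' q))

lemma ClF_tendsto (S : BallSys G) (hS : Stable S) [A'.FiniteIndex]
    (hcomm : ∀ g ∈ FCs G, ∀ x ∈ A', g * x = x * g) :
    Tendsto (fun n => ((ClF S n).card : ℝ) / (S.f n : ℝ)) atTop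
      (𝓝 ((Fintype.card (G ⧸ A') : ℝ)⁻¹ * ∑ q : G ⧸ A', ((Nq A' q).index : ℝ)⁻¹)) := by
  classical
  obtain ⟨D, hD⟩ := S.exists_ball_of_finset
    ((Finset.univ : Finset (G ⧸ A')).image Quotient.out)
  have hD' : ∀ q : G ⧸ A', Quotient.out q ∈ S.B D := fun q =>
    hD (Finset.mem_image_of_mem _ (Finset.mem_univ _))
  set Λ := ∑ q : G ⧸ A', ((Nq A' q).index : ℝ)⁻¹ with hΛ
  set Q : ℝ := (Fintype.card (G ⧸ A') : ℝ) with hQ
  have hQpos : 0 < Q := by
    rw [hQ]
    exact_mod_cast Fintype.card_pos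
  have t1 : Tendsto (fun n => Q⁻¹ * ((Theta A' S n : ℝ) / (S.f n : ℝ))) atTop (𝓝 (Q⁻¹ * Λ)) :=
    (Theta_tendsto S hS).const_mul _
  have t2 : Tendsto (fun n => Q⁻¹ * ((Theta A' S (n + 2 * D) : ℝ) / (S.f (n + 2 * D) : ℝ) *
      ((S.f (n + 2 * D) : ℝ) / (S.f n : ℝ)))) atTop (𝓝 (Q⁻¹ * Λ)) := by
    have h1 := (tendsto_add_atTop_iff_nat (f := fun n => (Theta A' S n : ℝ) / (S.f n : ℝ))
      (2 * D)).mpr (Theta_tendsto (A' := A') S hS)
    have h2 := (h1.mul (hS.shift (2 * D))).const_mul Q⁻¹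
    rwa [mul_one] at h2
  refine tendsto_of_tendsto_of_tendsto_of_le_of_le t1 t2 ?_ ?_
  · intro n
    have hfn : (0 : ℝ) < S.f n := by exact_mod_cast S.f_pos n
    have h1 : (Theta A' S n : ℝ) ≤ Q * ((ClF S n).card : ℝ) := by
      rw [hQ]
      exact_mod_cast Theta_le S hcomm n
    show Q⁻¹ * ((Theta A' S n : ℝ) / (S.f n : ℝ)) ≤ ((ClF S n).card : ℝ) / (S.f n : ℝ)
    rw [← mul_div_assoc, div_le_div_iff_of_pos_right hfn, inv_mul_le_iff₀ hQpos]
    exact h1
  · intro n
    have hfn : (0 : ℝ) < S.f n := by exact_mod_cast S.f_pos n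
    have hfn2 : (S.f (n + 2 * D) : ℝ) ≠ 0 := by exact_mod_cast (S.f_pos _).ne'
    have h1 : Q * ((ClF S n).card : ℝ) ≤ (Theta A' S (n + 2 * D) : ℝ) := by
      rw [hQ]
      exact_mod_cast le_Theta S hcomm hD' n
    show ((ClF S n).card : ℝ) / (S.f n : ℝ) ≤ Q⁻¹ * ((Theta A' S (n + 2 * D) : ℝ) /
      (S.f (n + 2 * D) : ℝ) * ((S.f (n + 2 * D) : ℝ) / (S.f n : ℝ)))
    rw [div_mul_div_cancel₀ hfn2, ← mul_div_assoc, div_le_div_iff_of_pos_right hfn,
      le_inv_mul_iff₀ hQpos]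
    exact h1

lemma Lambda_pos [A'.FiniteIndex] (hcomm : ∀ g ∈ FCs G, ∀ x ∈ A', g * x = x * g)
    (hF : (FCs G).FiniteIndex) :
    0 < (Fintype.card (G ⧸ A') : ℝ)⁻¹ * ∑ q : G ⧸ A', ((Nq A' q).index : ℝ)⁻¹ := by
  classical
  have hQpos : (0 : ℝ) < (Fintype.card (G ⧸ A') : ℝ) := by exact_mod_cast Fintype.card_pos
  apply mul_pos (inv_pos.mpr hQpos)
  have h1 : Nq A' (1 : G ⧸ A') = FCs G := by
    unfold Nq
    apply inf_eq_left.mpr
    intro g hg
    rw [mem_cent]
    have h2 : Quotient.out (1 : G ⧸ A') ∈ A' := by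
      have h3 : (QuotientGroup.mk (Quotient.out (1 : G ⧸ A')) : G ⧸ A') = 1 := Quotient.out_eq' _
      exact (QuotientGroup.eq_one_iff _).mp h3
    exact (hcomm g hg _ h2).symm
  apply Finset.sum_pos' (fun q _ => by positivity)
  refine ⟨1, Finset.mem_univ _, ?_⟩
  rw [h1]
  have : (0 : ℝ) < ((FCs G).index : ℝ) := by
    exact_mod_cast Nat.pos_of_ne_zero hF.index_ne_zero
  positivity

end

/-- Uniformly many conjugates for the elements outside `FCs G`. -/
lemma many_conj (S : BallSys G) (A : Subgroup G) [A.Normal] [A.FiniteIndex]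
    (hA : ∀ x ∈ A, ∀ y ∈ A, x * y = y * x) (N : ℕ) :
    ∃ D, ∀ g, g ∉ FCs G → ∃ T : Finset G, T.card = N ∧ T ⊆ S.B D ∧
      ∀ x ∈ T, ∀ y ∈ T, x * g * x⁻¹ = y * g * y⁻¹ → x = y := by
  classical
  have : Fintype (G ⧸ A) := A.fintypeQuotientOfFiniteIndex
  have hT : ∀ q : G ⧸ A, ∃ T : Finset G, (Quotient.out q ∉ FCs G → (T.card = N ∧ (∀ x ∈ T, x ∈ A) ∧
      ∀ x ∈ T, ∀ y ∈ T, x⁻¹ * y ∈ Subgroup.centralizer ({Quotient.out q} : Set G) → x = y)) := by
    intro q
    by_cases hq : Quotient.out q ∈ FCs G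
    · exact ⟨∅, fun h => (h hq).elim⟩
    · set r := Quotient.out q with hr
      have hnf : ¬ ((Subgroup.centralizer ({r} : Set G)).subgroupOf A).FiniteIndex := by
        intro hfin
        apply hq
        rw [mem_FCs]
        have h1 : (Subgroup.centralizer ({r} : Set G)).relIndex A ≠ 0 := hfin.index_ne_zero
        have h2 : (Subgroup.centralizer ({r} : Set G) ⊓ A).relIndex A * A.index =
            (Subgroup.centralizer ({r} : Set G) ⊓ A).index :=
          Subgroup.relIndex_mul_index inf_le_right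
        rw [Subgroup.inf_relIndex_right] at h2
        have h3 : (Subgroup.centralizer ({r} : Set G) ⊓ A).index ≠ 0 := by
          rw [← h2]
          exact Nat.mul_ne_zero h1 Subgroup.FiniteIndex.index_ne_zero
        have : (Subgroup.centralizer ({r} : Set G) ⊓ A).FiniteIndex := ⟨h3⟩
        exact Subgroup.finiteIndex_of_le
          (inf_le_left : Subgroup.centralizer ({r} : Set G) ⊓ A ≤ _)
      obtain ⟨T, hTc, hTinj⟩ := exists_transversal _ hnf N
      refine ⟨T.image (fun x : A => (x : G)), fun _ => ⟨?_, ?_, ?_⟩⟩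
      · rw [Finset.card_image_of_injective _ Subtype.val_injective, hTc]
      · intro x hx
        rw [Finset.mem_image] at hx
        obtain ⟨a, _, rfl⟩ := hx
        exact a.2
      · intro x hx y hy hxy
        rw [Finset.mem_image] at hx hy
        obtain ⟨a, ha, rfl⟩ := hx
        obtain ⟨b, hb, rfl⟩ := hy
        have := hTinj a ha b hb (by
          rw [Subgroup.mem_subgroupOf]
          exact hxy)
        rw [this]
  choose T hT using hT
  obtain ⟨D, hD⟩ := S.exists_ball_of_finset ((Finset.univ : Finset (G ⧸ A)).biUnion T)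
  refine ⟨D, ?_⟩
  intro g hg
  set q : G ⧸ A := QuotientGroup.mk g with hq
  have hr1 : (QuotientGroup.mk (Quotient.out q) : G ⧸ A) = QuotientGroup.mk g := Quotient.out_eq' _
  have hr2 : (Quotient.out q)⁻¹ * g ∈ A := QuotientGroup.eq.mp hr1
  have hrF : Quotient.out q ∉ FCs G := by
    intro h
    apply hg
    have : g = Quotient.out q * ((Quotient.out q)⁻¹ * g) := by group
    rw [this]
    exact mul_mem h (le_FCs A hA hr2)
  obtain ⟨h1, h2, h3⟩ := hT q hrF
  refine ⟨T q, h1, ?_, ?_⟩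
  · intro x hx
    exact hD (Finset.mem_biUnion.mpr ⟨q, Finset.mem_univ _, hx⟩)
  · intro x hx y hy hxy
    apply h3 x hx y hy
    rw [mem_cent]
    have hc : x⁻¹ * y ∈ A := mul_mem (inv_mem (h2 x hx)) (h2 y hy)
    have h4 : g * (x⁻¹ * y) = (x⁻¹ * y) * g := by
      calc g * (x⁻¹ * y) = x⁻¹ * (x * g * x⁻¹) * y := by group
        _ = x⁻¹ * (y * g * y⁻¹) * y := by rw [hxy]
        _ = (x⁻¹ * y) * g := by group
    have h5 := hA _ hr2 _ hc
    set r := Quotient.out q with hr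
    calc r * (x⁻¹ * y) = r * ((r⁻¹ * g) * (x⁻¹ * y)) * (r⁻¹ * g)⁻¹ * 1 := by
          rw [h5]; group
      _ = g * (x⁻¹ * y) * (r⁻¹ * g)⁻¹ := by group
      _ = (x⁻¹ * y) * g * (r⁻¹ * g)⁻¹ := by rw [h4]
      _ = (x⁻¹ * y) * r := by group

lemma ClN_bound (S : BallSys G) (A : Subgroup G) [A.Normal] [A.FiniteIndex]
    (hA : ∀ x ∈ A, ∀ y ∈ A, x * y = y * x) (N : ℕ) :
    ∃ D, ∀ n, N * (ClN S n).card ≤ S.f (n + 2 * D) := by
  classical
  obtain ⟨D, hD⟩ := many_conj S A hA N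
  refine ⟨D, ?_⟩
  intro n
  have hfib : ∀ c ∈ ClN S n, N ≤ ((S.B (n + 2 * D)).filter (fun g => ConjClasses.mk g = c)).card := by
    intro c hc
    rw [ClN, Finset.mem_image] at hc
    obtain ⟨g, hg, rfl⟩ := hc
    rw [Finset.mem_filter] at hg
    obtain ⟨T, hT1, hT2, hT3⟩ := hD g hg.2
    rw [← hT1]
    apply Finset.card_le_card_of_injOn (fun x => x * g * x⁻¹)
    · intro x hx
      rw [Finset.mem_coe] at hx
      rw [Finset.mem_coe, Finset.mem_filter, ConjClasses.mk_eq_mk_iff_isConj]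
      refine ⟨S.mul_mem_of_le (S.mul_mem (hT2 hx) hg.1) (S.inv_mem (hT2 hx)) (by omega), ?_⟩
      apply IsConj.symm
      rw [isConj_iff]
      exact ⟨x, rfl⟩
    · intro x hx y hy hxy
      exact hT3 x hx y hy hxy
  calc N * (ClN S n).card = ∑ c ∈ ClN S n, N := by rw [Finset.sum_const, smul_eq_mul, mul_comm]
    _ ≤ ∑ c ∈ ClN S n, ((S.B (n + 2 * D)).filter (fun g => ConjClasses.mk g = c)).card :=
        Finset.sum_le_sum hfib
    _ = ((ClN S n).biUnion
          (fun c => (S.B (n + 2 * D)).filter (fun g => ConjClasses.mk g = c))).card := by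
        rw [Finset.card_biUnion]
        intro c _ c' _ hcc
        rw [Function.onFun, Finset.disjoint_left]
        intro g hg hg'
        rw [Finset.mem_filter] at hg hg'
        exact hcc (hg.2.symm.trans hg'.2)
    _ ≤ (S.B (n + 2 * D)).card := by
        apply Finset.card_le_card
        intro g hg
        rw [Finset.mem_biUnion] at hg
        obtain ⟨c, _, hg⟩ := hg
        exact (Finset.mem_filter.mp hg).1

lemma ClN_tendsto (S : BallSys G) (hS : Stable S) (A : Subgroup G) [A.Normal] [A.FiniteIndex]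
    (hA : ∀ x ∈ A, ∀ y ∈ A, x * y = y * x) :
    Tendsto (fun n => ((ClN S n).card : ℝ) / (S.f n : ℝ)) atTop (𝓝 0) := by
  rw [Metric.tendsto_nhds]
  intro ε hε
  obtain ⟨N, hN⟩ := exists_nat_gt (2 / ε)
  have hNpos : (0 : ℝ) < N := lt_of_le_of_lt (by positivity) hN
  obtain ⟨D, hD⟩ := ClN_bound S A hA N
  have h2 : ∀ᶠ n in atTop, (S.f (n + 2 * D) : ℝ) / S.f n < 2 :=
    (hS.shift (2 * D)).eventually (gt_mem_nhds (by norm_num))
  filter_upwards [h2] with n hn
  have hfn : (0 : ℝ) < S.f n := by exact_mod_cast S.f_pos n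
  have h4 : (N : ℝ) * ((ClN S n).card : ℝ) ≤ S.f (n + 2 * D) := by exact_mod_cast hD n
  rw [Real.dist_eq, sub_zero, abs_of_nonneg (by positivity)]
  rw [div_lt_iff₀ hfn] at hn ⊢
  rw [div_lt_iff₀ hε] at hN
  have h5 : (N : ℝ) * ((ClN S n).card : ℝ) < N * (ε * S.f n) := by
    calc (N : ℝ) * ((ClN S n).card : ℝ) ≤ S.f (n + 2 * D) := h4
      _ < 2 * S.f n := hn
      _ < (N * ε) * S.f n := mul_lt_mul_of_pos_right hN hfn
      _ = _ := by ring
  exact lt_of_mul_lt_mul_left h5 hNpos.le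

/-- Goal B: for virtually abelian groups the limit exists, is positive, and does not depend on
the system of balls. -/
theorem goalB (hVA : VirtAb G) : ∃ L : ℝ, 0 < L ∧ ∀ S : BallSys G,
    Tendsto (fun n => ((CL S n).card : ℝ) / (S.f n : ℝ)) atTop (𝓝 L) := by
  classical
  obtain ⟨A0, hA0, hA0c⟩ := hVA
  set A := A0.normalCore with hAdef
  have hAn : A.Normal := Subgroup.normalCore_normal _
  have hAf : A.FiniteIndex := Subgroup.finiteIndex_normalCore _
  have hAc : ∀ x ∈ A, ∀ y ∈ A, x * y = y * x := fun x hx y hy =>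
    hA0c x (Subgroup.normalCore_le _ hx) y (Subgroup.normalCore_le _ hy)
  obtain ⟨A', hA'n, hA'f, hcomm⟩ := exists_core A hAc
  have : Fintype (G ⧸ A') := A'.fintypeQuotientOfFiniteIndex
  refine ⟨(Fintype.card (G ⧸ A') : ℝ)⁻¹ * ∑ q : G ⧸ A', ((Nq A' q).index : ℝ)⁻¹, ?_, ?_⟩
  · exact Lambda_pos hcomm (Subgroup.finiteIndex_of_le (le_FCs A hAc))
  · intro S
    have hS : Stable S := stable_of_virtab S A hAc
    have t1 := ClF_tendsto S hS hcomm
    have t2 := ClN_tendsto S hS A hAc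
    have t3 := t1.add t2
    rw [add_zero] at t3
    refine tendsto_of_tendsto_of_tendsto_of_le_of_le t1 t3 ?_ ?_
    · intro n
      have hfn : (0 : ℝ) < S.f n := by exact_mod_cast S.f_pos n
      show ((ClF S n).card : ℝ) / (S.f n : ℝ) ≤ ((CL S n).card : ℝ) / (S.f n : ℝ)
      rw [div_le_div_iff_of_pos_right hfn]
      exact_mod_cast ClF_le S n
    · intro n
      have hfn : (0 : ℝ) < S.f n := by exact_mod_cast S.f_pos n
      show ((CL S n).card : ℝ) / (S.f n : ℝ) ≤
        ((ClF S n).card : ℝ) / (S.f n : ℝ) + ((ClN S n).card : ℝ) / (S.f n : ℝ)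
      rw [← add_div, div_le_div_iff_of_pos_right hfn]
      exact_mod_cast CL_le S n

end Pool.Agent.MPd0e86e
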