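import Pool.Agent.Lib.MP_d0e86e_al.GoalA2

/-!
# Virtually abelian groups: stable growth and density of subgroups
-/

open Filter Topology

namespace Pool.Agent.MPd0e86e

universe u

variable {G : Type u} [Group G]

/-- A window of length `[G : A]` contains a subword in `A`. -/
lemma exists_loop_A (A : Subgroup G) [A.FiniteIndex] (w : ℕ → G) (a : ℕ) :
    ∃ i j, a ≤ i ∧ i < j ∧ j ≤ a + A.index ∧ (w i)⁻¹ * w j ∈ A := by
  classical
  have : Fintype (G ⧸ A) := A.fintypeQuotientOfFiniteIndex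
  have hcard : (Finset.univ : Finset (G ⧸ A)).card < (Finset.range (A.index + 1)).card := by
    rw [Finset.card_univ, Finset.card_range, ← Nat.card_eq_fintype_card]
    exact Nat.lt_succ_self _
  obtain ⟨i, hi, j, hj, hij, he⟩ := Finset.exists_ne_map_eq_of_card_lt_of_maps_to hcard
    (f := fun i => (QuotientGroup.mk (w (a + i)) : G ⧸ A)) (fun i _ => Finset.mem_univ _)
  rw [Finset.mem_range] at hi hj
  rcases lt_or_gt_of_ne hij with h | h
  · exact ⟨a + i, a + j, by omega, by omega, by omega, QuotientGroup.eq.mp he⟩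
  · exact ⟨a + j, a + i, by omega, by omega, by omega, QuotientGroup.eq.mp he.symm⟩

open Classical in
/-- Sphere counting in virtually abelian groups. -/
lemma sphere_count (S : BallSys G) (A : Subgroup G) [A.Normal] [A.FiniteIndex]
    (hA : ∀ x ∈ A, ∀ y ∈ A, x * y = y * x) :
    ∃ C : ℕ, ∀ N : ℕ, ∀ᶠ n in atTop, N * (S.B (n + 1) \ S.B n).card ≤ C * S.f n := by
  have : Fintype (G ⧸ A) := A.fintypeQuotientOfFiniteIndex
  set k := A.index with hk
  have hkpos : 0 < k := Nat.pos_of_ne_zero Subgroup.FiniteIndex.index_ne_zero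
  set R : Finset G := (Finset.univ : Finset (G ⧸ A)).image Quotient.out with hR
  set Sg : Finset G := (R ×ˢ S.B k).image (fun q => q.1 * q.2 * q.1⁻¹) with hSg
  refine ⟨Sg.card, ?_⟩
  intro N
  filter_upwards [eventually_ge_atTop (Sg.card * N * k)] with n hn
  have hdiv : Sg.card * N ≤ (n + 1) / k := by
    rw [Nat.le_div_iff_mul_le hkpos]
    omega
  have hSgne : Sg.Nonempty := by
    refine ⟨_, Finset.mem_image.mpr ⟨(Quotient.out (1 : G ⧸ A), 1), ?_, rfl⟩⟩
    rw [Finset.mem_product]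
    exact ⟨Finset.mem_image_of_mem _ (Finset.mem_univ _), S.one_mem _⟩
  have hpop : ∀ g ∈ S.B (n + 1) \ S.B n, ∃ σ ∈ Sg, ∀ t ≤ N, σ⁻¹ ^ t * g ∈ S.B (n + 1 - t) := by
    intro g hg
    rw [Finset.mem_sdiff] at hg
    obtain ⟨w, hw, hwn⟩ := S.exists_path hg.1
    have hloop : ∀ s ∈ Finset.range ((n + 1) / k), ∃ σ ∈ Sg, WMatch S w k σ⁻¹ 1 s := by
      intro s hs
      obtain ⟨i, j, h1, h2, h3, h4⟩ := exists_loop_A A w (s * k)
      refine ⟨w j * (w i)⁻¹, ?_, i, j, 0, h1, h2.le, by rw [add_mul, one_mul]; exact h3,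
        by omega, ?_⟩
      · rw [hSg, Finset.mem_image]
        refine ⟨(Quotient.out (QuotientGroup.mk (w i) : G ⧸ A), (w i)⁻¹ * w j), ?_, ?_⟩
        · rw [Finset.mem_product]
          refine ⟨Finset.mem_image_of_mem _ (Finset.mem_univ _), ?_⟩
          exact S.mono' (by omega) (hw.diff h2.le)
        · simp only
          set r := Quotient.out (QuotientGroup.mk (w i) : G ⧸ A) with hr
          have hr1 : (QuotientGroup.mk r : G ⧸ A) = QuotientGroup.mk (w i) := Quotient.out_eq' _
          have hr2 : r⁻¹ * w i ∈ A := QuotientGroup.eq.mp hr1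
          have hc := hA _ hr2 _ h4
          calc r * ((w i)⁻¹ * w j) * r⁻¹
              = r * (((w i)⁻¹ * w j) * (r⁻¹ * w i)) * (w i)⁻¹ := by group
            _ = r * ((r⁻¹ * w i) * ((w i)⁻¹ * w j)) * (w i)⁻¹ := by rw [hc]
            _ = w j * (w i)⁻¹ := by group
      · have : (w i)⁻¹ * (w j * (w i)⁻¹)⁻¹ * w j = 1 := by group
        rw [this]
        exact S.one_mem 0
    choose! v hv1 hv2 using hloop
    obtain ⟨σ, hσ, hσc⟩ := Finset.exists_le_card_fiber_of_mul_le_card_of_maps_to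
      (s := Finset.range ((n + 1) / k)) (f := v) (n := N) hv1 hSgne
      (by rw [Finset.card_range]; exact hdiv)
    refine ⟨σ, hσ, ?_⟩
    intro t ht
    obtain ⟨m', hm', h⟩ := multi_end hw k σ⁻¹ 1
      ((Finset.range ((n + 1) / k)).filter (fun s => v s = σ))
      (fun s hs => by
        rw [Finset.mem_filter] at hs
        rw [← hs.2]
        exact hv2 s hs.1)
      (L := (n + 1) / k) (n := n + 1)
      (fun s hs => Finset.mem_range.mp (Finset.mem_filter.mp hs).1)
      (Nat.div_mul_le_self (n + 1) k) t (ht.trans hσc)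
    rw [hwn] at h
    exact S.mono' (by omega) h
  set Sσ : G → Finset G := fun σ =>
    (S.B (n + 1) \ S.B n).filter (fun g => ∀ t ≤ N, σ⁻¹ ^ t * g ∈ S.B (n + 1 - t)) with hSσ
  have hsub : S.B (n + 1) \ S.B n ⊆ Sg.biUnion Sσ := by
    intro g hg
    obtain ⟨σ, hσ, h⟩ := hpop g hg
    rw [Finset.mem_biUnion]
    refine ⟨σ, hσ, ?_⟩
    rw [hSσ, Finset.mem_filter]
    exact ⟨hg, h⟩
  have hone : ∀ σ ∈ Sg, N * (Sσ σ).card ≤ S.f n := by
    intro σ _
    have : (Finset.range N ×ˢ Sσ σ).card ≤ (S.B n).card := by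
      apply Finset.card_le_card_of_injOn (fun q : ℕ × G => σ⁻¹ ^ (q.1 + 1) * q.2)
      · rintro ⟨t, g⟩ hq
        rw [Finset.mem_coe, Finset.mem_product, Finset.mem_range] at hq
        obtain ⟨h1, h2⟩ := hq
        rw [hSσ, Finset.mem_filter] at h2
        have := h2.2 (t + 1) h1
        exact S.mono' (by omega) this
      · have key : ∀ t t' : ℕ, ∀ g ∈ Sσ σ, ∀ g' ∈ Sσ σ, t < t' → t' < N →
            σ⁻¹ ^ (t + 1) * g = σ⁻¹ ^ (t' + 1) * g' → False := by
          intro t t' g hg g' hg' hlt hlt' h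
          obtain ⟨d, rfl⟩ : ∃ d, t' = t + (d + 1) := ⟨t' - t - 1, by omega⟩
          rw [hSσ, Finset.mem_filter, Finset.mem_sdiff] at hg hg'
          have h2 : g = σ⁻¹ ^ (d + 1) * g' := by
            have e : σ⁻¹ ^ (t + (d + 1) + 1) = σ⁻¹ ^ (t + 1) * σ⁻¹ ^ (d + 1) := by
              rw [← pow_add]; congr 1; omega
            rw [e, mul_assoc] at h
            exact mul_left_cancel h
          apply hg.1.2
          rw [h2]
          exact S.mono' (by omega) (hg'.2 (d + 1) (by omega))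
        rintro ⟨t, g⟩ hq ⟨t', g'⟩ hq' h
        rw [Finset.mem_coe, Finset.mem_product, Finset.mem_range] at hq hq'
        simp only at hq hq' h
        rcases lt_trichotomy t t' with hlt | rfl | hgt
        · exact (key t t' g hq.2 g' hq'.2 hlt hq'.1 h).elim
        · rw [mul_left_cancel h]
        · exact (key t' t g' hq'.2 g hq.2 hgt hq.1 h.symm).elim
    rwa [Finset.card_product, Finset.card_range] at this
  calc N * (S.B (n + 1) \ S.B n).card ≤ N * ∑ σ ∈ Sg, (Sσ σ).card :=
        Nat.mul_le_mul_left _ ((Finset.card_le_card hsub).trans Finset.card_biUnion_le)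
    _ = ∑ σ ∈ Sg, N * (Sσ σ).card := by rw [Finset.mul_sum]
    _ ≤ ∑ σ ∈ Sg, S.f n := Finset.sum_le_sum hone
    _ = _ := by rw [Finset.sum_const, smul_eq_mul]

/-- Stable growth. -/
def Stable (S : BallSys G) : Prop :=
  Tendsto (fun n => (S.f (n + 1) : ℝ) / (S.f n : ℝ)) atTop (𝓝 1)

lemma stable_of_virtab (S : BallSys G) (A : Subgroup G) [A.Normal] [A.FiniteIndex]
    (hA : ∀ x ∈ A, ∀ y ∈ A, x * y = y * x) : Stable S := by
  classical
  obtain ⟨C, hC⟩ := sphere_count S A hA
  rw [Stable, Metric.tendsto_nhds]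
  intro ε hε
  obtain ⟨N, hN⟩ := exists_nat_gt ((C : ℝ) / ε)
  have hNpos : (0 : ℝ) < N := lt_of_le_of_lt (by positivity) hN
  filter_upwards [hC N] with n hn
  have hfn : (0 : ℝ) < S.f n := by exact_mod_cast S.f_pos n
  have h1 : (S.B (n + 1) \ S.B n).card = S.f (n + 1) - S.f n :=
    Finset.card_sdiff_of_subset (S.mono' (Nat.le_succ n))
  have h2 : S.f n ≤ S.f (n + 1) := S.f_mono (Nat.le_succ n)
  have h3 : (N : ℝ) * ((S.f (n + 1) : ℝ) - S.f n) ≤ C * S.f n := by
    rw [h1] at hn
    have : ((N * (S.f (n + 1) - S.f n) : ℕ) : ℝ) ≤ ((C * S.f n : ℕ) : ℝ) := by exact_mod_cast hn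
    rw [Nat.cast_mul, Nat.cast_sub h2, Nat.cast_mul] at this
    exact this
  have h2' : (S.f n : ℝ) ≤ S.f (n + 1) := by exact_mod_cast h2
  have h4 : (S.f (n + 1) : ℝ) / S.f n - 1 = ((S.f (n + 1) : ℝ) - S.f n) / S.f n := by
    field_simp
  rw [Real.dist_eq, h4, abs_of_nonneg (div_nonneg (by linarith) hfn.le), div_lt_iff₀ hfn]
  have h5 : (C : ℝ) < N * ε := by rwa [div_lt_iff₀ hε] at hN
  have h6 : (N : ℝ) * ((S.f (n + 1) : ℝ) - S.f n) < N * (ε * S.f n) := by
    calc _ ≤ C * (S.f n : ℝ) := h3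
      _ < (N * ε) * S.f n := mul_lt_mul_of_pos_right h5 hfn
      _ = _ := by ring
  exact lt_of_mul_lt_mul_left h6 hNpos.le

lemma Stable.shift {S : BallSys G} (h : Stable S) (D : ℕ) :
    Tendsto (fun n => (S.f (n + D) : ℝ) / (S.f n : ℝ)) atTop (𝓝 1) := by
  induction D with
  | zero =>
    have : (fun n => (S.f (n + 0) : ℝ) / (S.f n : ℝ)) = fun _ => 1 := by
      funext n
      have : (S.f n : ℝ) ≠ 0 := by exact_mod_cast (S.f_pos n).ne'
      rw [add_zero, div_self this]
    rw [this]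
    exact tendsto_const_nhds
  | succ D ih =>
    have h1 : Tendsto (fun n => (S.f (n + D + 1) : ℝ) / (S.f (n + D) : ℝ)) atTop (𝓝 1) :=
      (tendsto_add_atTop_iff_nat (f := fun n => (S.f (n + 1) : ℝ) / (S.f n : ℝ)) D).mpr h
    have h2 := h1.mul ih
    rw [one_mul] at h2
    refine h2.congr ?_
    intro n
    have h3 : (S.f (n + D) : ℝ) ≠ 0 := by exact_mod_cast (S.f_pos _).ne'
    rw [div_mul_div_cancel₀ h3]
    rfl

lemma Stable.shift_inv {S : BallSys G} (h : Stable S) (D : ℕ) :
    Tendsto (fun n => (S.f n : ℝ) / (S.f (n + D) : ℝ)) atTop (𝓝 1) := by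
  have := (h.shift D).inv₀ one_ne_zero
  rw [inv_one] at this
  refine this.congr ?_
  intro n
  rw [inv_div]

open Classical in
/-- The number of elements of the subgroup `K` in the ball. -/
noncomputable def cnt (S : BallSys G) (K : Subgroup G) (n : ℕ) : ℕ :=
  ((S.B n).filter (fun g => g ∈ K)).card

lemma translate_cnt (S : BallSys G) (K : Subgroup G) (T : Finset G) {D : ℕ} (hT : T ⊆ S.B D)
    (hTinj : ∀ h ∈ T, ∀ h' ∈ T, h⁻¹ * h' ∈ K → h = h') (n : ℕ) :
    T.card * cnt S K n ≤ S.f (n + D) := by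
  classical
  unfold cnt
  have : (T ×ˢ ((S.B n).filter (fun g => g ∈ K))).card ≤ (S.B (n + D)).card := by
    apply Finset.card_le_card_of_injOn (fun q : G × G => q.1 * q.2)
    · rintro ⟨h, g⟩ hq
      rw [Finset.mem_coe, Finset.mem_product, Finset.mem_filter] at hq
      exact S.mul_mem_of_le (hT hq.1) hq.2.1 (by omega)
    · rintro ⟨h, g⟩ hq ⟨h', g'⟩ hq' he
      rw [Finset.mem_coe, Finset.mem_product, Finset.mem_filter] at hq hq'
      simp only at hq hq' he
      have h3 : h = h' := by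
        apply hTinj h hq.1 h' hq'.1
        have : h⁻¹ * h' = g * g'⁻¹ := by
          have : h' = h * g * g'⁻¹ := by rw [he]; group
          rw [this]; group
        rw [this]
        exact mul_mem hq.2.2 (inv_mem hq'.2.2)
      subst h3
      rw [mul_left_cancel he]
  rwa [Finset.card_product] at this

/-- Density of subgroups in groups of stable growth. -/
lemma density (S : BallSys G) (hS : Stable S) (K : Subgroup G) :
    Tendsto (fun n => (cnt S K n : ℝ) / (S.f n : ℝ)) atTop (𝓝 ((K.index : ℝ)⁻¹)) := by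
  classical
  by_cases hK : K.FiniteIndex
  · -- finite index
    have : Fintype (G ⧸ K) := K.fintypeQuotientOfFiniteIndex
    have hq0 : K.index ≠ 0 := hK.index_ne_zero
    set q := K.index with hq
    have hqpos : (0 : ℝ) < q := by exact_mod_cast Nat.pos_of_ne_zero hq0
    set T : Finset G := (Finset.univ : Finset (G ⧸ K)).image Quotient.out with hT
    have hTc : T.card = q := by
      rw [hT, Finset.card_image_of_injective _ Quotient.out_injective, Finset.card_univ,
        ← Nat.card_eq_fintype_card]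
      rfl
    have hTinj : ∀ h ∈ T, ∀ h' ∈ T, h⁻¹ * h' ∈ K → h = h' := by
      intro h hh h' hh' hz
      rw [hT, Finset.mem_image] at hh hh'
      obtain ⟨a, _, rfl⟩ := hh
      obtain ⟨b, _, rfl⟩ := hh'
      have : (QuotientGroup.mk (Quotient.out a) : G ⧸ K) = QuotientGroup.mk (Quotient.out b) :=
        QuotientGroup.eq.mpr hz
      have ha : (QuotientGroup.mk (Quotient.out a) : G ⧸ K) = a := Quotient.out_eq' a
      have hb : (QuotientGroup.mk (Quotient.out b) : G ⧸ K) = b := Quotient.out_eq' b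
      rw [ha, hb] at this
      rw [this]
    obtain ⟨D, hD⟩ := S.exists_ball_of_finset T
    -- upper bound
    have hup : ∀ n, (q : ℝ) * cnt S K n ≤ S.f (n + D) := by
      intro n
      have := translate_cnt S K T hD hTinj n
      rw [hTc] at this
      exact_mod_cast this
    -- lower bound
    have hlow : ∀ n, (S.f n : ℝ) ≤ q * cnt S K (n + D) := by
      intro n
      have : S.B n ⊆ (T ×ˢ ((S.B (n + D)).filter (fun g => g ∈ K))).image (fun p => p.1 * p.2) := by
        intro g hg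
        rw [Finset.mem_image]
        set t := Quotient.out (QuotientGroup.mk g : G ⧸ K) with ht
        have ht1 : (QuotientGroup.mk t : G ⧸ K) = QuotientGroup.mk g := Quotient.out_eq' _
        have ht2 : t⁻¹ * g ∈ K := QuotientGroup.eq.mp ht1
        have htT : t ∈ T := Finset.mem_image_of_mem _ (Finset.mem_univ _)
        refine ⟨(t, t⁻¹ * g), ?_, by simp⟩
        rw [Finset.mem_product, Finset.mem_filter]
        exact ⟨htT, S.mul_mem_of_le (S.inv_mem (hD htT)) hg (by omega), ht2⟩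
      have h2 := (Finset.card_le_card this).trans Finset.card_image_le
      rw [Finset.card_product, hTc] at h2
      exact_mod_cast h2
    have hup' : ∀ n, (cnt S K n : ℝ) / S.f n ≤ (q : ℝ)⁻¹ * ((S.f (n + D) : ℝ) / S.f n) := by
      intro n
      have hfn : (0 : ℝ) < S.f n := by exact_mod_cast S.f_pos n
      rw [inv_mul_eq_div, div_div, div_le_div_iff₀ hfn (by positivity)]
      have := mul_le_mul_of_nonneg_right (hup n) hfn.le
      linarith
    have hlow' : ∀ n, (q : ℝ)⁻¹ * ((S.f n : ℝ) / S.f (n + D)) ≤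
        (cnt S K (n + D) : ℝ) / S.f (n + D) := by
      intro n
      have hfn : (0 : ℝ) < S.f (n + D) := by exact_mod_cast S.f_pos _
      rw [inv_mul_eq_div, div_div, div_le_div_iff₀ (by positivity) hfn]
      have := mul_le_mul_of_nonneg_right (hlow n) hfn.le
      linarith
    have t1 : Tendsto (fun n => (q : ℝ)⁻¹ * ((S.f (n + D) : ℝ) / S.f n)) atTop (𝓝 ((q : ℝ)⁻¹)) := by
      have := (hS.shift D).const_mul ((q : ℝ)⁻¹)
      rwa [mul_one] at this
    have t2 : Tendsto (fun n => (q : ℝ)⁻¹ * ((S.f n : ℝ) / S.f (n + D))) atTop (𝓝 ((q : ℝ)⁻¹)) := by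
      have := (hS.shift_inv D).const_mul ((q : ℝ)⁻¹)
      rwa [mul_one] at this
    rw [← tendsto_add_atTop_iff_nat D]
    refine tendsto_of_tendsto_of_tendsto_of_le_of_le t2
      ((tendsto_add_atTop_iff_nat D).mpr t1) (fun n => hlow' n) (fun n => hup' (n + D))
  · -- infinite index
    have hidx : K.index = 0 := by
      by_contra h0
      exact hK ⟨h0⟩
    rw [hidx, Nat.cast_zero, inv_zero, Metric.tendsto_nhds]
    intro ε hε
    obtain ⟨N, hN⟩ := exists_nat_gt (2 / ε)
    have hNpos : (0 : ℝ) < N := lt_of_le_of_lt (by positivity) hN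
    obtain ⟨T, hTc, hTinj⟩ := exists_transversal K hK N
    obtain ⟨D, hD⟩ := S.exists_ball_of_finset T
    have h2 : ∀ᶠ n in atTop, (S.f (n + D) : ℝ) / S.f n < 2 :=
      (hS.shift D).eventually (gt_mem_nhds (by norm_num))
    filter_upwards [h2] with n hn
    have hfn : (0 : ℝ) < S.f n := by exact_mod_cast S.f_pos n
    have h3 := translate_cnt S K T hD hTinj n
    rw [hTc] at h3
    have h4 : (N : ℝ) * cnt S K n ≤ S.f (n + D) := by exact_mod_cast h3
    rw [Real.dist_eq, sub_zero, abs_of_nonneg (by positivity)]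
    rw [div_lt_iff₀ hfn] at hn ⊢
    rw [div_lt_iff₀ hε] at hN
    have h5 : (N : ℝ) * cnt S K n < N * (ε * S.f n) := by
      calc (N : ℝ) * cnt S K n ≤ S.f (n + D) := h4
        _ < 2 * S.f n := hn
        _ < (N * ε) * S.f n := mul_lt_mul_of_pos_right hN hfn
        _ = _ := by ring
    exact lt_of_mul_lt_mul_left h5 hNpos.le

end Pool.Agent.MPd0e86e
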