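import Pool.Agent.Lib.MP_d0e86e_al.Defs

/-!
# Replacing and deleting subwords in many disjoint windows
-/

namespace Pool.Agent.MPd0e86e

universe u

variable {G : Type u} [Group G] {S : BallSys G}

/-- In the window `[s k, (s+1) k]` there is a subword that can be changed, multiplying the
whole prefix product on the left by `z`, with a gain of at least `e` letters. -/
def WMatch (S : BallSys G) (w : ℕ → G) (k : ℕ) (z : G) (e : ℕ) (s : ℕ) : Prop :=
  ∃ i j m, s * k ≤ i ∧ i ≤ j ∧ j ≤ (s + 1) * k ∧ m + e ≤ j - i ∧ (w i)⁻¹ * z * w j ∈ S.B m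

lemma multi_prefixes {w : ℕ → G} (hw : S.IsPath w) (k : ℕ) (z : G) (e : ℕ) (T : Finset ℕ)
    (hT : ∀ s ∈ T, WMatch S w k z e s) (s : ℕ) :
    ∀ t, t ≤ (T.filter (· < s)).card → ∃ m, m + e * t ≤ s * k ∧ z ^ t * w (s * k) ∈ S.B m := by
  induction s with
  | zero =>
    intro t ht
    have : t = 0 := by simpa using ht
    subst this
    exact ⟨0, by simp, by simpa [hw.zero] using S.one_mem 0⟩
  | succ s ih =>
    intro t ht
    by_cases h : t ≤ (T.filter (· < s)).card
    · obtain ⟨m, hm, hz⟩ := ih t h
      have h1 : s * k ≤ (s + 1) * k := Nat.mul_le_mul_right _ (Nat.le_succ s)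
      have h2 := hw.diff h1
      have h3 : (s + 1) * k - s * k = k := by rw [add_mul, one_mul]; omega
      rw [h3] at h2
      refine ⟨m + k, by rw [add_mul, one_mul]; omega, ?_⟩
      have := S.mul_mem hz h2
      rwa [mul_assoc, mul_inv_cancel_left] at this
    · have hs : s ∈ T := by
        by_contra hs
        apply h
        refine ht.trans (Finset.card_le_card ?_)
        intro x hx
        rw [Finset.mem_filter] at hx ⊢
        refine ⟨hx.1, ?_⟩
        have : x ≠ s := fun h => hs (h ▸ hx.1)
        omega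
      have hc : (T.filter (· < s + 1)).card ≤ (T.filter (· < s)).card + 1 := by
        have : T.filter (· < s + 1) ⊆ insert s (T.filter (· < s)) := by
          intro x hx
          rw [Finset.mem_filter] at hx
          rw [Finset.mem_insert, Finset.mem_filter]
          by_cases hxs : x = s
          · exact Or.inl hxs
          · exact Or.inr ⟨hx.1, by omega⟩
        exact (Finset.card_le_card this).trans (Finset.card_insert_le _ _)
      obtain ⟨t', rfl⟩ : ∃ t', t = t' + 1 := ⟨t - 1, by omega⟩
      obtain ⟨m, hm, hz⟩ := ih t' (by omega)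
      obtain ⟨i, j, m', h1, h2, h3, h4, h5⟩ := hT s hs
      have d1 := hw.diff h1
      have d2 := hw.diff h3
      have := S.mul_mem (S.mul_mem (S.mul_mem hz d1) h5) d2
      refine ⟨m + (i - s * k) + m' + ((s + 1) * k - j), ?_, ?_⟩
      · rw [mul_add, mul_one]; omega
      · have e1 : z ^ t' * w (s * k) * ((w (s * k))⁻¹ * w i) * ((w i)⁻¹ * z * w j) *
            ((w j)⁻¹ * w ((s + 1) * k)) = z ^ (t' + 1) * w ((s + 1) * k) := by
          rw [pow_succ]; group
        rwa [e1] at this

/-- The same for the endpoint of the path. -/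
lemma multi_end {w : ℕ → G} (hw : S.IsPath w) (k : ℕ) (z : G) (e : ℕ) (T : Finset ℕ)
    (hT : ∀ s ∈ T, WMatch S w k z e s) {L n : ℕ} (hTL : ∀ s ∈ T, s < L) (hLn : L * k ≤ n)
    (t : ℕ) (ht : t ≤ T.card) : ∃ m, m + e * t ≤ n ∧ z ^ t * w n ∈ S.B m := by
  have hf : T.filter (· < L) = T := Finset.filter_true_of_mem hTL
  obtain ⟨m, hm, hz⟩ := multi_prefixes hw k z e T hT L t (by rwa [hf])
  refine ⟨m + (n - L * k), by omega, ?_⟩
  have := S.mul_mem hz (hw.diff hLn)
  rwa [mul_assoc, mul_inv_cancel_left] at this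

/-- Existence of a matching window with exactly enough matching windows before it. -/
lemma exists_last (T : Finset ℕ) (t : ℕ) (ht : t + 1 ≤ T.card) :
    ∃ s ∈ T, t ≤ (T.filter (· < s)).card := by
  have hne : T.Nonempty := Finset.card_pos.mp (by omega)
  refine ⟨T.max' hne, T.max'_mem hne, ?_⟩
  have : T.erase (T.max' hne) ⊆ T.filter (· < T.max' hne) := by
    intro x hx
    rw [Finset.mem_erase] at hx
    rw [Finset.mem_filter]
    exact ⟨hx.2, lt_of_le_of_ne (T.le_max' x hx.2) hx.1⟩
  have h2 := Finset.card_le_card this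
  rw [Finset.card_erase_of_mem (T.max'_mem hne)] at h2
  omega

end Pool.Agent.MPd0e86e
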