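import Pool.Agent.Lib.MP_d0e86e_al.Types

/-!
# The run lemma
-/

namespace Pool.Agent.MPd0e86e

universe u

variable {G : Type u} [Group G]

/-- A path `w` for `g` together with bounded elements `p i` such that the elements
`w i * (p i)⁻¹` lie in `H`, and `g` is central in `H`. -/
structure Cert (S : BallSys G) (H : Subgroup G) (M n : ℕ) (g : G) (w p : ℕ → G) : Prop where
  path : S.IsPath w
  wn : w n = g
  pM : ∀ i ≤ n, p i ∈ S.B M
  p0 : p 0 = 1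
  wp : ∀ i ≤ n, w i * (p i)⁻¹ ∈ H
  gZ : g ∈ ZZ H

/-- In the window `s`, the part of length `j` at the beginning is `x`, from `a` to `b`. -/
def TM (w p : ℕ → G) (k j : ℕ) (a x b : G) (s : ℕ) : Prop :=
  p (s * k) = a ∧ p (s * k + j) = b ∧ (w (s * k))⁻¹ * w (s * k + j) = x

open Classical in
/-- The windows with a given labelled initial part. -/
noncomputable def TT (w p : ℕ → G) (n k j : ℕ) (a x b : G) : Finset ℕ :=
  (Finset.range (n / k)).filter (fun s => TM w p k j a x b s)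

lemma win_le {n k s : ℕ} (hs : s < n / k) : (s + 1) * k ≤ n :=
  (Nat.mul_le_mul_right k hs).trans (Nat.div_mul_le_self n k)

variable {S : BallSys G} {H : Subgroup G} {M n : ℕ}

lemma mem_TT {w p : ℕ → G} {n k j : ℕ} {a x b : G} {s : ℕ} :
    s ∈ TT w p n k j a x b ↔ s < n / k ∧ TM w p k j a x b s := by
  classical
  rw [TT, Finset.mem_filter, Finset.mem_range]

lemma wmatch_of_TM {g : G} {w p : ℕ → G} (hC : Cert S H M n g w p) {k j : ℕ} (hj : j ≤ k)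
    {a b x x' : G} (hx' : x' ∈ S.B j) (hz : b * x⁻¹ * x' * b⁻¹ ∈ ZZ H) {s : ℕ}
    (hs : s ∈ TT w p n k j a x b) : WMatch S w k (b * x⁻¹ * x' * b⁻¹) 0 s := by
  rw [mem_TT] at hs
  obtain ⟨hs1, ha, hb, hx⟩ := hs
  have hle := win_le hs1
  have h1 : s * k + j ≤ (s + 1) * k := by rw [add_mul, one_mul]; omega
  refine ⟨s * k, s * k + j, j, le_rfl, Nat.le_add_right _ _, h1, by omega, ?_⟩
  have hH := hC.wp (s * k + j) (h1.trans hle)
  rw [hb] at hH
  have hcomm := ZZ_comm hz hH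
  have : (w (s * k))⁻¹ * (b * x⁻¹ * x' * b⁻¹) * w (s * k + j) = x' := by
    calc (w (s * k))⁻¹ * (b * x⁻¹ * x' * b⁻¹) * w (s * k + j)
        = (w (s * k))⁻¹ * ((b * x⁻¹ * x' * b⁻¹) * (w (s * k + j) * b⁻¹)) * b := by group
      _ = (w (s * k))⁻¹ * ((w (s * k + j) * b⁻¹) * (b * x⁻¹ * x' * b⁻¹)) * b := by rw [hcomm]
      _ = ((w (s * k))⁻¹ * w (s * k + j)) * x⁻¹ * x' := by group
      _ = x' := by rw [hx]; group
  rw [this]
  exact hx'

lemma run_mem {g : G} {w p : ℕ → G} (hC : Cert S H M n g w p) {k j : ℕ} (hj : j ≤ k)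
    {a b x x' : G} (hx' : x' ∈ S.B j) (hz : b * x⁻¹ * x' * b⁻¹ ∈ ZZ H) {t : ℕ}
    (ht : t ≤ (TT w p n k j a x b).card) :
    (b * x⁻¹ * x' * b⁻¹) ^ t * g ∈ S.B n := by
  obtain ⟨m, hm, h⟩ := multi_end hC.path k (b * x⁻¹ * x' * b⁻¹) 0 (TT w p n k j a x b)
    (fun s hs => wmatch_of_TM hC hj hx' hz hs) (L := n / k) (n := n)
    (fun s hs => (mem_TT.mp hs).1) (Nat.div_mul_le_self n k) t ht
  rw [hC.wn] at h
  exact S.mono' (by omega) h

lemma run_good {g : G} {w p : ℕ → G} (hC : Cert S H M n g w p) {k j : ℕ} (hj : j ≤ k)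
    {a b x x' : G} (hx' : x' ∈ S.B j) (hz : b * x⁻¹ * x' * b⁻¹ ∈ ZZ H) {t : ℕ}
    (ht : t + 1 ≤ (TT w p n k j a x b).card) :
    x'⁻¹ * a⁻¹ * ((b * x⁻¹ * x' * b⁻¹) ^ (t + 1) * g) * a ∈ S.B n := by
  obtain ⟨s, hs, hts⟩ := exists_last _ t ht
  obtain ⟨m, hm, h⟩ := multi_prefixes hC.path k (b * x⁻¹ * x' * b⁻¹) 0 (TT w p n k j a x b)
    (fun s hs => wmatch_of_TM hC hj hx' hz hs) s t hts
  rw [mem_TT] at hs
  obtain ⟨hs1, ha, hb, hx⟩ := hs
  have hle := win_le hs1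
  have h1 : s * k + j ≤ (s + 1) * k := by rw [add_mul, one_mul]; omega
  have hH1 := hC.wp (s * k + j) (h1.trans hle)
  have hH0 := hC.wp (s * k) (by omega)
  rw [hb] at hH1
  rw [ha] at hH0
  have h2 := hC.path.diff (h1.trans hle)
  have h3 := S.mul_mem h2 h
  rw [hC.wn] at h3
  set z := b * x⁻¹ * x' * b⁻¹ with hzdef
  -- notation
  set h0 := w (s * k) * a⁻¹ with hh0
  have hw0 : w (s * k) = h0 * a := by rw [hh0]; group
  have hwj : w (s * k + j) = h0 * a * x := by rw [← hw0, ← hx]; group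
  have hη : a * x * b⁻¹ ∈ H := by
    have : a * x * b⁻¹ = h0⁻¹ * (w (s * k + j) * b⁻¹) := by rw [hwj]; group
    rw [this]
    exact mul_mem (inv_mem hH0) hH1
  have hzη := ZZ_comm hz hη
  have hz0 : z ^ t * h0 = h0 * z ^ t := ZZ_comm (pow_mem hz t) hH0
  have hg0 : g * h0 = h0 * g := ZZ_comm hC.gZ hH0
  have hgz : g * z ^ t = z ^ t * g := ZZ_comm hC.gZ (ZZ_le H (pow_mem hz t))
  have key : (w (s * k + j))⁻¹ * g * (z ^ t * w (s * k)) =
      x'⁻¹ * a⁻¹ * (z ^ (t + 1) * g) * a := by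
    have e1 : x'⁻¹ * a⁻¹ * z = x⁻¹ * a⁻¹ := by
      have : z * (a * x * b⁻¹) = a * x' * b⁻¹ := by
        rw [hzη, hzdef]; group
      have h4 : z * a * x = a * x' := by
        have := congrArg (· * b) this
        simpa [mul_assoc] using this
      have h5 : x'⁻¹ * a⁻¹ * z * (a * x) = 1 := by
        calc x'⁻¹ * a⁻¹ * z * (a * x) = x'⁻¹ * a⁻¹ * (z * a * x) := by group
          _ = 1 := by rw [h4]; group
      calc x'⁻¹ * a⁻¹ * z = x'⁻¹ * a⁻¹ * z * (a * x) * (x⁻¹ * a⁻¹) := by group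
        _ = x⁻¹ * a⁻¹ := by rw [h5, one_mul]
    calc (w (s * k + j))⁻¹ * g * (z ^ t * w (s * k))
        = x⁻¹ * a⁻¹ * (h0⁻¹ * (g * (z ^ t * h0))) * a := by rw [hwj, hw0]; group
      _ = x⁻¹ * a⁻¹ * (h0⁻¹ * (g * (h0 * z ^ t))) * a := by rw [hz0]
      _ = x⁻¹ * a⁻¹ * (h0⁻¹ * ((g * h0) * z ^ t)) * a := by group
      _ = x⁻¹ * a⁻¹ * (h0⁻¹ * ((h0 * g) * z ^ t)) * a := by rw [hg0]
      _ = x⁻¹ * a⁻¹ * (g * z ^ t) * a := by group
      _ = x'⁻¹ * a⁻¹ * z * (z ^ t * g) * a := by rw [← e1, hgz]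
      _ = x'⁻¹ * a⁻¹ * (z ^ (t + 1) * g) * a := by rw [pow_succ']; group
  rw [key] at h3
  exact S.mono' (by omega) h3

open Classical in
/-- The run lemma: few elements are bad for a given replacement. -/
lemma run_lemma (𝒢 : Finset G) (W P : G → ℕ → G) (hC : ∀ g ∈ 𝒢, Cert S H M n g (W g) (P g))
    {k j : ℕ} (hj : j ≤ k) {a b x x' : G} (hx' : x' ∈ S.B j)
    (hz : b * x⁻¹ * x' * b⁻¹ ∈ ZZ H) (m : ℕ) :
    (m + 1) * (𝒢.filter (fun g => m ≤ (TT (W g) (P g) n k j a x b).card ∧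
      x'⁻¹ * a⁻¹ * g * a ∉ S.B n)).card ≤ S.f n := by
  set z := b * x⁻¹ * x' * b⁻¹ with hzdef
  set Bad := 𝒢.filter (fun g => m ≤ (TT (W g) (P g) n k j a x b).card ∧
      x'⁻¹ * a⁻¹ * g * a ∉ S.B n) with hBad
  have key : ∀ g ∈ Bad, ∀ g' ∈ Bad, ∀ t t' : ℕ, t ≤ m → t' < t → z ^ t * g = z ^ t' * g' →
      False := by
    intro g hg g' hg' t t' ht htt h
    rw [hBad, Finset.mem_filter] at hg hg'
    obtain ⟨d, rfl⟩ : ∃ d, t = t' + (d + 1) := ⟨t - t' - 1, by omega⟩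
    have h2 : g' = z ^ (d + 1) * g := by
      rw [pow_add, mul_assoc] at h
      exact (mul_left_cancel h).symm
    apply hg'.2.2
    rw [h2]
    exact run_good (hC g hg.1) hj hx' hz (by omega)
  have hinj : Set.InjOn (fun q : ℕ × G => z ^ q.1 * q.2)
      ((Finset.range (m + 1) ×ˢ Bad : Finset (ℕ × G)) : Set (ℕ × G)) := by
    rintro ⟨t, g⟩ h1 ⟨t', g'⟩ h2 h
    rw [Finset.mem_coe, Finset.mem_product, Finset.mem_range] at h1 h2
    simp only at h1 h2 h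
    rcases lt_trichotomy t t' with hlt | rfl | hgt
    · exact (key g' h2.2 g h1.2 t' t (by omega) hlt h.symm).elim
    · rw [mul_left_cancel h]
    · exact (key g h1.2 g' h2.2 t t' (by omega) hgt h).elim
  have hmaps : ∀ q ∈ (Finset.range (m + 1) ×ˢ Bad : Finset (ℕ × G)),
      (fun q : ℕ × G => z ^ q.1 * q.2) q ∈ S.B n := by
    rintro ⟨t, g⟩ h1
    rw [Finset.mem_product, Finset.mem_range] at h1
    obtain ⟨h1, h2⟩ := h1
    rw [hBad, Finset.mem_filter] at h2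
    exact run_mem (hC g h2.1) hj hx' hz (le_trans (Nat.lt_succ_iff.mp h1) h2.2.1)
  have := Finset.card_le_card_of_injOn _ hmaps hinj
  rwa [Finset.card_product, Finset.card_range] at this

end Pool.Agent.MPd0e86e
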