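import Pool.Agent.Lib.MP_d0e86e_al.Common

/-!
# The case of subexponential growth
-/

namespace Pool.Agent.MPd0e86e

universe u

variable {G : Type u} [Group G]

/-- No subword (starting after the first letter) of the window is a central loop. -/
def RigidW (H : Subgroup G) (w p : ℕ → G) (k s : ℕ) : Prop :=
  ∀ j j', 1 ≤ j → j < j' → j' ≤ k → p (s * k + j) = p (s * k + j') →
    p (s * k + j) * ((w (s * k + j))⁻¹ * w (s * k + j')) * (p (s * k + j))⁻¹ ∉ ZZ H

/-- Some frequent window is rigid. -/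
def HasRigid (H : Subgroup G) (n k m : ℕ) (w p : ℕ → G) : Prop :=
  ∃ s < n / k, (∀ j, 1 ≤ j → j ≤ k → s ∉ InfW w p n k m j) ∧ RigidW H w p k s

variable {S : BallSys G} {H : Subgroup G} {M n : ℕ}

open Classical in
/-- Elements with a rigid frequent window are few. -/
lemma rigid_count (𝒢 : Finset G) (W P : G → ℕ → G)
    (hC : ∀ g ∈ 𝒢, Cert S H M n g (W g) (P g)) (k m : ℕ)
    (hgood : ∀ g ∈ 𝒢, GoodEl S H M n k m g (W g) (P g))
    (hrig : ∀ g ∈ 𝒢, ∃ s < n / k, (∀ j, 1 ≤ j → j ≤ k → s ∉ InfW (W g) (P g) n k m j) ∧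
      RigidW H (W g) (P g) k s) :
    (k : ℝ) * (𝒢.card : ℝ) ≤ (S.f M : ℝ) ^ 2 * S.f n * (1 + Real.log (S.f k : ℝ)) := by
  choose! s hs1 hs2 hs3 using hrig
  set I : G → Finset (G × G × G) := fun g => (Finset.Icc 1 k).image (fun j =>
    (P g (s g * k), (W g (s g * k))⁻¹ * W g (s g * k + j), P g (s g * k + j))) with hI
  have hdiff : ∀ g j j', (((W g (s g * k))⁻¹ * W g (s g * k + j))⁻¹ *
      ((W g (s g * k))⁻¹ * W g (s g * k + j'))) = (W g (s g * k + j))⁻¹ * W g (s g * k + j') := by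
    intro g j j'; group
  have hcard : ∀ g ∈ 𝒢, (I g).card = k := by
    intro g hg
    rw [hI]
    simp only
    rw [Finset.card_image_of_injOn, Nat.card_Icc, Nat.add_sub_cancel]
    intro j hj j' hj' h
    rw [Finset.mem_coe, Finset.mem_Icc] at hj hj'
    simp only [Prod.mk.injEq, true_and] at h
    by_contra hne
    have aux : ∀ j j', 1 ≤ j → j < j' → j' ≤ k →
        (W g (s g * k))⁻¹ * W g (s g * k + j) = (W g (s g * k))⁻¹ * W g (s g * k + j') →
        P g (s g * k + j) = P g (s g * k + j') → False := by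
      intro j j' h1 h2 h3 h4 h5
      apply hs3 g hg j j' h1 h2 h3 h5
      have := mul_left_cancel h4
      rw [this]
      have e : P g (s g * k + j) * ((W g (s g * k + j'))⁻¹ * W g (s g * k + j')) *
          (P g (s g * k + j))⁻¹ = 1 := by group
      rw [e]
      exact one_mem _
    rcases lt_or_gt_of_ne hne with hlt | hgt
    · exact aux j j' hj.1 hlt hj'.2 h.1 h.2
    · exact aux j' j hj'.1 hgt hj.2 h.1.symm h.2.symm
  have hmain := dc S H M k n 𝒢 I (fun g hg => (hC g hg).gZ) ?_ ?_ ?_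
  · have h1 : ∑ g ∈ 𝒢, ((I g).card : ℝ) = (k : ℝ) * (𝒢.card : ℝ) := by
      rw [Finset.sum_congr rfl (fun g hg => by rw [hcard g hg]), Finset.sum_const, nsmul_eq_mul,
        mul_comm]
    rwa [h1] at hmain
  · -- membership
    intro g hg τ hτ
    rw [hI, Finset.mem_image] at hτ
    obtain ⟨j, hj, rfl⟩ := hτ
    rw [Finset.mem_Icc] at hj
    have hle := win_le (hs1 g hg)
    have h1 : s g * k + j ≤ (s g + 1) * k := by rw [add_mul, one_mul]; omega
    have hc := hC g hg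
    refine ⟨hc.pM _ (by omega), ?_, hc.pM _ (by omega), ?_⟩
    · have := hc.path.diff (Nat.le_add_right (s g * k) j)
      exact S.mono' (by omega) this
    · have h2 := hc.wp (s g * k) (by omega)
      have h3 := hc.wp (s g * k + j) (by omega)
      have := mul_mem (inv_mem h2) h3
      have e : (W g (s g * k) * (P g (s g * k))⁻¹)⁻¹ *
          (W g (s g * k + j) * (P g (s g * k + j))⁻¹) =
          P g (s g * k) * ((W g (s g * k))⁻¹ * W g (s g * k + j)) * (P g (s g * k + j))⁻¹ := by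
        group
      rwa [e] at this
  · -- goodness
    intro g hg τ hτ x' hx' hz
    rw [hI, Finset.mem_image] at hτ
    obtain ⟨j, hj, rfl⟩ := hτ
    rw [Finset.mem_Icc] at hj
    have hle := win_le (hs1 g hg)
    have h1 : s g * k + j ≤ (s g + 1) * k := by rw [add_mul, one_mul]; omega
    have hc := hC g hg
    simp only at hx' hz ⊢
    have hxj : (W g (s g * k))⁻¹ * W g (s g * k + j) ∈ S.B j := by
      have := hc.path.diff (Nat.le_add_right (s g * k) j)
      exact S.mono' (by omega) this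
    have hx'j : x' ∈ S.B j := S.mono' (S.wl_le hxj) hx'
    refine hgood g hg _ (hc.pM _ (by omega)) _ (hc.pM _ (by omega)) _
      (S.mono' hj.2 hxj) j hj.2 x' hx'j hz ?_
    have h5 := hs2 g hg j hj.1 hj.2
    rw [InfW, Finset.mem_filter, Finset.mem_range] at h5
    by_contra h6
    exact h5 ⟨hs1 g hg, by omega⟩
  · -- distinct classes
    intro g hg τ hτ τ' hτ' h1 h2 h3
    rw [hI, Finset.mem_image] at hτ hτ'
    obtain ⟨j, hj, rfl⟩ := hτ
    obtain ⟨j', hj', rfl⟩ := hτ'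
    rw [Finset.mem_Icc] at hj hj'
    simp only at h1 h2 h3
    rcases lt_trichotomy j j' with hlt | rfl | hgt
    · exfalso
      apply hs3 g hg j j' hj.1 hlt hj'.2 h2
      have e : P g (s g * k + j) * ((W g (s g * k))⁻¹ * W g (s g * k + j))⁻¹ *
          ((W g (s g * k))⁻¹ * W g (s g * k + j')) * (P g (s g * k + j))⁻¹ =
          P g (s g * k + j) * ((W g (s g * k + j))⁻¹ * W g (s g * k + j')) *
          (P g (s g * k + j))⁻¹ := by group
      rwa [e] at h3
    · rfl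
    · exfalso
      apply hs3 g hg j' j hj'.1 hgt hj.2 h2.symm
      have h4 := inv_mem h3
      rw [h2] at h4
      have e : (P g (s g * k + j') * ((W g (s g * k))⁻¹ * W g (s g * k + j))⁻¹ *
          ((W g (s g * k))⁻¹ * W g (s g * k + j')) * (P g (s g * k + j'))⁻¹)⁻¹ =
          P g (s g * k + j') * ((W g (s g * k + j'))⁻¹ * W g (s g * k + j)) *
          (P g (s g * k + j'))⁻¹ := by group
      rwa [e] at h4

open Classical in
/-- the possible values of central loops -/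
noncomputable def Sig (S : BallSys G) (H : Subgroup G) (M k : ℕ) : Finset G :=
  (S.B (2 * M + k)).filter (fun σ => σ ∈ ZZ H)

lemma loop_of_not_rigid {g : G} {w p : ℕ → G} (hC : Cert S H M n g w p) {k s : ℕ}
    (hs : s < n / k) (hr : ¬ RigidW H w p k s) :
    ∃ σ ∈ Sig S H M k, WMatch S w k σ⁻¹ 1 s := by
  classical
  unfold RigidW at hr
  push Not at hr
  obtain ⟨j, j', h1, h2, h3, h4, h5⟩ := hr
  have hle := win_le hs
  have h6 : s * k + j' ≤ (s + 1) * k := by rw [add_mul, one_mul]; omega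
  set i := s * k + j with hi
  set i' := s * k + j' with hi'
  have hii : i ≤ i' := by omega
  have hH1 := hC.wp i (by omega)
  have hH2 := hC.wp i' (by omega)
  rw [← h4] at hH2
  have hc := ZZ_comm h5 hH1
  have e0 : w i' * (w i)⁻¹ = p i * ((w i)⁻¹ * w i') * (p i)⁻¹ := by
    calc w i' * (w i)⁻¹ = (w i * (p i)⁻¹) * (p i * ((w i)⁻¹ * w i') * (p i)⁻¹) *
          (w i * (p i)⁻¹)⁻¹ := by group
      _ = (p i * ((w i)⁻¹ * w i') * (p i)⁻¹) * (w i * (p i)⁻¹) * (w i * (p i)⁻¹)⁻¹ := by rw [hc]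
      _ = p i * ((w i)⁻¹ * w i') * (p i)⁻¹ := by group
  refine ⟨w i' * (w i)⁻¹, ?_, i, i', 0, by omega, hii, h6, by omega, ?_⟩
  · rw [Sig, Finset.mem_filter, e0]
    refine ⟨?_, h5⟩
    exact S.mul_mem_of_le (S.mul_mem (hC.pM i (by omega)) (hC.path.diff hii))
      (S.inv_mem (hC.pM i (by omega))) (by omega)
  · have : (w i)⁻¹ * (w i' * (w i)⁻¹)⁻¹ * w i' = 1 := by group
    rw [this]
    exact S.one_mem 0

open Classical in
/-- The translation argument. -/
lemma translate_count (𝒢 : Finset G) (hgZ : ∀ g ∈ 𝒢, g ∈ ZZ H) (σ : G) (hσ : σ ∈ ZZ H) {D n : ℕ}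
    (hD : D ≤ n) (hσg : ∀ g ∈ 𝒢, σ⁻¹ ^ D * g ∈ S.B (n - D)) (T : Finset G) (hT : T ⊆ S.B D)
    (hTinj : ∀ h ∈ T, ∀ h' ∈ T, h⁻¹ * h' ∈ ZZ H → h = h') :
    T.card * 𝒢.card ≤ S.f n := by
  have : (T ×ˢ 𝒢).card ≤ (S.B n).card := by
    apply Finset.card_le_card_of_injOn (fun q : G × G => q.1 * (σ⁻¹ ^ D * q.2))
    · rintro ⟨h, g⟩ hq
      rw [Finset.mem_coe, Finset.mem_product] at hq
      exact S.mul_mem_of_le (hT hq.1) (hσg g hq.2) (by omega)
    · rintro ⟨h, g⟩ hq ⟨h', g'⟩ hq' he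
      rw [Finset.mem_coe, Finset.mem_product] at hq hq'
      simp only at hq hq' he
      have h1 : σ⁻¹ ^ D ∈ ZZ H := pow_mem (inv_mem hσ) D
      have h2 : h⁻¹ * h' = (σ⁻¹ ^ D * g) * (σ⁻¹ ^ D * g')⁻¹ := by
        have : h' = h * (σ⁻¹ ^ D * g) * (σ⁻¹ ^ D * g')⁻¹ := by rw [he]; group
        rw [this]; group
      have h3 : h = h' := by
        apply hTinj h hq.1 h' hq'.1
        rw [h2]
        exact mul_mem (mul_mem h1 (hgZ g hq.2)) (inv_mem (mul_mem h1 (hgZ g' hq'.2)))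
      subst h3
      have h4 := mul_left_cancel (mul_left_cancel he)
      rw [h4]
  rwa [Finset.card_product] at this

open Classical in
/-- Counting the elements all of whose frequent windows are not rigid. -/
lemma nonrigid_count (𝒢 : Finset G) (W P : G → ℕ → G)
    (hC : ∀ g ∈ 𝒢, Cert S H M n g (W g) (P g)) (k m D : ℕ) (hDn : D ≤ n)
    (hnr : ∀ g ∈ 𝒢, ∀ s < n / k, (∀ j, 1 ≤ j → j ≤ k → s ∉ InfW (W g) (P g) n k m j) →
      ¬ RigidW H (W g) (P g) k s)
    (hn : (Sig S H M k).card * D + k * ((S.f M * S.f k * S.f M) * m) ≤ n / k)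
    (T : Finset G) (hT : T ⊆ S.B D) (hTinj : ∀ h ∈ T, ∀ h' ∈ T, h⁻¹ * h' ∈ ZZ H → h = h') :
    T.card * 𝒢.card ≤ (Sig S H M k).card * S.f n := by
  -- each g has a popular loop value
  have hpop : ∀ g ∈ 𝒢, ∃ σ ∈ Sig S H M k, σ⁻¹ ^ D * g ∈ S.B (n - D) := by
    intro g hg
    have hc := hC g hg
    set Inf : Finset ℕ := (Finset.Icc 1 k).biUnion (fun j => InfW (W g) (P g) n k m j) with hInf
    have hInfc : Inf.card ≤ k * ((S.f M * S.f k * S.f M) * m) := by
      have := Finset.card_biUnion_le_card_mul (Finset.Icc 1 k)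
        (fun j => InfW (W g) (P g) n k m j) ((S.f M * S.f k * S.f M) * m)
        (fun j hj => infw_card hc (Finset.mem_Icc.mp hj).2 m)
      rwa [Nat.card_Icc, Nat.add_sub_cancel] at this
    set Fr : Finset ℕ := (Finset.range (n / k)) \ Inf with hFr
    have hFrc : (Sig S H M k).card * D ≤ Fr.card := by
      have h1 := Finset.le_card_sdiff Inf (Finset.range (n / k))
      rw [Finset.card_range] at h1
      rw [hFr]
      omega
    have hloop : ∀ s ∈ Fr, ∃ σ ∈ Sig S H M k, WMatch S (W g) k σ⁻¹ 1 s := by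
      intro s hs
      rw [hFr, Finset.mem_sdiff, Finset.mem_range] at hs
      apply loop_of_not_rigid hc hs.1
      apply hnr g hg s hs.1
      intro j h1 h2 h3
      apply hs.2
      rw [hInf, Finset.mem_biUnion]
      exact ⟨j, Finset.mem_Icc.mpr ⟨h1, h2⟩, h3⟩
    choose! v hv1 hv2 using hloop
    have hSne : (Sig S H M k).Nonempty := by
      refine ⟨1, ?_⟩
      rw [Sig, Finset.mem_filter]
      exact ⟨S.one_mem _, one_mem _⟩
    obtain ⟨σ, hσ, hσc⟩ := Finset.exists_le_card_fiber_of_mul_le_card_of_maps_to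
      (f := v) (n := D) (fun s hs => hv1 s hs) hSne hFrc
    refine ⟨σ, hσ, ?_⟩
    obtain ⟨m', hm', h⟩ := multi_end hc.path k σ⁻¹ 1 (Fr.filter (fun s => v s = σ))
      (fun s hs => by
        rw [Finset.mem_filter] at hs
        rw [← hs.2]
        exact hv2 s hs.1)
      (L := n / k) (n := n)
      (fun s hs => by
        rw [Finset.mem_filter, hFr, Finset.mem_sdiff, Finset.mem_range] at hs
        exact hs.1.1)
      (Nat.div_mul_le_self n k) D hσc
    rw [hc.wn] at h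
    exact S.mono' (by omega) h
  set 𝒢σ : G → Finset G := fun σ => 𝒢.filter (fun g => σ⁻¹ ^ D * g ∈ S.B (n - D)) with h𝒢σ
  have hsub : 𝒢 ⊆ (Sig S H M k).biUnion 𝒢σ := by
    intro g hg
    obtain ⟨σ, hσ, h⟩ := hpop g hg
    rw [Finset.mem_biUnion]
    exact ⟨σ, hσ, by simp only [h𝒢σ, Finset.mem_filter]; exact ⟨hg, h⟩⟩
  calc T.card * 𝒢.card ≤ T.card * ∑ σ ∈ Sig S H M k, (𝒢σ σ).card :=
        Nat.mul_le_mul_left _ ((Finset.card_le_card hsub).trans Finset.card_biUnion_le)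
    _ = ∑ σ ∈ Sig S H M k, T.card * (𝒢σ σ).card := by rw [Finset.mul_sum]
    _ ≤ ∑ σ ∈ Sig S H M k, S.f n := by
        apply Finset.sum_le_sum
        intro σ hσ
        rw [Sig, Finset.mem_filter] at hσ
        apply translate_count (𝒢σ σ) (fun g hg => (hC g (Finset.mem_filter.mp hg).1).gZ) σ hσ.2
          hDn (fun g hg => (Finset.mem_filter.mp hg).2) T hT hTinj
    _ = _ := by rw [Finset.sum_const, smul_eq_mul]

open Classical in
/-- The final inequality in the subexponential case. -/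
lemma sub_final (𝒢 : Finset G) (W P : G → ℕ → G)
    (hC : ∀ g ∈ 𝒢, Cert S H M n g (W g) (P g)) (k m D : ℕ) (hDn : D ≤ n)
    (hn : (Sig S H M k).card * D + k * ((S.f M * S.f k * S.f M) * m) ≤ n / k)
    (T : Finset G) (hT : T ⊆ S.B D) (hTinj : ∀ h ∈ T, ∀ h' ∈ T, h⁻¹ * h' ∈ ZZ H → h = h')
    (c : ℝ) (hc : 0 < c) (h𝒢 : c * S.f n ≤ 𝒢.card)
    (hk : 4 / c * (S.f M : ℝ) ^ 2 * (1 + Real.log (S.f k : ℝ)) ≤ k) (hk0 : 0 < k)
    (hm : 4 / c * ((S.f M : ℝ) ^ 2 * (S.f k : ℝ) ^ 2 * (k + 1)) ≤ m + 1) :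
    (T.card : ℝ) * (c / 2) ≤ (Sig S H M k).card := by
  have hfn : (0 : ℝ) < S.f n := by exact_mod_cast S.f_pos n
  set Bad := 𝒢.filter (fun g => ¬ GoodEl S H M n k m g (W g) (P g)) with hBad
  set 𝒢' := 𝒢.filter (fun g => GoodEl S H M n k m g (W g) (P g)) with h𝒢'
  set 𝒢1 := 𝒢'.filter (fun g => HasRigid H n k m (W g) (P g)) with h𝒢1
  set 𝒢2 := 𝒢'.filter (fun g => ¬ HasRigid H n k m (W g) (P g)) with h𝒢2
  have hsum1 : 𝒢'.card + Bad.card = 𝒢.card := Finset.card_filter_add_card_filter_not _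
  have hsum2 : 𝒢1.card + 𝒢2.card = 𝒢'.card := Finset.card_filter_add_card_filter_not _
  have hbad := bad_total 𝒢 W P hC k m
  rw [← hBad] at hbad
  have hbadR : ((m : ℝ) + 1) * (Bad.card : ℝ) ≤
      ((S.f M : ℝ) ^ 2 * (S.f k : ℝ) ^ 2 * (k + 1)) * S.f n := by exact_mod_cast hbad
  have hm1 : (0 : ℝ) < (m : ℝ) + 1 := by positivity
  have hbad2 : (Bad.card : ℝ) ≤ c / 4 * S.f n := by
    have h1 : ((m : ℝ) + 1) * (Bad.card : ℝ) ≤ ((m : ℝ) + 1) * (c / 4 * S.f n) := by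
      refine hbadR.trans ?_
      have h2 : ((S.f M : ℝ) ^ 2 * (S.f k : ℝ) ^ 2 * (k + 1)) ≤ c / 4 * (m + 1) := by
        have h3 := mul_le_mul_of_nonneg_left hm (by positivity : (0 : ℝ) ≤ c / 4)
        have h4 : c / 4 * (4 / c * ((S.f M : ℝ) ^ 2 * (S.f k : ℝ) ^ 2 * (k + 1))) =
            ((S.f M : ℝ) ^ 2 * (S.f k : ℝ) ^ 2 * (k + 1)) := by field_simp
        rwa [h4] at h3
      calc _ ≤ (c / 4 * (m + 1)) * (S.f n : ℝ) := mul_le_mul_of_nonneg_right h2 hfn.le
        _ = _ := by ring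
    exact le_of_mul_le_mul_left h1 hm1
  have hrig := rigid_count 𝒢1 W P
    (fun g hg => hC g (Finset.mem_filter.mp (Finset.mem_filter.mp hg).1).1) k m
    (fun g hg => (Finset.mem_filter.mp (Finset.mem_filter.mp hg).1).2)
    (fun g hg => (Finset.mem_filter.mp hg).2)
  have hkR : (0 : ℝ) < k := by exact_mod_cast hk0
  have hrig2 : (𝒢1.card : ℝ) ≤ c / 4 * S.f n := by
    have h1 : (k : ℝ) * (𝒢1.card : ℝ) ≤ (k : ℝ) * (c / 4 * S.f n) := by
      refine hrig.trans ?_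
      have h2 : (S.f M : ℝ) ^ 2 * (1 + Real.log (S.f k : ℝ)) ≤ c / 4 * k := by
        have h3 := mul_le_mul_of_nonneg_left hk (by positivity : (0 : ℝ) ≤ c / 4)
        have h4 : c / 4 * (4 / c * (S.f M : ℝ) ^ 2 * (1 + Real.log (S.f k : ℝ))) =
            (S.f M : ℝ) ^ 2 * (1 + Real.log (S.f k : ℝ)) := by field_simp
        rwa [h4] at h3
      calc _ = ((S.f M : ℝ) ^ 2 * (1 + Real.log (S.f k : ℝ))) * S.f n := by ring
        _ ≤ (c / 4 * k) * (S.f n : ℝ) := mul_le_mul_of_nonneg_right h2 hfn.le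
        _ = _ := by ring
    exact le_of_mul_le_mul_left h1 hkR
  have hnr := nonrigid_count 𝒢2 W P
    (fun g hg => hC g (Finset.mem_filter.mp (Finset.mem_filter.mp hg).1).1) k m D hDn
    (fun g hg s hs hfreq hr => (Finset.mem_filter.mp hg).2 ⟨s, hs, hfreq, hr⟩) hn T hT hTinj
  have hnrR : (T.card : ℝ) * (𝒢2.card : ℝ) ≤ (Sig S H M k).card * (S.f n : ℝ) := by
    exact_mod_cast hnr
  have h5 : c / 2 * S.f n ≤ (𝒢2.card : ℝ) := by
    have e1 : (𝒢'.card : ℝ) + Bad.card = 𝒢.card := by exact_mod_cast hsum1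
    have e2 : (𝒢1.card : ℝ) + 𝒢2.card = 𝒢'.card := by exact_mod_cast hsum2
    linarith
  have h6 : (T.card : ℝ) * (c / 2) * S.f n ≤ (Sig S H M k).card * (S.f n : ℝ) := by
    refine le_trans ?_ hnrR
    rw [mul_assoc]
    exact mul_le_mul_of_nonneg_left h5 (by positivity)
  exact le_of_mul_le_mul_right h6 hfn

end Pool.Agent.MPd0e86e
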