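import Pool.Agent.Lib.MP_d0e86e_al.Multi

/-!
# Elements with few conjugates in the ball
-/

namespace Pool.Agent.MPd0e86e

universe u

variable {G : Type u} [Group G] (S : BallSys G)

open Classical in
/-- The elements of bounded length commuting with `g`. -/
noncomputable def KK (M : ℕ) (g : G) : Finset G :=
  (S.B (2 * M + 1)).filter (fun x => x * g = g * x)

variable {S}

open Classical in
lemma step1 {n M : ℕ} {g : G} (hg : g ∈ S.B n)
    (hM : ((S.B n).filter (fun h => IsConj g h)).card ≤ M) :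
    ∃ w p : ℕ → G, S.IsPath w ∧ w n = g ∧ (∀ i ≤ n, p i ∈ S.B M) ∧ p 0 = 1 ∧
      (∀ i ≤ n, w i * (p i)⁻¹ ∈ Subgroup.closure (KK S M g : Set G)) ∧
      g ∈ Subgroup.closure (KK S M g : Set G) := by
  obtain ⟨w, hw, hwn⟩ := S.exists_path hg
  set c : ℕ → G := fun i => (w i)⁻¹ * g * w i with hc
  have hex : ∀ i, ∃ m, ∃ p ∈ S.B m, p⁻¹ * g * p = c i := fun i => ⟨i, w i, hw.mem i, rfl⟩
  set D : ℕ → ℕ := fun i => Nat.find (hex i) with hD
  have hDspec : ∀ i, ∃ p ∈ S.B (D i), p⁻¹ * g * p = c i := fun i => Nat.find_spec (hex i)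
  have hDmin : ∀ i m, (∃ p ∈ S.B m, p⁻¹ * g * p = c i) → D i ≤ m :=
    fun i m h => Nat.find_min' (hex i) h
  have hD0 : D 0 = 0 := by
    have := hDmin 0 0 ⟨1, S.one_mem 0, by simp [hc, hw.zero]⟩
    omega
  have hDs : ∀ i, D (i + 1) ≤ D i + 1 := by
    intro i
    obtain ⟨p, hp, hpc⟩ := hDspec i
    refine hDmin _ _ ⟨p * ((w i)⁻¹ * w (i + 1)), S.mul_mem hp (hw.step i), ?_⟩
    have : (p * ((w i)⁻¹ * w (i + 1)))⁻¹ * g * (p * ((w i)⁻¹ * w (i + 1))) =
        ((w i)⁻¹ * w (i + 1))⁻¹ * (p⁻¹ * g * p) * ((w i)⁻¹ * w (i + 1)) := by group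
    rw [this, hpc]
    simp only [hc]
    group
  have hivt : ∀ i, ∀ j ≤ D i, ∃ i' ≤ i, D i' = j := by
    intro i
    induction i with
    | zero => intro j hj; exact ⟨0, le_rfl, by omega⟩
    | succ i ih =>
      intro j hj
      by_cases h : j ≤ D i
      · obtain ⟨i', hi', h'⟩ := ih j h
        exact ⟨i', by omega, h'⟩
      · exact ⟨i + 1, le_rfl, by have := hDs i; omega⟩
  have hcB : ∀ i ≤ n, c i ∈ S.B n := by
    intro i hi
    have h1 := hw.diff hi
    rw [hwn] at h1
    exact S.mul_mem_of_le h1 (hw.mem i) (by omega)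
  have hDM : ∀ i ≤ n, D i + 1 ≤ M := by
    intro i hi
    refine le_trans ?_ hM
    choose! ι hι1 hι2 using hivt i
    have : (Finset.range (D i + 1)).card ≤ ((S.B n).filter (fun h => IsConj g h)).card := by
      apply Finset.card_le_card_of_injOn (fun j => c (ι j))
      · intro j hj
        have hj' : j ≤ D i := by
          have := Finset.mem_range.mp (Finset.mem_coe.mp hj)
          omega
        rw [Finset.mem_coe, Finset.mem_filter]
        refine ⟨hcB _ ((hι1 j hj').trans hi), ?_⟩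
        rw [isConj_iff]
        exact ⟨(w (ι j))⁻¹, by simp [hc]⟩
      · intro j hj j' hj' hjj
        have h1 : j ≤ D i := by
          have := Finset.mem_range.mp (Finset.mem_coe.mp hj)
          omega
        have h2 : j' ≤ D i := by
          have := Finset.mem_range.mp (Finset.mem_coe.mp hj')
          omega
        rw [← hι2 j h1, ← hι2 j' h2]
        have hjj' : c (ι j) = c (ι j') := hjj
        apply le_antisymm
        · apply hDmin
          rw [hjj']
          exact hDspec _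
        · apply hDmin
          rw [← hjj']
          exact hDspec _
    simpa using this
  have hexP : ∀ i ≤ n, ∃ p ∈ S.B M, p⁻¹ * g * p = c i := by
    intro i hi
    obtain ⟨p, hp, h⟩ := hDspec i
    exact ⟨p, S.mono' (by have := hDM i hi; omega) hp, h⟩
  set P : G → G := fun h => if h = g then 1 else
    if H : ∃ p ∈ S.B M, p⁻¹ * g * p = h then H.choose else 1 with hP
  have hPmem : ∀ i ≤ n, P (c i) ∈ S.B M := by
    intro i hi
    simp only [hP]
    split_ifs with h1 h2
    · exact S.one_mem M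
    · exact h2.choose_spec.1
    · exact S.one_mem M
  have hPc : ∀ i ≤ n, (P (c i))⁻¹ * g * P (c i) = c i := by
    intro i hi
    simp only [hP]
    split_ifs with h1 h2
    · rw [h1]; group
    · exact h2.choose_spec.2
    · exact absurd (hexP i hi) h2
  have hPg : P g = 1 := by simp [hP]
  have hc0 : c 0 = g := by simp [hc, hw.zero]
  have hcn : c n = g := by simp [hc, hwn]
  have hH : ∀ i ≤ n, w i * (P (c i))⁻¹ ∈ Subgroup.closure (KK S M g : Set G) := by
    intro i
    induction i with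
    | zero =>
      intro _
      rw [hc0, hPg, hw.zero, inv_one, mul_one]
      exact one_mem _
    | succ i ih =>
      intro hi
      have h1 := ih (by omega)
      have h2 : P (c i) * ((w i)⁻¹ * w (i + 1)) * (P (c (i + 1)))⁻¹ ∈
          Subgroup.closure (KK S M g : Set G) := by
        apply Subgroup.subset_closure
        rw [Finset.mem_coe, KK, Finset.mem_filter]
        refine ⟨S.mul_mem_of_le (S.mul_mem (hPmem i (by omega)) (hw.step i))
          (S.inv_mem (hPmem (i + 1) hi)) (by omega), ?_⟩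
        have e1 := hPc i (by omega)
        have e2 := hPc (i + 1) hi
        have e3 : c (i + 1) = ((w i)⁻¹ * w (i + 1))⁻¹ * c i * ((w i)⁻¹ * w (i + 1)) := by
          simp only [hc]; group
        have e4 : g = P (c i) * c i * (P (c i))⁻¹ := by
          calc g = P (c i) * ((P (c i))⁻¹ * g * P (c i)) * (P (c i))⁻¹ := by group
            _ = P (c i) * c i * (P (c i))⁻¹ := by rw [e1]
        have e5 : (P (c (i + 1)))⁻¹ * g = c (i + 1) * (P (c (i + 1)))⁻¹ := by
          calc (P (c (i + 1)))⁻¹ * g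
              = ((P (c (i + 1)))⁻¹ * g * P (c (i + 1))) * (P (c (i + 1)))⁻¹ := by group
            _ = c (i + 1) * (P (c (i + 1)))⁻¹ := by rw [e2]
        calc P (c i) * ((w i)⁻¹ * w (i + 1)) * (P (c (i + 1)))⁻¹ * g
            = P (c i) * ((w i)⁻¹ * w (i + 1)) * ((P (c (i + 1)))⁻¹ * g) := by group
          _ = P (c i) * ((w i)⁻¹ * w (i + 1)) * (c (i + 1) * (P (c (i + 1)))⁻¹) := by rw [e5]
          _ = P (c i) * c i * ((w i)⁻¹ * w (i + 1)) * (P (c (i + 1)))⁻¹ := by rw [e3]; group
          _ = (P (c i) * c i * (P (c i))⁻¹) *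
              (P (c i) * ((w i)⁻¹ * w (i + 1)) * (P (c (i + 1)))⁻¹) := by group
          _ = g * (P (c i) * ((w i)⁻¹ * w (i + 1)) * (P (c (i + 1)))⁻¹) := by rw [← e4]
      have h3 := mul_mem h1 h2
      have h4 : w i * (P (c i))⁻¹ * (P (c i) * ((w i)⁻¹ * w (i + 1)) * (P (c (i + 1)))⁻¹) =
          w (i + 1) * (P (c (i + 1)))⁻¹ := by group
      rwa [h4] at h3
  refine ⟨w, fun i => P (c i), hw, hwn, hPmem, ?_, hH, ?_⟩
  · show P (c 0) = 1
    rw [hc0, hPg]
  · have := hH n le_rfl
    rwa [hcn, hPg, inv_one, mul_one, hwn] at this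

/-- the centre of `H`, as a subgroup of `G` -/
def ZZ (H : Subgroup G) : Subgroup G := H ⊓ Subgroup.centralizer (H : Set G)

lemma ZZ_le (H : Subgroup G) : ZZ H ≤ H := inf_le_left

lemma ZZ_comm {H : Subgroup G} {z h : G} (hz : z ∈ ZZ H) (hh : h ∈ H) : z * h = h * z := by
  have := (Subgroup.mem_inf.mp hz).2
  rw [Subgroup.mem_centralizer_iff] at this
  exact (this h hh).symm

lemma mem_ZZ {H : Subgroup G} {z : G} : z ∈ ZZ H ↔ z ∈ H ∧ ∀ h ∈ H, h * z = z * h := by
  unfold ZZ
  rw [Subgroup.mem_inf, Subgroup.mem_centralizer_iff]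
  rfl

lemma mem_ZZ_of_KK {M : ℕ} {g : G} (hg : g ∈ Subgroup.closure (KK S M g : Set G)) :
    g ∈ ZZ (Subgroup.closure (KK S M g : Set G)) := by
  classical
  rw [mem_ZZ]
  refine ⟨hg, ?_⟩
  intro h hh
  induction hh using Subgroup.closure_induction with
  | mem x hx =>
    rw [Finset.mem_coe, KK, Finset.mem_filter] at hx
    exact hx.2
  | one => simp
  | mul x y _ _ hx hy => rw [mul_assoc, hy, ← mul_assoc, hx, mul_assoc]
  | inv x _ hx =>
    have : x⁻¹ * (x * g) * x⁻¹ = x⁻¹ * (g * x) * x⁻¹ := by rw [hx]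
    simpa [mul_assoc] using this.symm

end Pool.Agent.MPd0e86e
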